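import Pool.Agent.IST43.Wgt9
import Pool.Agent.DRX.Lem

/-!
# Weights of the dual expansion: the interface in lists (`DUA.Lam`, `DRX.Hol`)

Coordinates of `DUA`: `Im v` = place (`π / 3` = one row), `Re v` = height.  Group: list `L` of rows with
`|Im v| ≤ 75` degrees, `|Re v| ≤ 2`, at most four (special) rows with `|Re v| > 1/10`, `∑ |Re v| ≤ m / 140 + 4`
over the other rows, `∑ exp (± v) = m + 2 cosh y` over all rows.  Ideal:
`y, - y, 0, .., 0` (`m` zeros).

* `D1 : Hol (etaL L m y) (- 11 π / 30) (11 π / 30) ((2 AW)^N)`, `N = |L| + m + 2`;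
* `D2` : `|etaL| ≤ C N^{-3/2 + e} e^{-e |Re|}` for `|Im| ≤ π / 5`;
* `D3` : `|ibW| ≤ 1` for `3 π / 10 ≤ |Im| ≤ 7 π / 10`;
* `D4` : `ibW` in strips without zeros; `D5`: `Lam (ideal) ibW` continued;
* `Lam_group` : `Lam L = Lam ideal (1 + etaL ibW)`.
-/

set_option autoImplicit false

noncomputable section

open Real

namespace IST43

theorem tau_dua (z : ℂ) : DUA.tau z = tau z := by
  unfold DUA.tau DUA.t tau
  rw [Complex.tanh_eq_sinh_div_cosh, Complex.tanh_eq_sinh_div_cosh, div_mul_div_comm]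
  set a := (z + DUA.a6) / 2 with ha
  set b := (z - DUA.a6) / 2 with hb
  have h1 : a + b = z := by rw [ha, hb]; ring
  have h2 : a - b = DUA.a6 := by rw [ha, hb]; ring
  have h3 : Complex.cosh DUA.a6 = ((√3 / 2 : ℝ) : ℂ) := by
    unfold DUA.a6
    rw [Complex.cosh_mul_I, ← Complex.ofReal_cos, Real.cos_pi_div_six]
  have e1 := Complex.cosh_add a b
  have e2 := Complex.cosh_sub a b
  rw [h1] at e1
  rw [h2, h3] at e2
  have n : 2 * Complex.cosh z - ((√3 : ℝ) : ℂ) = 4 * (Complex.sinh a * Complex.sinh b) := by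
    have : ((√3 : ℝ) : ℂ) = 2 * ((√3 / 2 : ℝ) : ℂ) := by push_cast; ring
    rw [this]
    linear_combination 2 * e1 - 2 * e2
  have d : 2 * Complex.cosh z + ((√3 : ℝ) : ℂ) = 4 * (Complex.cosh a * Complex.cosh b) := by
    have : ((√3 : ℝ) : ℂ) = 2 * ((√3 / 2 : ℝ) : ℂ) := by push_cast; ring
    rw [this]
    linear_combination 2 * e1 + 2 * e2
  rw [n, d, mul_div_mul_left _ _ (by norm_num : (4 : ℂ) ≠ 0)]

/-- the rows of a list -/
def rowL (L : List ℂ) (j : Fin L.length) : ℂ := L.get j * Complex.I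

theorem rowL_I (L : List ℂ) (j : Fin L.length) : rowL L j * Complex.I = -L.get j := by
  unfold rowL
  rw [mul_assoc, Complex.I_mul_I]
  ring

/-- the weight of a list -/
def etaL (L : List ℂ) (m : ℕ) (y : ℝ) : ℂ → ℂ := etaW Finset.univ (rowL L) m y

/-- the ideal -/
def ideal (m : ℕ) (y : ℝ) : List ℂ := (y : ℂ) :: (-(y : ℂ)) :: List.replicate m 0

theorem prod_get {M : Type*} [CommMonoid M] (L : List ℂ) (f : ℂ → M) : (L.map f).prod = ∏ j : Fin L.length, f (L.get j) := by
  rw [← List.prod_ofFn]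
  congr 1
  apply List.ext_get
  · simp
  · intro n h1 h2
    simp

theorem sum_get {M : Type*} [AddCommMonoid M] (L : List ℂ) (f : ℂ → M) : (L.map f).sum = ∑ j : Fin L.length, f (L.get j) := by
  rw [← List.sum_ofFn]
  congr 1
  apply List.ext_get
  · simp
  · intro n h1 h2
    simp

theorem Lam_list (L : List ℂ) (θ : ℂ) : DUA.Lam L θ = Lam Finset.univ (rowL L) θ := by
  unfold DUA.Lam Lam
  rw [prod_get]
  refine Finset.prod_congr rfl fun j _ => ?_
  rw [tau_dua, rowL_I, ← tauW_even]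
  congr 1
  ring

theorem Lam_ideal (m : ℕ) (y : ℝ) (θ : ℂ) : DUA.Lam (ideal m y) θ = Lid m y θ := by
  unfold DUA.Lam ideal Lid
  rw [List.map_cons, List.map_cons, List.prod_cons, List.prod_cons, List.map_replicate, List.prod_replicate]
  rw [tau_dua, tau_dua, tau_dua]
  have e1 : tau ((y : ℂ) - θ) = tau (θ - y) := by
    rw [← tauW_even]
    congr 1
    ring
  have e2 : tau (-(y : ℂ) - θ) = tau (θ + y) := by
    rw [← tauW_even]
    congr 1
    ring
  have e3 : tau (0 - θ) = tau θ := by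
    rw [zero_sub, tauW_even]
  rw [e1, e2, e3]
  ring

/-- a group of rows -/
structure GrpL (L : List ℂ) (m : ℕ) (y : ℝ) : Prop where
  /-- places -/
  im_le : ∀ v ∈ L, |v.im| ≤ 5 * π / 12
  /-- heights -/
  re_le : ∀ v ∈ L, |v.re| ≤ 2
  /-- at most four rows are special -/
  spc : (L.map fun v => if |v.re| ≤ 1 / 10 then 0 else 1).sum ≤ 4
  /-- heights of the ordinary rows -/
  re_sum : (L.map fun v => if |v.re| ≤ 1 / 10 then |v.re| else 0).sum ≤ m / 140 + 4
  /-- first sum rule -/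
  pos : (L.map fun v => Complex.exp v).sum = ((m + 2 * Real.cosh y : ℝ) : ℂ)
  /-- second sum rule -/
  neg : (L.map fun v => Complex.exp (-v)).sum = ((m + 2 * Real.cosh y : ℝ) : ℂ)
  /-- the special rows of the ideal -/
  y_le : |y| ≤ 1

theorem rowL_re (L : List ℂ) (j : Fin L.length) : (rowL L j).re = -(L.get j).im := by
  unfold rowL
  rw [Complex.mul_I_re]

theorem rowL_im (L : List ℂ) (j : Fin L.length) : (rowL L j).im = (L.get j).re := by
  unfold rowL
  rw [Complex.mul_I_im]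

theorem GrpL.grp {L : List ℂ} {m : ℕ} {y : ℝ} (G : GrpL L m y) : Grp Finset.univ (rowL L) m y := by
  refine ⟨fun j _ => ?_, fun j _ => ?_, ?_, ?_, ?_, ?_⟩
  · rw [rowL_re, abs_neg]
    exact G.im_le _ (L.get_mem j)
  · rw [rowL_im]
    exact G.re_le _ (L.get_mem j)
  · have h := G.spc
    rw [sum_get] at h
    rw [Finset.card_filter]
    refine le_trans (le_of_eq ?_) h
    refine Finset.sum_congr rfl fun j _ => ?_
    rw [rowL_im]
    by_cases hj : |(L.get j).re| ≤ 1 / 10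
    · rw [if_neg (not_not.2 hj), if_pos hj]
    · rw [if_pos hj, if_neg hj]
  · have h := G.re_sum
    rw [sum_get] at h
    rw [Finset.sum_filter]
    refine le_trans (le_of_eq ?_) h
    exact Finset.sum_congr rfl fun j _ => by rw [rowL_im]
  · have h := G.neg
    rw [sum_get] at h
    rw [← h]
    exact Finset.sum_congr rfl fun j _ => by rw [rowL_I]
  · have h := G.pos
    rw [sum_get] at h
    rw [← h]
    exact Finset.sum_congr rfl fun j _ => by rw [rowL_I, neg_neg]

/-- **D1** (only the places and the heights of the rows are used) -/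
theorem D1 {L : List ℂ} {m : ℕ} {y : ℝ} (hi : ∀ v ∈ L, |v.im| ≤ 5 * π / 12) (hr : ∀ v ∈ L, |v.re| ≤ 2)
    (hy : |y| ≤ 1) :
    DRX.Hol (etaL L m y) (-(11 * π / 30)) (11 * π / 30) ((2 * AW) ^ (L.length + m + 2)) := by
  have h1 : ∀ j ∈ (Finset.univ : Finset (Fin L.length)), |(rowL L j).re| ≤ 5 * π / 12 := fun j _ => by
    rw [rowL_re, abs_neg]
    exact hi _ (L.get_mem j)
  have h2 : ∀ j ∈ (Finset.univ : Finset (Fin L.length)), |(rowL L j).im| ≤ 2 := fun j _ => by
    rw [rowL_im]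
    exact hr _ (L.get_mem j)
  refine ⟨fun z hz => ?_, fun z a b => ?_, fun z a b => ?_⟩
  · exact (diff_etaW h1 (abs_le.2 ⟨hz.1, hz.2⟩)).continuousAt.continuousWithinAt
  · exact diff_etaW h1 (abs_le.2 ⟨a.le, b.le⟩)
  · have := etaW_crude (m := m) h1 h2 hy (u := z.re) (abs_le.2 ⟨a, b⟩)
    rw [Complex.re_add_im, Finset.card_univ, Fintype.card_fin] at this
    exact this

theorem D1' {L : List ℂ} {m : ℕ} {y : ℝ} (hi : ∀ v ∈ L, |v.im| ≤ 5 * π / 12) {z : ℂ}
    (hz : |z.im| ≤ 11 * π / 30) : DifferentiableAt ℂ (etaL L m y) z :=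
  diff_etaW (fun j _ => by
    rw [rowL_re, abs_neg]
    exact hi _ (L.get_mem j)) hz

theorem ph1_ge : π / 5 ≤ ph1 := by
  have hpi := Real.pi_pos
  have h1 := Real.cos_pi_div_five
  have h6 : 22 / 10 ≤ √5 := Real.le_sqrt_of_sq_le (by norm_num)
  by_contra h
  push Not at h
  have h2 := Real.cos_lt_cos_of_nonneg_of_le_pi ph1_pos.le (by linarith) h
  rw [cos_ph1, h1] at h2
  linarith

/-- **D2** -/
theorem D2 {e : ℝ} (he0 : 0 < e) (he1 : e ≤ 1) :
    ∃ C : ℝ, 0 < C ∧ ∀ (L : List ℂ) (m : ℕ) (y : ℝ), GrpL L m y → ∀ z : ℂ, |z.im| ≤ π / 5 →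
      ‖etaL L m y z‖ ≤ C * ((L.length : ℝ) + m + 2) ^ (-(3 / 2) + e) * Real.exp (-(e * |z.re|)) := by
  obtain ⟨C, hC, h⟩ := etaW_small.{0} he0 he1
  refine ⟨C, hC, fun L m y G z hz => ?_⟩
  have := h (Fin L.length) Finset.univ (rowL L) m y G.grp G.y_le z.re z.im (hz.trans ph1_ge)
  rw [Complex.re_add_im, Finset.card_univ, Fintype.card_fin] at this
  exact this

/-- **D3** -/
theorem D3 {m : ℕ} {y : ℝ} {z : ℂ} (h1 : 3 * π / 10 ≤ |z.im|) (h2 : |z.im| ≤ 7 * π / 10) : ‖ibW m y z‖ ≤ 1 := by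
  have := ibW_le_one (m := m) (y := y) (u := z.re) h1 h2
  rwa [Complex.re_add_im] at this

/-- **D5**: the ideal times `ibW`, off the zeros -/
theorem D5 {m : ℕ} {y : ℝ} {z : ℂ} (h : |z.im| ≤ 47 * π / 60) (h1 : Real.cos (2 * z.im) ≠ 1 / 2) :
    DUA.Lam (ideal m y) z * ibW m y z = iOmW m y z := by
  have := Lid_ibW (m := m) (y := y) (u := z.re) h h1
  rw [Complex.re_add_im] at this
  rw [Lam_ideal]
  exact this

/-- **the group is the ideal with the weight** -/
theorem Lam_group (L : List ℂ) {m : ℕ} {y : ℝ} {z : ℂ} (h : |z.im| ≤ 11 * π / 30)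
    (h1 : Real.cos (2 * z.im) ≠ 1 / 2) :
    DUA.Lam L z = DUA.Lam (ideal m y) z * (1 + etaL L m y z * ibW m y z) := by
  have := Lam_eq (m := m) (y := y) (u := z.re) Finset.univ (rowL L) h h1
  rw [Complex.re_add_im] at this
  rw [Lam_ideal, Lam_list]
  exact this

/-- the integer part and the special rows of the ideal -/
theorem exists_ideal {V : ℝ} (hV : 2 ≤ V) : ∃ (m : ℕ) (y : ℝ), 0 ≤ y ∧ y ≤ 1 ∧ m + 2 * Real.cosh y = V ∧
    V - 3 < m ∧ m ≤ V - 2 := by
  have h1 : 0 ≤ V - 2 := by linarith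
  set m := ⌊V - 2⌋₊ with hm
  have h2 : (m : ℝ) ≤ V - 2 := Nat.floor_le h1
  have h3 : V - 2 < m + 1 := Nat.lt_floor_add_one _
  have hc : Continuous Real.cosh := Real.continuous_cosh
  have h4 : (3 / 2 : ℝ) ≤ Real.cosh 1 := by
    have e := Real.exp_one_gt_d9
    have e' := Real.exp_one_lt_d9
    rw [Real.cosh_eq, Real.exp_neg]
    have h5 : 1 / 2.8 ≤ (Real.exp 1)⁻¹ := by
      rw [← one_div]
      exact one_div_le_one_div_of_le (Real.exp_pos 1) (by linarith)
    norm_num at h5 ⊢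
    linarith
  have h5 := intermediate_value_Icc (zero_le_one' ℝ) hc.continuousOn
  have h6 : (V - m) / 2 ∈ Set.Icc (Real.cosh 0) (Real.cosh 1) := by
    rw [Real.cosh_zero]
    constructor
    · linarith
    · linarith
  obtain ⟨y, hy, hyv⟩ := h5 h6
  exact ⟨m, y, hy.1, hy.2, by rw [hyv]; ring, by linarith, h2⟩

/-- all sums and products over a list do not depend on the order -/
theorem GrpL.perm {L L' : List ℂ} {m : ℕ} {y : ℝ} (G : GrpL L m y) (h : L.Perm L') : GrpL L' m y := by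
  refine ⟨fun v hv => G.im_le v (h.mem_iff.2 hv), fun v hv => G.re_le v (h.mem_iff.2 hv), ?_, ?_, ?_, ?_, G.y_le⟩
  · rw [← (h.map _).sum_eq]
    exact G.spc
  · rw [← (h.map _).sum_eq]
    exact G.re_sum
  · rw [← (h.map _).sum_eq]
    exact G.pos
  · rw [← (h.map _).sum_eq]
    exact G.neg

/-- a real group: places `p`, heights zero -/
theorem GrpL.real {P : List ℝ} {m : ℕ} {y : ℝ} (hP : ∀ p ∈ P, |p| ≤ 5 * π / 12)
    (hs : (P.map Real.sin).sum = 0) (hc : (P.map Real.cos).sum = m + 2 * Real.cosh y) (hy : |y| ≤ 1) :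
    GrpL (P.map fun p : ℝ => (p : ℂ) * Complex.I) m y := by
  have hre : ∀ p : ℝ, ((p : ℂ) * Complex.I).re = 0 := fun p => by simp
  have him : ∀ p : ℝ, ((p : ℂ) * Complex.I).im = p := fun p => by simp
  have hm : (0 : ℝ) ≤ m := Nat.cast_nonneg m
  have e1 : ∀ Q : List ℝ, (Q.map fun p : ℝ => Complex.exp ((p : ℂ) * Complex.I)).sum =
      (((Q.map Real.cos).sum : ℝ) : ℂ) + (((Q.map Real.sin).sum : ℝ) : ℂ) * Complex.I := by
    intro Q
    induction Q with
    | nil => simp
    | cons p Q ih =>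
      rw [List.map_cons, List.sum_cons, List.map_cons, List.sum_cons, List.map_cons, List.sum_cons, ih,
        Complex.exp_mul_I, ← Complex.ofReal_cos, ← Complex.ofReal_sin]
      push_cast
      ring
  have e2 : ∀ Q : List ℝ, (Q.map fun p : ℝ => Complex.exp (-((p : ℂ) * Complex.I))).sum =
      (((Q.map Real.cos).sum : ℝ) : ℂ) - (((Q.map Real.sin).sum : ℝ) : ℂ) * Complex.I := by
    intro Q
    induction Q with
    | nil => simp
    | cons p Q ih =>
      rw [List.map_cons, List.sum_cons, List.map_cons, List.sum_cons, List.map_cons, List.sum_cons, ih,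
        ← neg_mul, Complex.exp_mul_I, Complex.cos_neg, Complex.sin_neg, ← Complex.ofReal_cos,
        ← Complex.ofReal_sin]
      push_cast
      ring
  refine ⟨?_, ?_, ?_, ?_, ?_, ?_, hy⟩
  · intro v hv
    obtain ⟨p, hp, rfl⟩ := List.mem_map.1 hv
    rw [him]
    exact hP p hp
  · intro v hv
    obtain ⟨p, hp, rfl⟩ := List.mem_map.1 hv
    rw [hre, abs_zero]
    norm_num
  · rw [List.map_map]
    have : ((fun v : ℂ => if |v.re| ≤ 1 / 10 then 0 else 1) ∘ fun p : ℝ => (p : ℂ) * Complex.I) =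
        fun _ => (0 : ℕ) := by
      funext p
      rw [Function.comp_apply, hre, abs_zero, if_pos (by norm_num)]
    rw [this]
    simp
  · rw [List.map_map]
    have : ((fun v : ℂ => if |v.re| ≤ 1 / 10 then |v.re| else 0) ∘ fun p : ℝ => (p : ℂ) * Complex.I) =
        fun _ => (0 : ℝ) := by
      funext p
      rw [Function.comp_apply, hre, abs_zero, if_pos (by norm_num)]
    rw [this]
    simp
    positivity
  · rw [List.map_map]
    have := e1 P
    rw [hs, hc, Complex.ofReal_zero, zero_mul, add_zero] at this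
    exact this
  · rw [List.map_map]
    have := e2 P
    rw [hs, hc, Complex.ofReal_zero, zero_mul, sub_zero] at this
    exact this

end IST43

end
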