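import Mathlib

/-!
# Domination of the characters of mixed rows by pure rows

`τ z = (2 cosh z - √3) / (2 cosh z + √3)`.  For `|φ| ≤ π / 3`:
**`‖τ (u + i φ)‖ ≤ τ u ^ cos φ`** (`dom`), so a product over rows `φ j` with `∑ sin φ j = 0` is dominated
by the pure rows with the same `V = ∑ cos φ j` (`dom_prod`).
-/

set_option autoImplicit false

noncomputable section

open Real

namespace IST43

/-- powers -/
theorem pow_dom {A B c : ℝ} (hB : 0 ≤ B) (hBA : B ≤ A) (hc : A + B = √3 * c) (hAB : A * B = c ^ 2 - 1 / 4) :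
    ∀ k : ℕ, 2 * c * (√3 / 2) ^ (2 * k + 1) ≤ A ^ (2 * k + 1) + B ^ (2 * k + 1) := by
  have hA : 0 ≤ A := hB.trans hBA
  have h3 : √3 ^ 2 = 3 := Real.sq_sqrt (by norm_num)
  have hs : A * (A ^ 2 - 3 / 4) + B * (B ^ 2 - 3 / 4) = 0 := by
    have e1 : A * (A ^ 2 - 3 / 4) + B * (B ^ 2 - 3 / 4) =
        (A + B) * ((A + B) ^ 2 - 3 * (A * B) - 3 / 4) := by ring
    rw [e1, hc, hAB, mul_pow, h3]
    ring
  have hA2 : 0 ≤ A * (A ^ 2 - 3 / 4) := by
    by_contra h
    push Not at h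
    have hA' : A ^ 2 < 3 / 4 := by
      by_contra h'
      push Not at h'
      have : 0 ≤ A * (A ^ 2 - 3 / 4) := mul_nonneg hA (by linarith)
      linarith
    have hB' : B * (B ^ 2 - 3 / 4) ≤ 0 :=
      mul_nonpos_of_nonneg_of_nonpos hB (by nlinarith)
    linarith
  intro k
  induction k with
  | zero =>
    simp only [mul_zero, zero_add, pow_one]
    rw [hc]
    exact le_of_eq (by ring)
  | succ k ih =>
    have e1 : A ^ (2 * (k + 1) + 1) + B ^ (2 * (k + 1) + 1) =
        3 / 4 * (A ^ (2 * k + 1) + B ^ (2 * k + 1)) +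
          (A ^ (2 * k) * (A * (A ^ 2 - 3 / 4)) + B ^ (2 * k) * (B * (B ^ 2 - 3 / 4))) := by ring
    have e2 : B * (B ^ 2 - 3 / 4) = -(A * (A ^ 2 - 3 / 4)) := by linarith
    have e3 : 0 ≤ A ^ (2 * k) * (A * (A ^ 2 - 3 / 4)) + B ^ (2 * k) * (B * (B ^ 2 - 3 / 4)) := by
      rw [e2]
      have h1 : B ^ (2 * k) ≤ A ^ (2 * k) := pow_le_pow_left₀ hB hBA _
      have h2 : 0 ≤ (A ^ (2 * k) - B ^ (2 * k)) * (A * (A ^ 2 - 3 / 4)) :=
        mul_nonneg (by linarith) hA2
      linarith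
    have e4 : 2 * c * (√3 / 2) ^ (2 * (k + 1) + 1) = 3 / 4 * (2 * c * (√3 / 2) ^ (2 * k + 1)) := by
      have : (√3 / 2) ^ (2 * (k + 1) + 1) = (√3 / 2) ^ (2 * k + 1) * (√3 ^ 2 / 4) := by
        rw [show 2 * (k + 1) + 1 = (2 * k + 1) + 2 by ring, pow_add (√3 / 2) (2 * k + 1) 2]
        congr 1
        rw [div_pow]
        norm_num
      rw [this, h3]
      ring
    rw [e1, e4]
    linarith

/-- the series of `log ((1 + x) / (1 - x))` -/
theorem log_dom {A B c C : ℝ} (hB : 0 ≤ B) (hBA : B ≤ A) (hc : A + B = √3 * c)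
    (hAB : A * B = c ^ 2 - 1 / 4) (hC : 1 ≤ C) (hAC : A < C) :
    c * (2 * Real.log ((C + √3 / 2) / (C - √3 / 2))) ≤
      Real.log ((C + A) / (C - A)) + Real.log ((C + B) / (C - B)) := by
  have hA : 0 ≤ A := hB.trans hBA
  have hC0 : 0 < C := by linarith
  have h3 : √3 < 1.8 := by
    rw [Real.sqrt_lt' (by norm_num)]
    norm_num
  have h3' : 0 < √3 := by positivity
  have key : ∀ x : ℝ, 0 ≤ x → x < C →
      HasSum (fun k : ℕ => (2 : ℝ) * (1 / (2 * k + 1)) * (x / C) ^ (2 * k + 1))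
        (Real.log ((C + x) / (C - x))) := by
    intro x hx hxC
    have h1 : |x / C| < 1 := by
      rw [abs_of_nonneg (by positivity), div_lt_one hC0]
      exact hxC
    have h2 := Real.hasSum_log_sub_log_of_abs_lt_one h1
    have h3 : Real.log (1 + x / C) - Real.log (1 - x / C) = Real.log ((C + x) / (C - x)) := by
      have hp : 0 < 1 + x / C := by positivity
      have hm : 0 < 1 - x / C := by
        have := (abs_lt.1 h1).2
        linarith
      rw [← Real.log_div hp.ne' hm.ne']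
      congr 1
      have hm' : C - x ≠ 0 := by linarith
      field_simp
    rw [← h3]
    exact h2
  have s1 := key A hA hAC
  have s2 := key B hB (lt_of_le_of_lt hBA hAC)
  have s3 := (key (√3 / 2) (by positivity) (by linarith)).mul_left (c * 2)
  rw [← mul_assoc]
  refine hasSum_le (fun k => ?_) s3 (s1.add s2)
  have h := pow_dom hB hBA hc hAB k
  simp only [div_pow] at h ⊢
  have hk : (0 : ℝ) < 2 * k + 1 := by positivity
  have hCk : 0 < C ^ (2 * k + 1) := by positivity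
  have e1 : c * 2 * (2 * (1 / (2 * (k : ℝ) + 1)) * (√3 ^ (2 * k + 1) / 2 ^ (2 * k + 1) / C ^ (2 * k + 1))) =
      2 * (1 / (2 * (k : ℝ) + 1)) / C ^ (2 * k + 1) * (2 * c * (√3 ^ (2 * k + 1) / 2 ^ (2 * k + 1))) := by
    ring
  have e2 : 2 * (1 / (2 * (k : ℝ) + 1)) * (A ^ (2 * k + 1) / C ^ (2 * k + 1)) +
      2 * (1 / (2 * (k : ℝ) + 1)) * (B ^ (2 * k + 1) / C ^ (2 * k + 1)) =
      2 * (1 / (2 * (k : ℝ) + 1)) / C ^ (2 * k + 1) * (A ^ (2 * k + 1) + B ^ (2 * k + 1)) := by
    ring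
  rw [e1, e2]
  exact mul_le_mul_of_nonneg_left h (by positivity)

/-- the character of one row -/
def tau (z : ℂ) : ℂ := (2 * Complex.cosh z - (√3 : ℝ)) / (2 * Complex.cosh z + (√3 : ℝ))

/-- the real character -/
def tauR (u : ℝ) : ℝ := (2 * Real.cosh u - √3) / (2 * Real.cosh u + √3)

theorem tauR_pos (u : ℝ) : 0 < tauR u := by
  unfold tauR
  have h1 := Real.one_le_cosh u
  have h3 : √3 < 1.8 := by
    rw [Real.sqrt_lt' (by norm_num)]
    norm_num
  have h3' : 0 < √3 := by positivity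
  apply div_pos <;> linarith

theorem tau_ofReal (u : ℝ) : tau u = (tauR u : ℂ) := by
  unfold tau tauR
  push_cast
  rfl

theorem cosh_parts (u φ : ℝ) : Complex.cosh ((u : ℂ) + (φ : ℂ) * Complex.I) =
    ((Real.cosh u * Real.cos φ : ℝ) : ℂ) + ((Real.sinh u * Real.sin φ : ℝ) : ℂ) * Complex.I := by
  rw [Complex.cosh_add, Complex.cosh_mul_I, Complex.sinh_mul_I]
  push_cast
  ring

/-- squares of the moduli -/
theorem normSq_pm (u φ s : ℝ) (hs : s ^ 2 = 3) :
    Complex.normSq (2 * Complex.cosh ((u : ℂ) + (φ : ℂ) * Complex.I) + (s : ℝ)) =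
      4 * (Real.cosh u ^ 2 + s * Real.cosh u * Real.cos φ + (Real.cos φ ^ 2 - 1 / 4)) := by
  rw [cosh_parts]
  have e : (2 : ℂ) * (((Real.cosh u * Real.cos φ : ℝ) : ℂ) + ((Real.sinh u * Real.sin φ : ℝ) : ℂ) *
      Complex.I) + (s : ℝ) = ((2 * (Real.cosh u * Real.cos φ) + s : ℝ) : ℂ) +
        ((2 * (Real.sinh u * Real.sin φ) : ℝ) : ℂ) * Complex.I := by
    push_cast
    ring
  rw [e, Complex.normSq_add_mul_I]
  have h1 : Real.sinh u ^ 2 = Real.cosh u ^ 2 - 1 := by
    have := Real.cosh_sq u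
    linarith
  have h2 : Real.sin φ ^ 2 = 1 - Real.cos φ ^ 2 := by
    have := Real.sin_sq_add_cos_sq φ
    linarith
  have e2 : (2 * (Real.cosh u * Real.cos φ) + s) ^ 2 + (2 * (Real.sinh u * Real.sin φ)) ^ 2 =
      4 * Real.cosh u ^ 2 * Real.cos φ ^ 2 + 4 * s * Real.cosh u * Real.cos φ + s ^ 2 +
        4 * Real.sinh u ^ 2 * Real.sin φ ^ 2 := by ring
  rw [e2, h1, h2, hs]
  ring

/-- **domination** -/
theorem dom {u φ : ℝ} (h0 : 0 ≤ φ) (h1 : φ ≤ π / 3) :
    ‖tau ((u : ℂ) + (φ : ℂ) * Complex.I)‖ ≤ tauR u ^ Real.cos φ := by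
  set C := Real.cosh u with hCd
  set c := Real.cos φ with hcd
  set A := Real.cos (φ - π / 6) with hAd
  set B := Real.cos (φ + π / 6) with hBd
  have hC : 1 ≤ C := Real.one_le_cosh u
  have hpi := Real.pi_pos
  have h3 : √3 ^ 2 = 3 := Real.sq_sqrt (by norm_num)
  have h3p : 0 < √3 := by positivity
  have h3l : √3 < 1.8 := by
    rw [Real.sqrt_lt' (by norm_num)]
    norm_num
  have hB0 : 0 ≤ B := by
    apply Real.cos_nonneg_of_mem_Icc
    constructor <;> linarith
  have hAe : A = c * (√3 / 2) + Real.sin φ * (1 / 2) := by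
    rw [hAd, Real.cos_sub, Real.cos_pi_div_six, Real.sin_pi_div_six]
  have hBe : B = c * (√3 / 2) - Real.sin φ * (1 / 2) := by
    rw [hBd, Real.cos_add, Real.cos_pi_div_six, Real.sin_pi_div_six]
  have hsin : 0 ≤ Real.sin φ := Real.sin_nonneg_of_nonneg_of_le_pi h0 (by linarith)
  have hBA : B ≤ A := by rw [hAe, hBe]; linarith
  have hS : A + B = √3 * c := by rw [hAe, hBe]; ring
  have hP : A * B = c ^ 2 - 1 / 4 := by
    rw [hAe, hBe]
    have h2 : Real.sin φ ^ 2 = 1 - c ^ 2 := by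
      have := Real.sin_sq_add_cos_sq φ
      rw [← hcd] at this
      linarith
    have : (c * (√3 / 2) + Real.sin φ * (1 / 2)) * (c * (√3 / 2) - Real.sin φ * (1 / 2)) =
        c ^ 2 * (√3 ^ 2 / 4) - Real.sin φ ^ 2 / 4 := by ring
    rw [this, h3, h2]
    ring
  have hA1 : A ≤ 1 := Real.cos_le_one _
  -- the squares
  have nm : Complex.normSq (2 * Complex.cosh ((u : ℂ) + (φ : ℂ) * Complex.I) - (√3 : ℝ)) =
      4 * ((C - A) * (C - B)) := by
    have := normSq_pm u φ (-√3) (by rw [neg_sq, h3])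
    rw [show (2 * Complex.cosh ((u : ℂ) + (φ : ℂ) * Complex.I) - (√3 : ℝ)) =
      (2 * Complex.cosh ((u : ℂ) + (φ : ℂ) * Complex.I) + ((-√3 : ℝ) : ℂ)) by push_cast; ring, this]
    rw [← hCd, ← hcd]
    linear_combination (4 * C) * hS - 4 * hP
  have np : Complex.normSq (2 * Complex.cosh ((u : ℂ) + (φ : ℂ) * Complex.I) + (√3 : ℝ)) =
      4 * ((C + A) * (C + B)) := by
    have := normSq_pm u φ (√3) h3
    rw [this, ← hCd, ← hcd]
    linear_combination (-4 * C) * hS - 4 * hP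
  have hsq : ‖tau ((u : ℂ) + (φ : ℂ) * Complex.I)‖ ^ 2 = ((C - A) / (C + A)) * ((C - B) / (C + B)) := by
    unfold tau
    rw [norm_div, div_pow, ← Complex.normSq_eq_norm_sq, ← Complex.normSq_eq_norm_sq, nm, np]
    have hA0 : 0 < C + A := by linarith
    have hB0' : 0 < C + B := by linarith
    field_simp
  have hR0 : 0 ≤ tauR u ^ c := (Real.rpow_pos_of_pos (tauR_pos u) _).le
  refine le_of_sq_le_sq ?_ hR0
  rw [hsq]
  rcases lt_or_ge A C with hAC | hAC
  · have hl := log_dom hB0 hBA hS hP hC hAC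
    have q1 : 0 < C - A := by linarith
    have q2 : 0 < C - B := by linarith
    have q3 : 0 < C + A := by linarith
    have q4 : 0 < C + B := by linarith
    have q5 : 0 < C - √3 / 2 := by linarith
    have q6 : 0 < C + √3 / 2 := by linarith
    have e1 : (C - A) / (C + A) * ((C - B) / (C + B)) =
        Real.exp (-(Real.log ((C + A) / (C - A)) + Real.log ((C + B) / (C - B)))) := by
      rw [neg_add, Real.exp_add, ← Real.log_inv, ← Real.log_inv, Real.exp_log (by positivity),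
        Real.exp_log (by positivity), inv_div, inv_div]
    have e2 : (tauR u ^ c) ^ 2 = Real.exp (-(c * (2 * Real.log ((C + √3 / 2) / (C - √3 / 2))))) := by
      have t1 : tauR u = ((C + √3 / 2) / (C - √3 / 2))⁻¹ := by
        unfold tauR
        rw [← hCd, inv_div]
        have : 2 * C + √3 ≠ 0 := by positivity
        have : C + √3 / 2 ≠ 0 := q6.ne'
        field_simp
      rw [← Real.rpow_natCast, ← Real.rpow_mul (tauR_pos u).le, Real.rpow_def_of_pos (tauR_pos u), t1,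
        Real.log_inv]
      congr 1
      push_cast
      ring
    rw [e1, e2]
    exact Real.exp_le_exp.2 (by linarith)
  · have : C - A ≤ 0 := by linarith
    have q2 : 0 ≤ C - B := by linarith
    have q3 : 0 < C + A := by linarith
    have q4 : 0 < C + B := by linarith
    have : (C - A) / (C + A) * ((C - B) / (C + B)) ≤ 0 :=
      mul_nonpos_of_nonpos_of_nonneg (div_nonpos_of_nonpos_of_nonneg this q3.le) (by positivity)
    exact this.trans (by positivity)

theorem tau_conj (z : ℂ) : tau (star z) = star (tau z) := by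
  unfold tau
  simp [Complex.cosh_conj]

/-- **domination, both signs** -/
theorem dom' {u φ : ℝ} (h1 : |φ| ≤ π / 3) :
    ‖tau ((u : ℂ) + (φ : ℂ) * Complex.I)‖ ≤ tauR u ^ Real.cos φ := by
  rcases le_total 0 φ with h0 | h0
  · rw [abs_of_nonneg h0] at h1
    exact dom h0 h1
  · rw [abs_of_nonpos h0] at h1
    have h := dom (u := u) (φ := -φ) (by linarith) h1
    rw [Real.cos_neg] at h
    have e : (u : ℂ) + ((-φ : ℝ) : ℂ) * Complex.I = star ((u : ℂ) + (φ : ℂ) * Complex.I) := by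
      simp
    rw [e, tau_conj, norm_star] at h
    exact h

/-- **domination of a product of rows** -/
theorem dom_prod {ι : Type*} (s : Finset ι) (φ : ι → ℝ) (h : ∀ j ∈ s, |φ j| ≤ π / 3) (u : ℝ) :
    ‖∏ j ∈ s, tau ((u : ℂ) + (φ j : ℂ) * Complex.I)‖ ≤ tauR u ^ (∑ j ∈ s, Real.cos (φ j)) := by
  rw [norm_prod, Real.rpow_sum_of_pos (tauR_pos u)]
  exact Finset.prod_le_prod (fun _ _ => norm_nonneg _) fun j hj => dom' (h j hj)

end IST43

end
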