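import Pool.Agent.IST43.Dom

/-!
# The characters beyond the edge

For `u ≥ 1`: `∏ tau (u + i φ_j) = exp (-2 √3 V e^(-u) + R)`, `‖R‖ ≤ 2 N e^(-5u)`, where
`V = ∑ e^(-i φ_j)` (`prod_edge`), and the comparison with `M` pure rows (`prod_cmp`).
-/

set_option autoImplicit false

noncomputable section

open Real

namespace IST43

/-- the sixth root -/
def om : ℂ := ((√3 / 2 : ℝ) : ℂ) + ((1 / 2 : ℝ) : ℂ) * Complex.I

def om' : ℂ := ((√3 / 2 : ℝ) : ℂ) - ((1 / 2 : ℝ) : ℂ) * Complex.I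

theorem s3c : ((√3 : ℝ) : ℂ) ^ 2 = 3 := by
  rw [← Complex.ofReal_pow, Real.sq_sqrt (by norm_num)]
  norm_num

theorem om_add : om + om' = ((√3 : ℝ) : ℂ) := by
  unfold om om'
  push_cast
  ring

theorem om_mul : om * om' = 1 := by
  have h := s3c
  have hI := Complex.I_sq
  unfold om om'
  push_cast
  have : ((√3 : ℝ) : ℂ) / 2 * (((√3 : ℝ) : ℂ) / 2) + 1 / 4 = 1 := by
    rw [show ((√3 : ℝ) : ℂ) / 2 * (((√3 : ℝ) : ℂ) / 2) = ((√3 : ℝ) : ℂ) ^ 2 / 4 by ring, h]
    norm_num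
  calc (((√3 : ℝ) : ℂ) / 2 + 1 / 2 * Complex.I) * (((√3 : ℝ) : ℂ) / 2 - 1 / 2 * Complex.I)
      = ((√3 : ℝ) : ℂ) / 2 * (((√3 : ℝ) : ℂ) / 2) - Complex.I ^ 2 / 4 := by ring
    _ = 1 := by rw [hI]; linear_combination this

theorem om_cube : om ^ 3 + om' ^ 3 = 0 := by
  have e : om ^ 3 + om' ^ 3 = (om + om') * ((om + om') ^ 2 - 3 * (om * om')) := by ring
  rw [e, om_add, om_mul, s3c]
  ring

theorem norm_om : ‖om‖ = 1 := by
  have h : Complex.normSq om = 1 := by
    unfold om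
    rw [Complex.normSq_add_mul_I, div_pow, Real.sq_sqrt (by norm_num)]
    norm_num
  have h2 : ‖om‖ ^ 2 = 1 := by rw [← Complex.normSq_eq_norm_sq, h]
  exact (pow_eq_one_iff_of_nonneg (norm_nonneg _) (by norm_num)).1 h2

theorem norm_om' : ‖om'‖ = 1 := by
  have h : Complex.normSq om' = 1 := by
    have : om' = ((√3 / 2 : ℝ) : ℂ) + ((-(1 / 2) : ℝ) : ℂ) * Complex.I := by
      unfold om'
      push_cast
      ring
    rw [this, Complex.normSq_add_mul_I, div_pow, Real.sq_sqrt (by norm_num)]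
    norm_num
  have h2 : ‖om'‖ ^ 2 = 1 := by rw [← Complex.normSq_eq_norm_sq, h]
  exact (pow_eq_one_iff_of_nonneg (norm_nonneg _) (by norm_num)).1 h2

/-- the logarithm of the character -/
def LT (t : ℂ) : ℂ :=
  Complex.log (1 + -(t * om)) - Complex.log (1 + t * om) +
    (Complex.log (1 + -(t * om')) - Complex.log (1 + t * om'))

theorem taylor_odd (x : ℂ) :
    Complex.logTaylor 5 (-x) - Complex.logTaylor 5 x = -2 * x - 2 / 3 * x ^ 3 := by
  simp only [Complex.logTaylor, Finset.sum_range_succ, Finset.sum_range_zero]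
  push_cast
  ring

theorem LT_bound {t : ℂ} (ht : ‖t‖ ≤ 1 / 2) :
    ‖LT t + 2 * (√3 : ℝ) * t‖ ≤ 2 * ‖t‖ ^ 5 := by
  have b : ∀ w : ℂ, ‖w‖ = ‖t‖ →
      ‖Complex.log (1 + w) - Complex.logTaylor 5 w‖ ≤ ‖t‖ ^ 5 * 2 / 5 := by
    intro w hw
    have h1 : ‖w‖ < 1 := by rw [hw]; linarith
    have h := Complex.norm_log_sub_logTaylor_le 4 h1
    rw [hw] at h
    refine h.trans ?_
    have h2 : (1 - ‖t‖)⁻¹ ≤ 2 := by
      rw [inv_le_comm₀ (by linarith) (by norm_num)]
      linarith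
    have h3 : (0 : ℝ) ≤ ‖t‖ ^ 5 := by positivity
    norm_num
    apply div_le_div_of_nonneg_right _ (by norm_num)
    exact mul_le_mul_of_nonneg_left h2 h3
  have n1 : ‖t * om‖ = ‖t‖ := by rw [norm_mul, norm_om, mul_one]
  have n2 : ‖t * om'‖ = ‖t‖ := by rw [norm_mul, norm_om', mul_one]
  have b1 := b (t * om) n1
  have b2 := b (-(t * om)) (by rw [norm_neg, n1])
  have b3 := b (t * om') n2
  have b4 := b (-(t * om')) (by rw [norm_neg, n2])
  have e : LT t + 2 * (√3 : ℝ) * t =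
      (Complex.log (1 + -(t * om)) - Complex.logTaylor 5 (-(t * om))) -
        (Complex.log (1 + t * om) - Complex.logTaylor 5 (t * om)) +
      ((Complex.log (1 + -(t * om')) - Complex.logTaylor 5 (-(t * om'))) -
        (Complex.log (1 + t * om') - Complex.logTaylor 5 (t * om'))) := by
    have e1 := taylor_odd (t * om)
    have e2 := taylor_odd (t * om')
    have e3 : (2 : ℂ) * (√3 : ℝ) * t = 2 * t * om + 2 * t * om' := by
      rw [← om_add]; ring
    have e4 : t ^ 3 * (om ^ 3 + om' ^ 3) = 0 := by rw [om_cube, mul_zero]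
    unfold LT
    rw [e3]
    linear_combination e1 + e2 - 2 / 3 * e4
  rw [e]
  have t1 := norm_sub_le (Complex.log (1 + -(t * om)) - Complex.logTaylor 5 (-(t * om)))
    (Complex.log (1 + t * om) - Complex.logTaylor 5 (t * om))
  have t2 := norm_sub_le (Complex.log (1 + -(t * om')) - Complex.logTaylor 5 (-(t * om')))
    (Complex.log (1 + t * om') - Complex.logTaylor 5 (t * om'))
  refine (norm_add_le _ _).trans ?_
  have h3 : (0 : ℝ) ≤ ‖t‖ ^ 5 := by positivity
  linarith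

theorem exp_LT {z : ℂ} (hz : ‖Complex.exp (-z)‖ < 1) :
    Complex.exp (LT (Complex.exp (-z))) = tau z := by
  set t := Complex.exp (-z) with ht
  have ht0 : t ≠ 0 := Complex.exp_ne_zero _
  have hinv : Complex.exp z = t⁻¹ := by rw [ht, Complex.exp_neg, inv_inv]
  have nz : ∀ w : ℂ, ‖w‖ = ‖t‖ → 1 + w ≠ 0 := by
    intro w hw h
    have : w = -1 := by linear_combination h
    rw [this] at hw
    simp at hw
    rw [← hw] at hz
    exact lt_irrefl _ hz
  have n1 : ‖t * om‖ = ‖t‖ := by rw [norm_mul, norm_om, mul_one]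
  have n2 : ‖t * om'‖ = ‖t‖ := by rw [norm_mul, norm_om', mul_one]
  have z1 := nz (t * om) n1
  have z2 := nz (-(t * om)) (by rw [norm_neg, n1])
  have z3 := nz (t * om') n2
  have z4 := nz (-(t * om')) (by rw [norm_neg, n2])
  unfold LT
  rw [Complex.exp_add, Complex.exp_sub, Complex.exp_sub, Complex.exp_log z1, Complex.exp_log z2,
    Complex.exp_log z3, Complex.exp_log z4]
  have e1 : (1 + -(t * om)) * (1 + -(t * om')) = 1 - (√3 : ℝ) * t + t ^ 2 := by
    have := om_add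
    have := om_mul
    linear_combination (-t) * om_add + t ^ 2 * om_mul
  have e2 : (1 + t * om) * (1 + t * om') = 1 + (√3 : ℝ) * t + t ^ 2 := by
    linear_combination t * om_add + t ^ 2 * om_mul
  have hc : 2 * Complex.cosh z = (1 + t ^ 2) / t := by
    rw [Complex.cosh, hinv, ← ht]
    field_simp
  unfold tau
  rw [hc, div_mul_div_comm, e1, e2]
  have h5 : 1 + (√3 : ℝ) * t + t ^ 2 ≠ 0 := by
    rw [← e2]
    exact mul_ne_zero z1 z3
  have h6 : (1 + t ^ 2) / t + ((√3 : ℝ) : ℂ) ≠ 0 := by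
    intro h
    apply h5
    field_simp at h
    linear_combination h
  rw [div_eq_div_iff h5 h6]
  field_simp
  ring

/-- **the product beyond the edge** -/
theorem prod_edge {ι : Type*} (s : Finset ι) (φ : ι → ℝ) {u : ℝ} (hu : 1 ≤ u) :
    ∃ R : ℂ, ‖R‖ ≤ 2 * s.card * Real.exp (-(5 * u)) ∧
      ∏ j ∈ s, tau ((u : ℂ) + (φ j : ℂ) * Complex.I) =
        Complex.exp (-(2 * (√3 : ℝ) * Real.exp (-u) * ∑ j ∈ s, Complex.exp (-((φ j : ℂ) * Complex.I)))
          + R) := by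
  set T : ι → ℂ := fun j => Complex.exp (-((u : ℂ) + (φ j : ℂ) * Complex.I)) with hT
  have hTn : ∀ j, ‖T j‖ = Real.exp (-u) := by
    intro j
    rw [hT]
    simp only
    rw [Complex.norm_exp]
    congr 1
    simp
  have he : Real.exp (-u) ≤ 1 / 2 := by
    have h1 : Real.exp (-u) ≤ Real.exp (-1) := Real.exp_le_exp.2 (by linarith)
    have h2 := Real.exp_neg_one_lt_d9
    linarith
  have he5 : Real.exp (-u) ^ 5 = Real.exp (-(5 * u)) := by
    rw [← Real.exp_nat_mul]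
    congr 1
    push_cast
    ring
  refine ⟨∑ j ∈ s, (LT (T j) + 2 * (√3 : ℝ) * T j), ?_, ?_⟩
  · refine (norm_sum_le _ _).trans ?_
    have : ∀ j ∈ s, ‖LT (T j) + 2 * (√3 : ℝ) * T j‖ ≤ 2 * Real.exp (-(5 * u)) := by
      intro j _
      have h := LT_bound (t := T j) (by rw [hTn]; exact he)
      rw [hTn, he5] at h
      exact h
    refine (Finset.sum_le_sum this).trans ?_
    rw [Finset.sum_const, nsmul_eq_mul]
    exact le_of_eq (by ring)
  · have h1 : ∀ j ∈ s, tau ((u : ℂ) + (φ j : ℂ) * Complex.I) = Complex.exp (LT (T j)) := by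
      intro j _
      rw [exp_LT]
      show ‖T j‖ < 1
      rw [hTn]
      linarith
    rw [Finset.prod_congr rfl h1, ← Complex.exp_sum]
    congr 1
    rw [Finset.sum_add_distrib]
    have h2 : ∀ j, T j = (Real.exp (-u) : ℂ) * Complex.exp (-((φ j : ℂ) * Complex.I)) := by
      intro j
      rw [hT]
      simp only
      rw [neg_add, Complex.exp_add]
      push_cast
      rfl
    have h3 : ∑ j ∈ s, 2 * ((√3 : ℝ) : ℂ) * T j =
        2 * (√3 : ℝ) * Real.exp (-u) * ∑ j ∈ s, Complex.exp (-((φ j : ℂ) * Complex.I)) := by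
      rw [Finset.mul_sum]
      refine Finset.sum_congr rfl fun j _ => ?_
      rw [h2]
      ring
    rw [h3]
    ring

/-- **comparison with `M` pure rows** beyond the edge: `δ / Λ'` is
`O (|V - M| e^(-u) + (N + M) e^(-5u))`. -/
theorem prod_cmp {ι : Type*} (s : Finset ι) (φ : ι → ℝ) (V : ℝ)
    (hV : ∑ j ∈ s, Complex.exp (-((φ j : ℂ) * Complex.I)) = V) (M : ℕ) {u : ℝ} (hu : 1 ≤ u)
    (hsm : 4 * |V - M| * Real.exp (-u) + 2 * (s.card + M) * Real.exp (-(5 * u)) ≤ 1) :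
    ‖∏ j ∈ s, tau ((u : ℂ) + (φ j : ℂ) * Complex.I) - (tauR u : ℂ) ^ M‖ ≤
      2 * (4 * |V - M| * Real.exp (-u) + 2 * (s.card + M) * Real.exp (-(5 * u))) * tauR u ^ M := by
  obtain ⟨R, hR, hP⟩ := prod_edge s φ hu
  obtain ⟨R', hR', hP'⟩ := prod_edge (Finset.range M) (fun _ => (0 : ℝ)) hu
  simp only [Complex.ofReal_zero, zero_mul, add_zero, neg_zero, Complex.exp_zero,
    Finset.sum_const, Finset.card_range, nsmul_eq_mul, mul_one, Finset.prod_const,
    tau_ofReal] at hP' hR'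
  rw [hV] at hP
  set w : ℂ := -(2 * (√3 : ℝ) * Real.exp (-u) * ((V : ℂ) - M)) + (R - R') with hw
  have h1 : ∏ j ∈ s, tau ((u : ℂ) + (φ j : ℂ) * Complex.I) = (tauR u : ℂ) ^ M * Complex.exp w := by
    rw [hP, hP', ← Complex.exp_add]
    congr 1
    rw [hw]
    ring
  have hs3 : √3 ≤ 2 := by
    rw [Real.sqrt_le_left (by norm_num)]
    norm_num
  have hwn : ‖w‖ ≤ 4 * |V - M| * Real.exp (-u) + 2 * (s.card + M) * Real.exp (-(5 * u)) := by
    rw [hw]
    refine (norm_add_le _ _).trans ?_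
    have a1 : ‖-(2 * ((√3 : ℝ) : ℂ) * (Real.exp (-u) : ℂ) * ((V : ℂ) - M))‖
        ≤ 4 * |V - M| * Real.exp (-u) := by
      rw [norm_neg]
      have : (2 : ℂ) * ((√3 : ℝ) : ℂ) * (Real.exp (-u) : ℂ) * ((V : ℂ) - M) =
          ((2 * √3 * Real.exp (-u) * (V - M) : ℝ) : ℂ) := by
        push_cast
        ring
      rw [this, Complex.norm_real, Real.norm_eq_abs, abs_mul, abs_of_nonneg (by positivity)]
      have h3 : (0 : ℝ) ≤ Real.exp (-u) * |V - M| := by positivity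
      nlinarith
    have a2 : ‖R - R'‖ ≤ 2 * (s.card + M) * Real.exp (-(5 * u)) := by
      refine (norm_sub_le _ _).trans ?_
      linarith
    linarith
  rw [h1, show (tauR u : ℂ) ^ M * Complex.exp w - (tauR u : ℂ) ^ M =
    (tauR u : ℂ) ^ M * (Complex.exp w - 1) by ring, norm_mul]
  have h2 : ‖(tauR u : ℂ) ^ M‖ = tauR u ^ M := by
    rw [norm_pow, Complex.norm_real, Real.norm_of_nonneg (tauR_pos u).le]
  rw [h2, mul_comm]
  apply mul_le_mul_of_nonneg_right _ (by have := tauR_pos u; positivity)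
  exact (Complex.norm_exp_sub_one_le (hwn.trans hsm)).trans (by linarith)

theorem tauR_lt_one (u : ℝ) : tauR u < 1 := by
  unfold tauR
  have h1 := Real.one_le_cosh u
  have h3' : 0 < √3 := by positivity
  rw [div_lt_one (by linarith)]
  linarith

/-- **domination with `M ≤ V`**: `‖Λ_X‖ ≤ Λ'`, hence `‖δ‖ ≤ 2 Λ'`, everywhere. -/
theorem prod_dom_nat {ι : Type*} (s : Finset ι) (φ : ι → ℝ) (h : ∀ j ∈ s, |φ j| ≤ π / 3)
    (M : ℕ) (hM : (M : ℝ) ≤ ∑ j ∈ s, Real.cos (φ j)) (u : ℝ) :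
    ‖∏ j ∈ s, tau ((u : ℂ) + (φ j : ℂ) * Complex.I)‖ ≤ tauR u ^ M := by
  refine (dom_prod s φ h u).trans ?_
  rw [← Real.rpow_natCast]
  exact Real.rpow_le_rpow_of_exponent_ge (tauR_pos u) (tauR_lt_one u).le hM

end IST43

end
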