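import Pool.Agent.IST.GAvg
import Mathlib.Analysis.Convex.Integral
import Mathlib.Analysis.Convex.SpecificFunctions.Basic

/-!
# Jensen over the modes of a quadratic insertion

`jens`: if `∫ W e^(φ_s) ≤ A` for every `s`, then `∫ W e^(∫ φ_s dP(s)) ≤ A` (`P` a probability).
`quad_small`: statistics `X_s, Y_s` with `∫ W e^(c X_s) ≤ A e^(v/2 c² + C |c|)` for every real `c`
(same for `Y_s`); a quadratic insertion `Q = ∫ a_s X_s Y_s dP(s)` with `|a_s| ≤ κ`, `κ v < 1` has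
`∫ W e^Q ≤ A GC κ v C`.
-/

set_option autoImplicit false

noncomputable section

open MeasureTheory ProbabilityTheory
open scoped ENNReal

namespace IST43

variable {Ω S : Type*} [MeasurableSpace Ω] [MeasurableSpace S]

/-- Jensen for the exponential, as a `lintegral` -/
theorem exp_int_le (P : Measure S) [IsProbabilityMeasure P] {φ : S → ℝ} (hφ : Measurable φ)
    {B : ℝ} (hb : ∀ s, |φ s| ≤ B) :
    ENNReal.ofReal (Real.exp (∫ s, φ s ∂P)) ≤ ∫⁻ s, ENNReal.ofReal (Real.exp (φ s)) ∂P := by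
  have hi : Integrable φ P :=
    (integrable_const B).mono' hφ.aestronglyMeasurable (ae_of_all _ fun s => by
      rw [Real.norm_eq_abs]; exact hb s)
  have he : Integrable (fun s => Real.exp (φ s)) P :=
    (integrable_const (Real.exp B)).mono' (Real.measurable_exp.comp hφ).aestronglyMeasurable
      (ae_of_all _ fun s => by
        rw [Real.norm_eq_abs, abs_of_pos (Real.exp_pos _)]
        exact Real.exp_le_exp.2 ((le_abs_self _).trans (hb s)))
  have h1 := convexOn_exp.map_integral_le (μ := P) (f := φ) Real.continuous_exp.continuousOn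
    isClosed_univ (ae_of_all _ fun s => Set.mem_univ _) hi he
  calc ENNReal.ofReal (Real.exp (∫ s, φ s ∂P)) ≤ ENNReal.ofReal (∫ s, Real.exp (φ s) ∂P) :=
        ENNReal.ofReal_le_ofReal h1
    _ = ∫⁻ s, ENNReal.ofReal (Real.exp (φ s)) ∂P :=
        ofReal_integral_eq_lintegral_ofReal he (ae_of_all _ fun s => (Real.exp_pos _).le)

/-- **Jensen over the modes** -/
theorem jens (P : Measure S) [IsProbabilityMeasure P] (μ : Measure Ω) [SFinite μ]
    {W : Ω → ℝ≥0∞} (hW : Measurable W) {φ : S → Ω → ℝ} (hφ : Measurable fun p : S × Ω => φ p.1 p.2)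
    (hb : ∀ ω, ∃ B : ℝ, ∀ s, |φ s ω| ≤ B) {A : ℝ≥0∞}
    (h : ∀ s, ∫⁻ ω, W ω * ENNReal.ofReal (Real.exp (φ s ω)) ∂μ ≤ A) :
    ∫⁻ ω, W ω * ENNReal.ofReal (Real.exp (∫ s, φ s ω ∂P)) ∂μ ≤ A := by
  calc ∫⁻ ω, W ω * ENNReal.ofReal (Real.exp (∫ s, φ s ω ∂P)) ∂μ
      ≤ ∫⁻ ω, ∫⁻ s, W ω * ENNReal.ofReal (Real.exp (φ s ω)) ∂P ∂μ := by
        refine lintegral_mono fun ω => ?_
        obtain ⟨B, hB⟩ := hb ω
        have hm : Measurable fun s => φ s ω := hφ.comp (measurable_id.prodMk measurable_const)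
        rw [lintegral_const_mul _ (by fun_prop)]
        gcongr
        exact exp_int_le P hm hB
    _ = ∫⁻ s, ∫⁻ ω, W ω * ENNReal.ofReal (Real.exp (φ s ω)) ∂μ ∂P := by
        refine lintegral_lintegral_swap (Measurable.aemeasurable ?_)
        have h1 : Measurable fun p : Ω × S => φ p.2 p.1 :=
          hφ.comp (measurable_snd.prodMk measurable_fst)
        have h2 : Measurable fun p : Ω × S => W p.1 := hW.comp measurable_fst
        exact h2.mul (by fun_prop)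
    _ ≤ ∫⁻ _ : S, A ∂P := lintegral_mono h
    _ = A := by simp

/-- one statistic, from linear to quadratic exponents -/
theorem one_quad (μ : Measure Ω) [SFinite μ] {κ v C : ℝ} (hκ : 0 ≤ κ) {W : Ω → ℝ≥0∞}
    (hW : Measurable W) {X : Ω → ℝ} (hX : Measurable X) {A : ℝ≥0∞}
    (h : ∀ c : ℝ, ∫⁻ ω, W ω * ENNReal.ofReal (Real.exp (c * X ω)) ∂μ ≤
      A * ENNReal.ofReal (Real.exp (v / 2 * c ^ 2 + C * |c|))) :
    ∫⁻ ω, W ω * ENNReal.ofReal (Real.exp (κ / 2 * X ω ^ 2)) ∂μ ≤ A * IST.GC κ v C := by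
  have h1 := IST.gauss_avg μ (κ := κ) (v := v) (C := C) hκ 1 W hW (fun _ => X) (fun _ => hX) A
    fun c => by simpa using h (c 0)
  simpa using h1

/-- **a small quadratic insertion** -/
theorem quad_small (P : Measure S) [IsProbabilityMeasure P] (μ : Measure Ω) [SFinite μ]
    {κ v C : ℝ} (hκ : 0 ≤ κ) {W : Ω → ℝ≥0∞} (hW : Measurable W) {X Y : S → Ω → ℝ}
    (hX : Measurable fun p : S × Ω => X p.1 p.2) (hY : Measurable fun p : S × Ω => Y p.1 p.2)
    (hXb : ∀ ω, ∃ B : ℝ, ∀ s, |X s ω| ≤ B) (hYb : ∀ ω, ∃ B : ℝ, ∀ s, |Y s ω| ≤ B)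
    {a : S → ℝ} (ha : ∀ s, |a s| ≤ κ) (ham : Measurable a) {A : ℝ≥0∞}
    (h1 : ∀ (s : S) (c : ℝ), ∫⁻ ω, W ω * ENNReal.ofReal (Real.exp (c * X s ω)) ∂μ ≤
      A * ENNReal.ofReal (Real.exp (v / 2 * c ^ 2 + C * |c|)))
    (h2 : ∀ (s : S) (c : ℝ), ∫⁻ ω, W ω * ENNReal.ofReal (Real.exp (c * Y s ω)) ∂μ ≤
      A * ENNReal.ofReal (Real.exp (v / 2 * c ^ 2 + C * |c|))) :
    ∫⁻ ω, W ω * ENNReal.ofReal (Real.exp (∫ s, a s * (X s ω * Y s ω) ∂P)) ∂μ ≤
      A * IST.GC (2 * κ) v C := by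
  have mX : ∀ s, Measurable (X s) := fun s => hX.comp (measurable_const.prodMk measurable_id)
  have mY : ∀ s, Measurable (Y s) := fun s => hY.comp (measurable_const.prodMk measurable_id)
  have mφ : Measurable fun p : S × Ω => a p.1 * (X p.1 p.2 * Y p.1 p.2) :=
    (ham.comp measurable_fst).mul (hX.mul hY)
  have bφ : ∀ ω, ∃ B : ℝ, ∀ s, |a s * (X s ω * Y s ω)| ≤ B := by
    intro ω
    obtain ⟨B1, hB1⟩ := hXb ω
    obtain ⟨B2, hB2⟩ := hYb ω
    refine ⟨κ * (|B1| * |B2|), fun s => ?_⟩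
    rw [abs_mul, abs_mul]
    have e1 : |X s ω| ≤ |B1| := (hB1 s).trans (le_abs_self _)
    have e2 : |Y s ω| ≤ |B2| := (hB2 s).trans (le_abs_self _)
    have e3 := ha s
    gcongr
  -- each mode
  refine jens P μ hW mφ bφ fun s => ?_
  have q1 := one_quad μ (κ := 2 * κ) (by positivity) hW (mX s) (h1 s)
  have q2 := one_quad μ (κ := 2 * κ) (by positivity) hW (mY s) (h2 s)
  have hpt : ∀ ω, W ω * ENNReal.ofReal (Real.exp (a s * (X s ω * Y s ω))) ≤
      ENNReal.ofReal (1 / 2) * (W ω * ENNReal.ofReal (Real.exp (2 * κ / 2 * X s ω ^ 2))) +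
      ENNReal.ofReal (1 / 2) * (W ω * ENNReal.ofReal (Real.exp (2 * κ / 2 * Y s ω ^ 2))) := by
    intro ω
    obtain ⟨x, hx⟩ : ∃ x, x = X s ω := ⟨_, rfl⟩
    obtain ⟨y, hy⟩ : ∃ y, y = Y s ω := ⟨_, rfl⟩
    rw [← hx, ← hy]
    have e0 : a s * (x * y) ≤ κ / 2 * (x ^ 2 + y ^ 2) := by
      have e1 : |a s * (x * y)| ≤ κ * |x * y| := by
        rw [abs_mul]
        exact mul_le_mul_of_nonneg_right (ha s) (abs_nonneg _)
      have e2 : |x * y| ≤ (x ^ 2 + y ^ 2) / 2 := by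
        rw [abs_mul]
        nlinarith [sq_nonneg (|x| - |y|), sq_abs x, sq_abs y]
      have e3 := le_abs_self (a s * (x * y))
      have e4 := mul_le_mul_of_nonneg_left e2 hκ
      linarith
    have e5 : Real.exp (a s * (x * y)) ≤
        1 / 2 * Real.exp (2 * κ / 2 * x ^ 2) + 1 / 2 * Real.exp (2 * κ / 2 * y ^ 2) := by
      have e6 : Real.exp (κ / 2 * (x ^ 2 + y ^ 2)) =
          Real.exp (κ / 2 * x ^ 2) * Real.exp (κ / 2 * y ^ 2) := by
        rw [← Real.exp_add]; ring_nf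
      have e7 : Real.exp (2 * κ / 2 * x ^ 2) = Real.exp (κ / 2 * x ^ 2) ^ 2 := by
        rw [← Real.exp_nat_mul]; ring_nf
      have e8 : Real.exp (2 * κ / 2 * y ^ 2) = Real.exp (κ / 2 * y ^ 2) ^ 2 := by
        rw [← Real.exp_nat_mul]; ring_nf
      have e9 := Real.exp_le_exp.2 e0
      rw [e6] at e9
      rw [e7, e8]
      nlinarith [sq_nonneg (Real.exp (κ / 2 * x ^ 2) - Real.exp (κ / 2 * y ^ 2))]
    calc W ω * ENNReal.ofReal (Real.exp (a s * (x * y)))
        ≤ W ω * ENNReal.ofReal (1 / 2 * Real.exp (2 * κ / 2 * x ^ 2) +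
          1 / 2 * Real.exp (2 * κ / 2 * y ^ 2)) := by gcongr
      _ = _ := by
          rw [ENNReal.ofReal_add (by positivity) (by positivity),
            ENNReal.ofReal_mul (by norm_num), ENNReal.ofReal_mul (by norm_num), mul_add]
          ring
  refine (lintegral_mono hpt).trans ?_
  have m1 : Measurable fun ω => ENNReal.ofReal (1 / 2) *
      (W ω * ENNReal.ofReal (Real.exp (2 * κ / 2 * X s ω ^ 2))) := by
    have := mX s
    fun_prop
  rw [lintegral_add_left m1, lintegral_const_mul' _ _ ENNReal.ofReal_ne_top,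
    lintegral_const_mul' _ _ ENNReal.ofReal_ne_top, ← mul_add]
  calc ENNReal.ofReal (1 / 2) * (∫⁻ ω, W ω * ENNReal.ofReal (Real.exp (2 * κ / 2 * X s ω ^ 2)) ∂μ +
        ∫⁻ ω, W ω * ENNReal.ofReal (Real.exp (2 * κ / 2 * Y s ω ^ 2)) ∂μ)
      ≤ ENNReal.ofReal (1 / 2) * (A * IST.GC (2 * κ) v C + A * IST.GC (2 * κ) v C) := by
        gcongr
    _ = A * IST.GC (2 * κ) v C := by
        rw [← two_mul, ← mul_assoc]
        have : ENNReal.ofReal (1 / 2) * 2 = 1 := by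
          rw [show (2 : ℝ≥0∞) = ENNReal.ofReal 2 by norm_num, ← ENNReal.ofReal_mul (by norm_num)]
          norm_num
        rw [this, one_mul]

end IST43
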