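import Pool.Agent.IST43.Dom

/-!
# Weights of the dual expansion, one row

At every height the character is dominated by a sinusoid: `h (θ) ≥ α cos θ + β sin θ`, `h = -log ‖tau‖`,
for `θ` between `-38` and `112` degrees, with explicit `α (κ)`, `β (κ)`, `κ = 1 / cosh u` (`row_dom`);
`h (θ) ≥ α₀ cos θ` for `|θ| ≤ 75` degrees (`row_ax`).
-/

set_option autoImplicit false

noncomputable section

open Real

namespace IST43

/-- `artanh (k a)` -/
def at1 (a k : ℝ) : ℝ := (Real.log (1 + k * a) - Real.log (1 - k * a)) / 2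

theorem at1_zero (a : ℝ) : at1 a 0 = 0 := by simp [at1]

theorem at1_pos {a k : ℝ} (ha : |a| ≤ 1) (hk0 : 0 ≤ k) (hk1 : k < 1) :
    0 < 1 + k * a ∧ 0 < 1 - k * a ∧ 0 < 1 - k ^ 2 * a ^ 2 := by
  obtain ⟨h1, h2⟩ := abs_le.1 ha
  have p1 : 0 < 1 + k * a := by nlinarith
  have p2 : 0 < 1 - k * a := by nlinarith
  refine ⟨p1, p2, ?_⟩
  have e : 1 - k ^ 2 * a ^ 2 = (1 + k * a) * (1 - k * a) := by ring
  rw [e]
  exact mul_pos p1 p2

theorem hasDerivAt_at1 {a k : ℝ} (ha : |a| ≤ 1) (hk0 : 0 ≤ k) (hk1 : k < 1) :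
    HasDerivAt (at1 a) (a / (1 - k ^ 2 * a ^ 2)) k := by
  obtain ⟨p1, p2, p3⟩ := at1_pos ha hk0 hk1
  have d1 : HasDerivAt (fun k : ℝ => 1 + k * a) a k := by
    simpa using ((hasDerivAt_id k).mul_const a).const_add 1
  have d2 : HasDerivAt (fun k : ℝ => 1 - k * a) (-a) k := by
    simpa using ((hasDerivAt_id k).mul_const a).const_sub 1
  have h := ((d1.log p1.ne').sub (d2.log p2.ne')).div_const 2
  refine h.congr_deriv ?_
  rw [div_sub_div _ _ p1.ne' p2.ne', div_div, div_eq_div_iff (by positivity) p3.ne']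
  ring

/-- the numerator and the denominator of `d/dk` -/
def nW (Y K : ℝ) : ℝ := Y * (1 - K * (Y ^ 2 - 1 / 4))

def dW (Y K : ℝ) : ℝ := 1 - K * (Y ^ 2 + 1 / 2) + K ^ 2 * (Y ^ 2 - 1 / 4) ^ 2

theorem two_halves {Y Z K x1 x2 : ℝ} (h1 : x1 = (√3 * Y - Z) / 2) (h2 : x2 = (√3 * Y + Z) / 2)
    (hYZ : Y ^ 2 + Z ^ 2 = 1) (p1 : 0 < 1 - K * x1 ^ 2) (p2 : 0 < 1 - K * x2 ^ 2) :
    x1 / (1 - K * x1 ^ 2) + x2 / (1 - K * x2 ^ 2) = √3 * nW Y K / dW Y K ∧
      dW Y K = (1 - K * x1 ^ 2) * (1 - K * x2 ^ 2) := by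
  have h3 : √3 ^ 2 = 3 := Real.sq_sqrt (by norm_num)
  have es : x1 + x2 = √3 * Y := by rw [h1, h2]; ring
  have ep : x1 * x2 = Y ^ 2 - 1 / 4 := by
    rw [h1, h2]
    have : (√3 * Y - Z) / 2 * ((√3 * Y + Z) / 2) = (√3 ^ 2 * Y ^ 2 - Z ^ 2) / 4 := by ring
    rw [this, h3]
    linarith
  have ed : dW Y K = (1 - K * x1 ^ 2) * (1 - K * x2 ^ 2) := by
    have e2 : x1 ^ 2 + x2 ^ 2 = Y ^ 2 + 1 / 2 := by
      have : x1 ^ 2 + x2 ^ 2 = (x1 + x2) ^ 2 - 2 * (x1 * x2) := by ring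
      rw [this, es, ep, mul_pow, h3]
      ring
    have : (1 - K * x1 ^ 2) * (1 - K * x2 ^ 2) = 1 - K * (x1 ^ 2 + x2 ^ 2) + K ^ 2 * (x1 * x2) ^ 2 := by
      ring
    rw [this, e2, ep]
    rfl
  refine ⟨?_, ed⟩
  rw [ed, div_add_div _ _ p1.ne' p2.ne']
  congr 1
  unfold nW
  have : x1 * (1 - K * x2 ^ 2) + (1 - K * x1 ^ 2) * x2 = (x1 + x2) * (1 - K * (x1 * x2)) := by ring
  rw [this, es, ep]
  ring

theorem dW_ge {Y K : ℝ} (hK1 : K ≤ 1) (hYY : Y ^ 2 ≤ 1) : (3 / 4 - Y ^ 2) ^ 2 ≤ dW Y K := by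
  have e : dW Y K - (3 / 4 - Y ^ 2) ^ 2 =
      (1 - K) * (Y ^ 2 + 1 / 2 - (1 + K) * (Y ^ 2 - 1 / 4) ^ 2) := by
    unfold dW
    ring
  have h1 : (Y ^ 2 - 1 / 4) ^ 2 ≤ 9 / 16 := by nlinarith [sq_nonneg Y]
  have h2 : (1 + K) * (Y ^ 2 - 1 / 4) ^ 2 ≤ Y ^ 2 + 1 / 2 := by
    have h3 : (1 + K) * (Y ^ 2 - 1 / 4) ^ 2 ≤ 2 * (Y ^ 2 - 1 / 4) ^ 2 := by
      apply mul_le_mul_of_nonneg_right (by linarith) (sq_nonneg _)
    nlinarith [sq_nonneg Y]
  have : 0 ≤ (1 - K) * (Y ^ 2 + 1 / 2 - (1 + K) * (Y ^ 2 - 1 / 4) ^ 2) :=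
    mul_nonneg (by linarith) (by linarith)
  linarith

/-- **the certificate of the axis** -/
theorem cert_ax {Y K : ℝ} (hY1 : Y ≤ 1) (hY : 1 / 4 ≤ Y) (hK1 : K ≤ 1) (hd : 0 < dW Y K) :
    0 ≤ Y * (1 - Y ^ 2) * (Y ^ 2 - 1 / 4) + dW Y K * (2 / 5 * Y) := by
  have hYY : Y ^ 2 ≤ 1 := by nlinarith
  rcases lt_or_ge (1 / 2) Y with hYh | hYh
  · have h1 : 0 ≤ Y * (1 - Y ^ 2) * (Y ^ 2 - 1 / 4) := by
      have : 0 ≤ Y ^ 2 - 1 / 4 := by nlinarith
      have : 0 ≤ 1 - Y ^ 2 := by linarith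
      positivity
    have h2 : 0 ≤ dW Y K * (2 / 5 * Y) := mul_nonneg hd.le (by positivity)
    linarith
  · have d1 := dW_ge hK1 hYY
    have hY2 : Y ^ 2 ≤ 1 / 4 := by nlinarith
    have hY3 : 1 / 16 ≤ Y ^ 2 := by nlinarith
    have k1 : (1 - Y ^ 2) * (1 / 4 - Y ^ 2) ≤ 2 / 5 * (3 / 4 - Y ^ 2) ^ 2 := by nlinarith
    have k2 : (1 - Y ^ 2) * (1 / 4 - Y ^ 2) ≤ 2 / 5 * dW Y K := by linarith
    have := mul_le_mul_of_nonneg_left k2 (by linarith : (0 : ℝ) ≤ Y)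
    linarith

/-- **the certificate**: `Y = cos θ`, `S = sin θ`, `θ` between `-38` and `112` degrees -/
theorem cert_row {Y S K : ℝ} (hYS : Y ^ 2 + S ^ 2 = 1) (hK0 : 0 ≤ K) (hK1 : K ≤ 1)
    (hS : -(62 / 100) ≤ S) (hY : -(38 / 100) ≤ Y) (hneg : S < 0 → 0 ≤ Y)
    (hd : 0 < dW Y K) :
    0 ≤ Y * (1 - Y ^ 2) * (Y ^ 2 - 1 / 4) + dW Y K * (21 / 5000 * Y + 27 / 250 * S) := by
  have hY1 : Y ≤ 1 := by nlinarith [sq_nonneg S]
  have hS1 : S ≤ 1 := by nlinarith [sq_nonneg Y]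
  have hYY : Y ^ 2 ≤ 1 := by nlinarith [sq_nonneg S]
  -- the two bounds for the denominator
  have d1 : (3 / 4 - Y ^ 2) ^ 2 ≤ dW Y K := dW_ge hK1 hYY
  have d2 : dW Y K ≤ 1 := by
    have h1 : (Y ^ 2 - 1 / 4) ^ 2 ≤ Y ^ 2 + 1 / 2 := by nlinarith [sq_nonneg Y]
    have h2 : K ^ 2 * (Y ^ 2 - 1 / 4) ^ 2 ≤ K * (Y ^ 2 + 1 / 2) := by
      have : K ^ 2 ≤ K := by nlinarith
      calc K ^ 2 * (Y ^ 2 - 1 / 4) ^ 2 ≤ K * (Y ^ 2 - 1 / 4) ^ 2 :=
            mul_le_mul_of_nonneg_right this (sq_nonneg _)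
        _ ≤ K * (Y ^ 2 + 1 / 2) := mul_le_mul_of_nonneg_left h1 hK0
    unfold dW
    linarith
  rcases lt_or_ge S 0 with hS0 | hS0
  · -- between `-38` degrees and `0`
    have hY0 := hneg hS0
    have hYe : Y ^ 2 = 1 - S ^ 2 := by linarith
    have hS2 : S ^ 2 ≤ 3844 / 10000 := by nlinarith
    have hYl : 1 - 57 / 100 * S ^ 2 ≤ Y := by
      apply le_of_sq_le_sq _ hY0
      rw [hYe]
      nlinarith [sq_nonneg S]
    have hq : 0 ≤ Y * (1 - Y ^ 2) * (Y ^ 2 - 1 / 4) + (21 / 5000 * Y + 27 / 250 * S) := by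
      have e : Y * (1 - Y ^ 2) * (Y ^ 2 - 1 / 4) + (21 / 5000 * Y + 27 / 250 * S) =
          Y * (21 / 5000 + 3 / 4 * S ^ 2 - S ^ 4) + 27 / 250 * S := by
        rw [hYe]
        ring
      rw [e]
      have h4 : S ^ 4 ≤ 3844 / 10000 * S ^ 2 := by nlinarith [sq_nonneg S]
      have hp : 0 ≤ 21 / 5000 + 3 / 4 * S ^ 2 - S ^ 4 := by nlinarith [sq_nonneg S]
      have h5 : (1 - 57 / 100 * S ^ 2) * (21 / 5000 + 3 / 4 * S ^ 2 - S ^ 4) ≤
          Y * (21 / 5000 + 3 / 4 * S ^ 2 - S ^ 4) := mul_le_mul_of_nonneg_right hYl hp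
      have h6 : 0 ≤ (1 - 57 / 100 * S ^ 2) * (21 / 5000 + 3 / 4 * S ^ 2 - S ^ 4) + 27 / 250 * S := by
        rcases le_or_gt (-(2 / 5)) S with hc | hc
        · have h6' : S ^ 2 ≤ 16 / 100 := by nlinarith
          have h7 : S ^ 4 ≤ 16 / 100 * S ^ 2 := by nlinarith [sq_nonneg S]
          nlinarith [sq_nonneg (S + 73 / 1000), mul_nonneg (sq_nonneg S) (sq_nonneg (S ^ 2)),
            sq_nonneg (S * (S + 73 / 1000)), sq_nonneg (S ^ 2)]
        · have h8 : 16 / 100 ≤ S ^ 2 := by nlinarith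
          have h9 : 0 ≤ (S ^ 2 - 16 / 100) * (3844 / 10000 - S ^ 2) :=
            mul_nonneg (by linarith) (by linarith)
          have h10 : 1 / 16 ≤ 21 / 5000 + 3 / 4 * S ^ 2 - S ^ 4 := by nlinarith
          nlinarith
      linarith
    have h1 : 0 ≤ Y * (1 - Y ^ 2) * (Y ^ 2 - 1 / 4) := by
      have : 0 ≤ Y ^ 2 - 1 / 4 := by linarith
      have : 0 ≤ 1 - Y ^ 2 := by linarith
      positivity
    rcases lt_or_ge (21 / 5000 * Y + 27 / 250 * S) 0 with hn | hn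
    · have : (21 / 5000 * Y + 27 / 250 * S) ≤ dW Y K * (21 / 5000 * Y + 27 / 250 * S) := by
        nlinarith
      linarith
    · have : 0 ≤ dW Y K * (21 / 5000 * Y + 27 / 250 * S) := mul_nonneg hd.le hn
      linarith
  · rcases lt_or_ge Y 0 with hY0 | hY0
    · -- beyond `90` degrees
      have hSl : 9 / 10 ≤ S := by
        have : S ^ 2 = 1 - Y ^ 2 := by linarith
        have h2 : Y ^ 2 ≤ (38 / 100) ^ 2 := by nlinarith
        apply le_of_sq_le_sq _ hS0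
        rw [this]
        linarith
      have h1 : 0 ≤ Y * (1 - Y ^ 2) * (Y ^ 2 - 1 / 4) := by
        have h2 : Y ^ 2 ≤ (38 / 100) ^ 2 := by nlinarith
        have h3 : 0 ≤ (-Y) * (1 - Y ^ 2) * (1 / 4 - Y ^ 2) :=
          mul_nonneg (mul_nonneg (by linarith) (by linarith)) (by linarith)
        linarith
      have h2 : 0 ≤ dW Y K * (21 / 5000 * Y + 27 / 250 * S) := mul_nonneg hd.le (by linarith)
      linarith
    · rcases lt_or_ge (1 / 2) Y with hYh | hYh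
      · have h1 : 0 ≤ Y * (1 - Y ^ 2) * (Y ^ 2 - 1 / 4) := by
          have : 0 ≤ Y ^ 2 - 1 / 4 := by nlinarith
          have : 0 ≤ 1 - Y ^ 2 := by linarith
          positivity
        have h2 : 0 ≤ dW Y K * (21 / 5000 * Y + 27 / 250 * S) :=
          mul_nonneg hd.le (by positivity)
        linarith
      · -- between `60` and `90` degrees
        have hYe : 1 - Y ^ 2 = S ^ 2 := by linarith
        have hSu : S ≤ 1 - Y ^ 2 / 2 := by
          apply le_of_sq_le_sq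
          · nlinarith [sq_nonneg (Y ^ 2)]
          · nlinarith
        have hY2 : Y ^ 2 ≤ 1 / 4 := by nlinarith
        have k1 : Y * (1 - Y ^ 2 / 2) * (1 / 4 - Y ^ 2) ≤ 27 / 250 * (3 / 4 - Y ^ 2) ^ 2 := by
          nlinarith [mul_nonneg hY0 (sq_nonneg (Y - 33 / 100)), sq_nonneg (Y - 33 / 100),
            mul_nonneg (mul_nonneg hY0 hY0) (sq_nonneg (Y - 33 / 100)),
            mul_nonneg (mul_nonneg (mul_nonneg hY0 hY0) hY0) (sq_nonneg (Y - 33 / 100))]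
        have k2 : Y * S * (1 / 4 - Y ^ 2) ≤ 27 / 250 * (3 / 4 - Y ^ 2) ^ 2 := by
          refine le_trans ?_ k1
          exact mul_le_mul_of_nonneg_right (mul_le_mul_of_nonneg_left hSu hY0) (by linarith)
        have k3 : Y * (1 - Y ^ 2) * (1 / 4 - Y ^ 2) ≤ dW Y K * (27 / 250 * S) := by
          rw [hYe]
          calc Y * S ^ 2 * (1 / 4 - Y ^ 2) = S * (Y * S * (1 / 4 - Y ^ 2)) := by ring
            _ ≤ S * (27 / 250 * (3 / 4 - Y ^ 2) ^ 2) := mul_le_mul_of_nonneg_left k2 hS0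
            _ = (3 / 4 - Y ^ 2) ^ 2 * (27 / 250 * S) := by ring
            _ ≤ dW Y K * (27 / 250 * S) := mul_le_mul_of_nonneg_right d1 (by positivity)
        have k4 : 0 ≤ dW Y K * (21 / 5000 * Y) := mul_nonneg hd.le (by positivity)
        linarith

/-- the correction of the sinusoid -/
def JW (k : ℝ) : ℝ := 32 / 9 * at1 (√3 / 2) k - √3 * (4 / 9 * k ^ 3 + 16 / 9 * k)

/-- the coefficients of the sinusoid -/
def alW (k : ℝ) : ℝ := 2 * at1 (√3 / 2) k - 21 / 5000 * JW k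

def beW (k : ℝ) : ℝ := -(27 / 250) * JW k

theorem s3_lt : √3 < 1.8 := by
  rw [Real.sqrt_lt' (by norm_num)]
  norm_num

theorem abs_s3 : |√3 / 2| ≤ 1 := by
  rw [abs_of_nonneg (by positivity)]
  have := s3_lt
  linarith

theorem JW_zero : JW 0 = 0 := by simp [JW, at1_zero]

theorem alW_zero : alW 0 = 0 := by simp [alW, JW_zero, at1_zero]

theorem beW_zero : beW 0 = 0 := by simp [beW, JW_zero]

theorem hasDerivAt_at3 {k : ℝ} (hk0 : 0 ≤ k) (hk1 : k < 1) :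
    HasDerivAt (at1 (√3 / 2)) (√3 / 2 / (1 - 3 / 4 * k ^ 2)) k := by
  refine (hasDerivAt_at1 abs_s3 hk0 hk1).congr_deriv ?_
  have h3 : √3 ^ 2 = 3 := Real.sq_sqrt (by norm_num)
  rw [div_pow, h3]
  congr 1
  ring

theorem hasDerivAt_JW {k : ℝ} (hk0 : 0 ≤ k) (hk1 : k < 1) :
    HasDerivAt JW (√3 * k ^ 4 / (1 - 3 / 4 * k ^ 2)) k := by
  have hp : 0 < 1 - 3 / 4 * k ^ 2 := by nlinarith
  have d1 := (hasDerivAt_at3 hk0 hk1).const_mul (32 / 9)
  have d2 : HasDerivAt (fun k : ℝ => √3 * (4 / 9 * k ^ 3 + 16 / 9 * k))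
      (√3 * (4 / 9 * (3 * k ^ 2) + 16 / 9)) k := by
    have h1 : HasDerivAt (fun k : ℝ => k ^ 3) (3 * k ^ 2) k := by
      simpa using hasDerivAt_pow 3 k
    have h2 : HasDerivAt (fun k : ℝ => 16 / 9 * k) (16 / 9) k := by
      simpa using (hasDerivAt_id k).const_mul (16 / 9 : ℝ)
    exact ((h1.const_mul (4 / 9)).add h2).const_mul √3
  refine (d1.sub d2).congr_deriv ?_
  obtain ⟨q, hq⟩ : ∃ q, q = 1 - 3 / 4 * k ^ 2 := ⟨_, rfl⟩
  rw [← hq] at hp ⊢
  have hk : k ^ 2 = 4 / 3 * (1 - q) := by rw [hq]; ring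
  rw [show k ^ 4 = (k ^ 2) ^ 2 by ring, hk]
  field_simp
  ring

theorem hasDerivAt_alW {k : ℝ} (hk0 : 0 ≤ k) (hk1 : k < 1) :
    HasDerivAt alW (√3 * (1 - 21 / 5000 * k ^ 4) / (1 - 3 / 4 * k ^ 2)) k := by
  have hp : 0 < 1 - 3 / 4 * k ^ 2 := by nlinarith
  refine (((hasDerivAt_at3 hk0 hk1).const_mul 2).sub
    ((hasDerivAt_JW hk0 hk1).const_mul (21 / 5000))).congr_deriv ?_
  obtain ⟨q, hq⟩ : ∃ q, q = 1 - 3 / 4 * k ^ 2 := ⟨_, rfl⟩
  rw [← hq] at hp ⊢
  field_simp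

theorem hasDerivAt_beW {k : ℝ} (hk0 : 0 ≤ k) (hk1 : k < 1) :
    HasDerivAt beW (-(27 / 250) * (√3 * k ^ 4 / (1 - 3 / 4 * k ^ 2))) k :=
  (hasDerivAt_JW hk0 hk1).const_mul _

/-- **one row, in the variable `k = 1 / cosh u`**, with a certificate -/
theorem row_gen {θ k d b : ℝ} (hk0 : 0 ≤ k) (hk1 : k < 1)
    (cert : ∀ K : ℝ, 0 ≤ K → K ≤ 1 → 0 < dW (Real.cos θ) K →
      0 ≤ Real.cos θ * (1 - Real.cos θ ^ 2) * (Real.cos θ ^ 2 - 1 / 4) +
        dW (Real.cos θ) K * (d * Real.cos θ + b * Real.sin θ)) :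
    Real.cos θ * (2 * at1 (√3 / 2) k - d * JW k) + Real.sin θ * (-b * JW k) ≤
      at1 (Real.cos (θ + π / 6)) k + at1 (Real.cos (θ - π / 6)) k := by
  have h3p : 0 < √3 := by positivity
  have ha1 : |Real.cos (θ + π / 6)| ≤ 1 := Real.abs_cos_le_one _
  have ha2 : |Real.cos (θ - π / 6)| ≤ 1 := Real.abs_cos_le_one _
  have ex1 : Real.cos (θ + π / 6) = (√3 * Real.cos θ - Real.sin θ) / 2 := by
    rw [Real.cos_add, Real.cos_pi_div_six, Real.sin_pi_div_six]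
    ring
  have ex2 : Real.cos (θ - π / 6) = (√3 * Real.cos θ + Real.sin θ) / 2 := by
    rw [Real.cos_sub, Real.cos_pi_div_six, Real.sin_pi_div_six]
    ring
  have hYS : Real.cos θ ^ 2 + Real.sin θ ^ 2 = 1 := Real.cos_sq_add_sin_sq _
  set Y := Real.cos θ
  set S := Real.sin θ
  set x1 := Real.cos (θ + π / 6)
  set x2 := Real.cos (θ - π / 6)
  let F : ℝ → ℝ := fun k => at1 x1 k + at1 x2 k -
    (Y * (2 * at1 (√3 / 2) k - d * JW k) + S * (-b * JW k))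
  have hF : ∀ k : ℝ, 0 ≤ k → k < 1 → ∃ F' : ℝ, 0 ≤ F' ∧ HasDerivAt F F' k := by
    intro k hk0 hk1
    have d' := ((hasDerivAt_at1 ha1 hk0 hk1).add (hasDerivAt_at1 ha2 hk0 hk1)).sub
      (((((hasDerivAt_at3 hk0 hk1).const_mul 2).sub ((hasDerivAt_JW hk0 hk1).const_mul d)).const_mul Y).add
        (((hasDerivAt_JW hk0 hk1).const_mul (-b)).const_mul S))
    refine ⟨_, ?_, d'⟩
    have p1 := (at1_pos ha1 hk0 hk1).2.2
    have p2 := (at1_pos ha2 hk0 hk1).2.2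
    have r1 := two_halves (K := k ^ 2) ex1 ex2 hYS p1 p2
    rw [r1.1]
    have hK0 : 0 ≤ k ^ 2 := by positivity
    have hK1 : k ^ 2 ≤ 1 := by nlinarith
    have q1 : 0 < dW Y (k ^ 2) := by rw [r1.2]; positivity
    have q2 : 0 < 1 - 3 / 4 * k ^ 2 := by linarith
    have c := cert (k ^ 2) hK0 hK1 q1
    have e : √3 * nW Y (k ^ 2) / dW Y (k ^ 2) -
        (Y * (2 * (√3 / 2 / (1 - 3 / 4 * k ^ 2)) - d * (√3 * k ^ 4 / (1 - 3 / 4 * k ^ 2))) +
          S * (-b * (√3 * k ^ 4 / (1 - 3 / 4 * k ^ 2)))) =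
        √3 * k ^ 4 * (Y * (1 - Y ^ 2) * (Y ^ 2 - 1 / 4) + dW Y (k ^ 2) * (d * Y + b * S)) /
          (dW Y (k ^ 2) * (1 - 3 / 4 * k ^ 2)) := by
      rw [eq_div_iff (by positivity), sub_mul]
      have e1 : √3 * nW Y (k ^ 2) / dW Y (k ^ 2) * (dW Y (k ^ 2) * (1 - 3 / 4 * k ^ 2)) =
          √3 * nW Y (k ^ 2) * (1 - 3 / 4 * k ^ 2) := by
        field_simp
      have e2 : (Y * (2 * (√3 / 2 / (1 - 3 / 4 * k ^ 2)) - d * (√3 * k ^ 4 / (1 - 3 / 4 * k ^ 2))) +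
          S * (-b * (√3 * k ^ 4 / (1 - 3 / 4 * k ^ 2)))) * (dW Y (k ^ 2) * (1 - 3 / 4 * k ^ 2)) =
          √3 * dW Y (k ^ 2) * (Y * (1 - d * k ^ 4) - S * (b * k ^ 4)) := by
        obtain ⟨q, hq⟩ : ∃ q, q = 1 - 3 / 4 * k ^ 2 := ⟨_, rfl⟩
        rw [← hq] at q2 ⊢
        field_simp
        ring
      rw [e1, e2]
      unfold nW dW
      ring
    rw [e]
    positivity
  have hmono : F 0 ≤ F k := by
    have hm : MonotoneOn F (Set.Icc 0 k) := by
      apply monotoneOn_of_deriv_nonneg (convex_Icc 0 k)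
      · intro x hx
        obtain ⟨F', _, h⟩ := hF x hx.1 (lt_of_le_of_lt hx.2 hk1)
        exact h.continuousAt.continuousWithinAt
      · intro x hx
        rw [interior_Icc] at hx
        obtain ⟨F', _, h⟩ := hF x hx.1.le (hx.2.trans hk1)
        exact h.differentiableAt.differentiableWithinAt
      · intro x hx
        rw [interior_Icc] at hx
        obtain ⟨F', h0, h⟩ := hF x hx.1.le (hx.2.trans hk1)
        rw [h.deriv]
        exact h0
    exact hm ⟨le_refl 0, hk0⟩ ⟨hk0, le_refl k⟩ hk0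
  have h0 : F 0 = 0 := by
    simp [F, at1_zero, JW_zero]
  rw [h0] at hmono
  simp only [F] at hmono
  linarith

/-- the angle is in the range of the certificate -/
def InR (θ : ℝ) : Prop :=
  -(62 / 100) ≤ Real.sin θ ∧ -(38 / 100) ≤ Real.cos θ ∧ (Real.sin θ < 0 → 0 ≤ Real.cos θ)

theorem row_core {θ k : ℝ} (hR : InR θ) (hk0 : 0 ≤ k) (hk1 : k < 1) :
    Real.cos θ * alW k + Real.sin θ * beW k ≤
      at1 (Real.cos (θ + π / 6)) k + at1 (Real.cos (θ - π / 6)) k := by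
  obtain ⟨hS, hY, hneg⟩ := hR
  exact row_gen hk0 hk1 fun K hK0 hK1 hd =>
    cert_row (Real.cos_sq_add_sin_sq _) hK0 hK1 hS hY hneg hd

/-- the coefficient of the axis -/
def a0W (k : ℝ) : ℝ := 2 * at1 (√3 / 2) k - 2 / 5 * JW k

theorem row_core_ax {θ k : ℝ} (hY : 1 / 4 ≤ Real.cos θ) (hk0 : 0 ≤ k) (hk1 : k < 1) :
    Real.cos θ * a0W k ≤ at1 (Real.cos (θ + π / 6)) k + at1 (Real.cos (θ - π / 6)) k := by
  have h := row_gen (θ := θ) (d := 2 / 5) (b := 0) hk0 hk1 fun K _ hK1 hd => by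
    have := cert_ax (Real.cos_le_one θ) hY hK1 hd
    rw [zero_mul, add_zero]
    exact this
  unfold a0W
  linarith

/-- the square of the modulus of the character -/
theorem normSq_tau {u θ : ℝ} (h1 : 0 < Real.cosh u + Real.cos (θ + π / 6))
    (h2 : 0 < Real.cosh u + Real.cos (θ - π / 6)) :
    ‖tau ((u : ℂ) + (θ : ℂ) * Complex.I)‖ ^ 2 =
      ((Real.cosh u - Real.cos (θ - π / 6)) * (Real.cosh u - Real.cos (θ + π / 6))) /
        ((Real.cosh u + Real.cos (θ - π / 6)) * (Real.cosh u + Real.cos (θ + π / 6))) := by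
  set C := Real.cosh u with hCd
  set c := Real.cos θ with hcd
  set A := Real.cos (θ - π / 6) with hAd
  set B := Real.cos (θ + π / 6) with hBd
  have h3 : √3 ^ 2 = 3 := Real.sq_sqrt (by norm_num)
  have hAe : A = c * (√3 / 2) + Real.sin θ * (1 / 2) := by
    rw [hAd, Real.cos_sub, Real.cos_pi_div_six, Real.sin_pi_div_six]
  have hBe : B = c * (√3 / 2) - Real.sin θ * (1 / 2) := by
    rw [hBd, Real.cos_add, Real.cos_pi_div_six, Real.sin_pi_div_six]
  have hS : A + B = √3 * c := by rw [hAe, hBe]; ring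
  have hP : A * B = c ^ 2 - 1 / 4 := by
    rw [hAe, hBe]
    have h2 : Real.sin θ ^ 2 = 1 - c ^ 2 := by
      have := Real.sin_sq_add_cos_sq θ
      rw [← hcd] at this
      linarith
    have : (c * (√3 / 2) + Real.sin θ * (1 / 2)) * (c * (√3 / 2) - Real.sin θ * (1 / 2)) =
        c ^ 2 * (√3 ^ 2 / 4) - Real.sin θ ^ 2 / 4 := by ring
    rw [this, h3, h2]
    ring
  have nm : Complex.normSq (2 * Complex.cosh ((u : ℂ) + (θ : ℂ) * Complex.I) - (√3 : ℝ)) =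
      4 * ((C - A) * (C - B)) := by
    have := normSq_pm u θ (-√3) (by rw [neg_sq, h3])
    rw [show (2 * Complex.cosh ((u : ℂ) + (θ : ℂ) * Complex.I) - (√3 : ℝ)) =
      (2 * Complex.cosh ((u : ℂ) + (θ : ℂ) * Complex.I) + ((-√3 : ℝ) : ℂ)) by push_cast; ring, this]
    rw [← hCd, ← hcd]
    linear_combination (4 * C) * hS - 4 * hP
  have np : Complex.normSq (2 * Complex.cosh ((u : ℂ) + (θ : ℂ) * Complex.I) + (√3 : ℝ)) =
      4 * ((C + A) * (C + B)) := by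
    have := normSq_pm u θ (√3) h3
    rw [this, ← hCd, ← hcd]
    linear_combination (-4 * C) * hS - 4 * hP
  unfold tau
  rw [norm_div, div_pow, ← Complex.normSq_eq_norm_sq, ← Complex.normSq_eq_norm_sq, nm, np]
  field_simp

theorem at1_inv {a C : ℝ} (hC : 1 < C) (ha : |a| ≤ 1) :
    at1 a (1 / C) = (Real.log (C + a) - Real.log (C - a)) / 2 := by
  obtain ⟨h1, h2⟩ := abs_le.1 ha
  have hC0 : 0 < C := by linarith
  have p1 : 0 < C + a := by linarith
  have p2 : 0 < C - a := by linarith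
  unfold at1
  have e1 : 1 + 1 / C * a = (C + a) / C := by field_simp
  have e2 : 1 - 1 / C * a = (C - a) / C := by field_simp
  rw [e1, e2, Real.log_div p1.ne' hC0.ne', Real.log_div p2.ne' hC0.ne']
  ring

/-- the modulus away from `u = 0` -/
theorem norm_tau_eq {u θ : ℝ} (hu : 1 < Real.cosh u) :
    ‖tau ((u : ℂ) + (θ : ℂ) * Complex.I)‖ =
      Real.exp (-(at1 (Real.cos (θ + π / 6)) (1 / Real.cosh u) +
        at1 (Real.cos (θ - π / 6)) (1 / Real.cosh u))) := by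
  have b1 := abs_le.1 (Real.abs_cos_le_one (θ + π / 6))
  have b2 := abs_le.1 (Real.abs_cos_le_one (θ - π / 6))
  have p1 : 0 < Real.cosh u + Real.cos (θ + π / 6) := by linarith [b1.1]
  have p2 : 0 < Real.cosh u + Real.cos (θ - π / 6) := by linarith [b2.1]
  have m1 : 0 < Real.cosh u - Real.cos (θ + π / 6) := by linarith [b1.2]
  have m2 : 0 < Real.cosh u - Real.cos (θ - π / 6) := by linarith [b2.2]
  have h := normSq_tau p1 p2
  rw [at1_inv hu (Real.abs_cos_le_one _), at1_inv hu (Real.abs_cos_le_one _)]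
  have he : Real.exp (-((Real.log (Real.cosh u + Real.cos (θ + π / 6)) -
      Real.log (Real.cosh u - Real.cos (θ + π / 6))) / 2 +
      (Real.log (Real.cosh u + Real.cos (θ - π / 6)) -
      Real.log (Real.cosh u - Real.cos (θ - π / 6))) / 2)) ^ 2 =
      ((Real.cosh u - Real.cos (θ - π / 6)) * (Real.cosh u - Real.cos (θ + π / 6))) /
        ((Real.cosh u + Real.cos (θ - π / 6)) * (Real.cosh u + Real.cos (θ + π / 6))) := by
    rw [← Real.exp_nat_mul]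
    have : ((2 : ℕ) : ℝ) * -((Real.log (Real.cosh u + Real.cos (θ + π / 6)) -
      Real.log (Real.cosh u - Real.cos (θ + π / 6))) / 2 +
      (Real.log (Real.cosh u + Real.cos (θ - π / 6)) -
      Real.log (Real.cosh u - Real.cos (θ - π / 6))) / 2) =
      (Real.log (Real.cosh u - Real.cos (θ - π / 6)) + Real.log (Real.cosh u - Real.cos (θ + π / 6))) -
      (Real.log (Real.cosh u + Real.cos (θ - π / 6)) + Real.log (Real.cosh u + Real.cos (θ + π / 6))) := by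
      push_cast
      ring
    rw [this, ← Real.log_mul m2.ne' m1.ne', ← Real.log_mul p2.ne' p1.ne', Real.exp_sub,
      Real.exp_log (by positivity), Real.exp_log (by positivity)]
  rw [← he] at h
  exact (pow_left_inj₀ (norm_nonneg _) (Real.exp_pos _).le (by norm_num)).1 h

theorem continuous_at1 {a : ℝ} (ha : |a| < 1) {f : ℝ → ℝ} (hf : Continuous f) (h0 : ∀ x, 0 ≤ f x)
    (h1 : ∀ x, f x ≤ 1) : Continuous fun x => at1 a (f x) := by
  obtain ⟨b1, b2⟩ := abs_lt.1 ha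
  unfold at1
  refine (Continuous.sub ?_ ?_).div_const 2
  · refine Continuous.log (by fun_prop) fun x => ?_
    have := h0 x
    have := h1 x
    have : 0 < 1 + f x * a := by nlinarith
    exact this.ne'
  · refine Continuous.log (by fun_prop) fun x => ?_
    have := h0 x
    have := h1 x
    have : 0 < 1 - f x * a := by nlinarith
    exact this.ne'

theorem inv_cosh_mem (u : ℝ) : 0 < 1 / Real.cosh u ∧ 1 / Real.cosh u ≤ 1 := by
  have h := Real.one_le_cosh u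
  have h0 : 0 < Real.cosh u := by linarith
  exact ⟨by positivity, by rw [div_le_one h0]; exact h⟩

theorem abs_s3_lt : |√3 / 2| < 1 := by
  rw [abs_of_nonneg (by positivity)]
  have := s3_lt
  linarith

theorem continuous_invcosh : Continuous fun u : ℝ => 1 / Real.cosh u :=
  continuous_const.div Real.continuous_cosh fun u => (Real.cosh_pos u).ne'

theorem continuous_JW : Continuous fun u : ℝ => JW (1 / Real.cosh u) := by
  have h1 := continuous_at1 abs_s3_lt continuous_invcosh (fun u => (inv_cosh_mem u).1.le)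
    (fun u => (inv_cosh_mem u).2)
  have h2 := continuous_invcosh
  unfold JW
  exact (continuous_const.mul h1).sub (continuous_const.mul
    ((continuous_const.mul (h2.pow 3)).add (continuous_const.mul h2)))

theorem den_pos_of {θ : ℝ} (h1 : -1 < Real.cos (θ + π / 6)) (h2 : -1 < Real.cos (θ - π / 6)) (u : ℝ) :
    0 < Real.cosh u + Real.cos (θ + π / 6) ∧ 0 < Real.cosh u + Real.cos (θ - π / 6) := by
  have := Real.one_le_cosh u
  constructor <;> linarith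

/-- the denominator of the character -/
theorem tau_den_ne {u θ : ℝ} (h1 : 0 < Real.cosh u + Real.cos (θ + π / 6))
    (h2 : 0 < Real.cosh u + Real.cos (θ - π / 6)) :
    2 * Complex.cosh ((u : ℂ) + (θ : ℂ) * Complex.I) + ((√3 : ℝ) : ℂ) ≠ 0 := by
  intro h
  have h3 : √3 ^ 2 = 3 := Real.sq_sqrt (by norm_num)
  have hn := normSq_pm u θ (√3) h3
  rw [h, map_zero] at hn
  have e : Real.cosh u ^ 2 + √3 * Real.cosh u * Real.cos θ + (Real.cos θ ^ 2 - 1 / 4) =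
      (Real.cosh u + Real.cos (θ + π / 6)) * (Real.cosh u + Real.cos (θ - π / 6)) := by
    rw [Real.cos_add, Real.cos_sub, Real.cos_pi_div_six, Real.sin_pi_div_six]
    have h4 : Real.sin θ ^ 2 = 1 - Real.cos θ ^ 2 := by
      have := Real.sin_sq_add_cos_sq θ
      linarith
    linear_combination (-Real.cos θ ^ 2 / 4) * h3 + (1 / 4) * h4
  rw [e] at hn
  have := mul_pos h1 h2
  linarith

/-- extension to `u = 0` by continuity -/
theorem tau_dom_of {θ : ℝ} {g : ℝ → ℝ} (hg : Continuous g)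
    (h1 : -1 < Real.cos (θ + π / 6)) (h2 : -1 < Real.cos (θ - π / 6))
    (h : ∀ u : ℝ, 1 < Real.cosh u → ‖tau ((u : ℂ) + (θ : ℂ) * Complex.I)‖ ≤ g u) (u : ℝ) :
    ‖tau ((u : ℂ) + (θ : ℂ) * Complex.I)‖ ≤ g u := by
  have hc1 : Continuous fun u : ℝ => ‖tau ((u : ℂ) + (θ : ℂ) * Complex.I)‖ := by
    have hz : Continuous fun u : ℝ => Complex.cosh ((u : ℂ) + (θ : ℂ) * Complex.I) :=
      Complex.continuous_cosh.comp (by fun_prop)
    unfold tau
    refine (Continuous.div ((continuous_const.mul hz).sub continuous_const)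
      ((continuous_const.mul hz).add continuous_const) fun u => ?_).norm
    exact tau_den_ne (den_pos_of h1 h2 u).1 (den_pos_of h1 h2 u).2
  have hcl : IsClosed {u : ℝ | ‖tau ((u : ℂ) + (θ : ℂ) * Complex.I)‖ ≤ g u} := isClosed_le hc1 hg
  have hd : Dense ({0}ᶜ : Set ℝ) := dense_compl_singleton 0
  have hsub : ({0}ᶜ : Set ℝ) ⊆ {u : ℝ | ‖tau ((u : ℂ) + (θ : ℂ) * Complex.I)‖ ≤ g u} := by
    intro u hu
    exact h u (Real.one_lt_cosh.2 hu)
  have := hcl.closure_subset_iff.2 hsub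
  rw [hd.closure_eq] at this
  exact this (Set.mem_univ u)

theorem continuous_at3 : Continuous fun u : ℝ => at1 (√3 / 2) (1 / Real.cosh u) :=
  continuous_at1 abs_s3_lt continuous_invcosh (fun u => (inv_cosh_mem u).1.le)
    (fun u => (inv_cosh_mem u).2)

theorem continuous_alW : Continuous fun u : ℝ => alW (1 / Real.cosh u) := by
  unfold alW
  exact (continuous_const.mul continuous_at3).sub (continuous_const.mul continuous_JW)

theorem continuous_beW : Continuous fun u : ℝ => beW (1 / Real.cosh u) := by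
  unfold beW
  exact continuous_const.mul continuous_JW

theorem continuous_a0W : Continuous fun u : ℝ => a0W (1 / Real.cosh u) := by
  unfold a0W
  exact (continuous_const.mul continuous_at3).sub (continuous_const.mul continuous_JW)

/-- **one row, at every height** -/
theorem row_dom {u θ : ℝ} (hR : InR θ) :
    ‖tau ((u : ℂ) + (θ : ℂ) * Complex.I)‖ ≤
      Real.exp (-(Real.cos θ * alW (1 / Real.cosh u) + Real.sin θ * beW (1 / Real.cosh u))) := by
  have h3 := s3_lt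
  have h3p : 0 < √3 := by positivity
  have hS1 := Real.sin_le_one θ
  refine tau_dom_of (g := fun u => Real.exp (-(Real.cos θ * alW (1 / Real.cosh u) +
    Real.sin θ * beW (1 / Real.cosh u)))) ?_ ?_ ?_ ?_ u
  · exact Real.continuous_exp.comp ((continuous_const.mul continuous_alW).add
      (continuous_const.mul continuous_beW)).neg
  · obtain ⟨hS, hY, _⟩ := hR
    rw [Real.cos_add, Real.cos_pi_div_six, Real.sin_pi_div_six]
    nlinarith
  · obtain ⟨hS, hY, _⟩ := hR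
    rw [Real.cos_sub, Real.cos_pi_div_six, Real.sin_pi_div_six]
    nlinarith
  · intro u hu1
    rw [norm_tau_eq hu1]
    have hk1 : 1 / Real.cosh u < 1 := by
      rw [div_lt_one (by linarith)]
      exact hu1
    exact Real.exp_le_exp.2 (neg_le_neg (row_core hR (inv_cosh_mem u).1.le hk1))

/-- **one row on the axis, at every height** -/
theorem row_ax {u θ : ℝ} (hY : 1 / 4 ≤ Real.cos θ) :
    ‖tau ((u : ℂ) + (θ : ℂ) * Complex.I)‖ ≤ Real.exp (-(Real.cos θ * a0W (1 / Real.cosh u))) := by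
  have h3 := s3_lt
  have h3p : 0 < √3 := by positivity
  have hS1 := Real.sin_le_one θ
  have hS2 := Real.neg_one_le_sin θ
  refine tau_dom_of (g := fun u => Real.exp (-(Real.cos θ * a0W (1 / Real.cosh u)))) ?_ ?_ ?_ ?_ u
  · exact Real.continuous_exp.comp (continuous_const.mul continuous_a0W).neg
  · rw [Real.cos_add, Real.cos_pi_div_six, Real.sin_pi_div_six]
    nlinarith
  · rw [Real.cos_sub, Real.cos_pi_div_six, Real.sin_pi_div_six]
    nlinarith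
  · intro u hu1
    rw [norm_tau_eq hu1]
    have hk1 : 1 / Real.cosh u < 1 := by
      rw [div_lt_one (by linarith)]
      exact hu1
    exact Real.exp_le_exp.2 (neg_le_neg (row_core_ax hY (inv_cosh_mem u).1.le hk1))

/-! ## closed interval versions -/

theorem hasDerivAt_at3' {k : ℝ} (hk0 : 0 ≤ k) (hk1 : k ≤ 1) :
    HasDerivAt (at1 (√3 / 2)) (√3 / 2 / (1 - 3 / 4 * k ^ 2)) k := by
  have h3 : √3 ^ 2 = 3 := Real.sq_sqrt (by norm_num)
  have hl := s3_lt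
  have h3p : 0 < √3 := by positivity
  have p1 : 0 < 1 + k * (√3 / 2) := by positivity
  have p2 : 0 < 1 - k * (√3 / 2) := by nlinarith
  have p3 : 0 < 1 - 3 / 4 * k ^ 2 := by nlinarith
  have d1 : HasDerivAt (fun k : ℝ => 1 + k * (√3 / 2)) (√3 / 2) k := by
    simpa using ((hasDerivAt_id k).mul_const (√3 / 2)).const_add 1
  have d2 : HasDerivAt (fun k : ℝ => 1 - k * (√3 / 2)) (-(√3 / 2)) k := by
    simpa using ((hasDerivAt_id k).mul_const (√3 / 2)).const_sub 1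
  have h := ((d1.log p1.ne').sub (d2.log p2.ne')).div_const 2
  refine h.congr_deriv ?_
  rw [div_sub_div _ _ p1.ne' p2.ne', div_div, div_eq_div_iff (by positivity) p3.ne']
  linear_combination (k ^ 2 * √3 / 4) * h3

theorem hasDerivAt_JW' {k : ℝ} (hk0 : 0 ≤ k) (hk1 : k ≤ 1) :
    HasDerivAt JW (√3 * k ^ 4 / (1 - 3 / 4 * k ^ 2)) k := by
  have hp : 0 < 1 - 3 / 4 * k ^ 2 := by nlinarith
  have d1 := (hasDerivAt_at3' hk0 hk1).const_mul (32 / 9)
  have d2 : HasDerivAt (fun k : ℝ => √3 * (4 / 9 * k ^ 3 + 16 / 9 * k))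
      (√3 * (4 / 9 * (3 * k ^ 2) + 16 / 9)) k := by
    have h1 : HasDerivAt (fun k : ℝ => k ^ 3) (3 * k ^ 2) k := by
      simpa using hasDerivAt_pow 3 k
    have h2 : HasDerivAt (fun k : ℝ => 16 / 9 * k) (16 / 9) k := by
      simpa using (hasDerivAt_id k).const_mul (16 / 9 : ℝ)
    exact ((h1.const_mul (4 / 9)).add h2).const_mul √3
  refine (d1.sub d2).congr_deriv ?_
  obtain ⟨q, hq⟩ : ∃ q, q = 1 - 3 / 4 * k ^ 2 := ⟨_, rfl⟩
  rw [← hq] at hp ⊢
  have hk : k ^ 2 = 4 / 3 * (1 - q) := by rw [hq]; ring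
  rw [show k ^ 4 = (k ^ 2) ^ 2 by ring, hk]
  field_simp
  ring

/-- `2 at1 - d J - √3 k` is Lipschitz, of the third order -/
theorem lip_al {d : ℝ} (hd0 : 0 ≤ d) (hd1 : d ≤ 1 / 2) {k l M : ℝ} (hk0 : 0 ≤ k) (hkM : k ≤ M) (hl0 : 0 ≤ l)
    (hlM : l ≤ M) (hM : M ≤ 1) :
    |(2 * at1 (√3 / 2) l - d * JW l - √3 * l) - (2 * at1 (√3 / 2) k - d * JW k - √3 * k)| ≤
      6 * M ^ 2 * |l - k| := by
  have hs := s3_lt
  have h3p : 0 < √3 := by positivity
  have hD : ∀ x ∈ Set.Icc 0 M, HasDerivWithinAt (fun x => 2 * at1 (√3 / 2) x - d * JW x - √3 * x)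
      (2 * (√3 / 2 / (1 - 3 / 4 * x ^ 2)) - d * (√3 * x ^ 4 / (1 - 3 / 4 * x ^ 2)) - √3) (Set.Icc 0 M) x := by
    intro x hx
    have h1 : HasDerivAt (fun x : ℝ => √3 * x) √3 x := by
      simpa using (hasDerivAt_id x).const_mul √3
    exact ((((hasDerivAt_at3' hx.1 (hx.2.trans hM)).const_mul 2).sub
      ((hasDerivAt_JW' hx.1 (hx.2.trans hM)).const_mul d)).sub h1).hasDerivWithinAt
  have hB : ∀ x ∈ Set.Icc 0 M,
      ‖2 * (√3 / 2 / (1 - 3 / 4 * x ^ 2)) - d * (√3 * x ^ 4 / (1 - 3 / 4 * x ^ 2)) - √3‖ ≤ 6 * M ^ 2 := by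
    intro x hx
    have hx1 : x ≤ 1 := hx.2.trans hM
    have hx2 : x ^ 2 ≤ 1 := by nlinarith [hx.1]
    have hp : 1 / 4 ≤ 1 - 3 / 4 * x ^ 2 := by linarith
    have hxM : x ^ 2 ≤ M ^ 2 := pow_le_pow_left₀ hx.1 hx.2 2
    have e : 2 * (√3 / 2 / (1 - 3 / 4 * x ^ 2)) - d * (√3 * x ^ 4 / (1 - 3 / 4 * x ^ 2)) - √3 =
        √3 * x ^ 2 * (3 / 4 - d * x ^ 2) / (1 - 3 / 4 * x ^ 2) := by
      obtain ⟨q, hq⟩ : ∃ q, q = 1 - 3 / 4 * x ^ 2 := ⟨_, rfl⟩
      rw [← hq] at hp ⊢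
      have hq0 : q ≠ 0 := by linarith
      field_simp
      rw [hq]
      ring
    have hn : 0 ≤ 3 / 4 - d * x ^ 2 := by nlinarith
    have hn1 : 3 / 4 - d * x ^ 2 ≤ 3 / 4 := by nlinarith [sq_nonneg x]
    rw [e, Real.norm_of_nonneg (by positivity), div_le_iff₀ (by linarith)]
    have a1 : √3 * x ^ 2 * (3 / 4 - d * x ^ 2) ≤ √3 * x ^ 2 * (3 / 4) :=
      mul_le_mul_of_nonneg_left hn1 (by positivity)
    have a2 : √3 * x ^ 2 * (3 / 4) ≤ 3 / 2 * M ^ 2 := by nlinarith [sq_nonneg x]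
    have a3 : 3 / 2 * M ^ 2 ≤ 6 * M ^ 2 * (1 - 3 / 4 * x ^ 2) := by nlinarith [sq_nonneg M]
    linarith
  have h := (convex_Icc (0 : ℝ) M).norm_image_sub_le_of_norm_hasDerivWithin_le hD hB ⟨hk0, hkM⟩ ⟨hl0, hlM⟩
  simpa [Real.norm_eq_abs] using h

theorem lip_JW {k l M : ℝ} (hk0 : 0 ≤ k) (hkM : k ≤ M) (hl0 : 0 ≤ l)
    (hlM : l ≤ M) (hM : M ≤ 1) : |JW l - JW k| ≤ 8 * M ^ 2 * |l - k| := by
  have hs := s3_lt
  have h3p : 0 < √3 := by positivity
  have hD : ∀ x ∈ Set.Icc 0 M, HasDerivWithinAt JW (√3 * x ^ 4 / (1 - 3 / 4 * x ^ 2)) (Set.Icc 0 M) x := by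
    intro x hx
    exact (hasDerivAt_JW' hx.1 (hx.2.trans hM)).hasDerivWithinAt
  have hB : ∀ x ∈ Set.Icc 0 M, ‖√3 * x ^ 4 / (1 - 3 / 4 * x ^ 2)‖ ≤ 8 * M ^ 2 := by
    intro x hx
    have hx1 : x ≤ 1 := hx.2.trans hM
    have hx2 : x ^ 2 ≤ 1 := by nlinarith [hx.1]
    have hp : 1 / 4 ≤ 1 - 3 / 4 * x ^ 2 := by linarith
    have hxM : x ^ 2 ≤ M ^ 2 := pow_le_pow_left₀ hx.1 hx.2 2
    rw [Real.norm_of_nonneg (by positivity), div_le_iff₀ (by linarith)]
    have a1 : x ^ 4 ≤ x ^ 2 := by nlinarith [sq_nonneg x]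
    have a2 : √3 * x ^ 4 ≤ 2 * M ^ 2 := by nlinarith [sq_nonneg x]
    have a3 : 2 * M ^ 2 ≤ 8 * M ^ 2 * (1 - 3 / 4 * x ^ 2) := by nlinarith [sq_nonneg M]
    linarith
  have h := (convex_Icc (0 : ℝ) M).norm_image_sub_le_of_norm_hasDerivWithin_le hD hB ⟨hk0, hkM⟩ ⟨hl0, hlM⟩
  simpa [Real.norm_eq_abs] using h

/-- `J ≤ 7/5 k ^ 5` -/
theorem JW_le {k : ℝ} (h0 : 0 ≤ k) (h1 : k ≤ 1) : 0 ≤ JW k ∧ JW k ≤ 7 / 5 * k ^ 5 := by
  have hs : √3 ≤ 7 / 4 := by
    rw [Real.sqrt_le_left (by norm_num)]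
    norm_num
  have h3p : 0 < √3 := by positivity
  have hc : ContinuousOn JW (Set.Icc 0 1) := fun x hx =>
    (hasDerivAt_JW' hx.1 hx.2).continuousAt.continuousWithinAt
  constructor
  · have hm : MonotoneOn JW (Set.Icc 0 1) := by
      apply monotoneOn_of_deriv_nonneg (convex_Icc 0 1) hc
      · intro x hx
        rw [interior_Icc] at hx
        exact (hasDerivAt_JW' hx.1.le hx.2.le).differentiableAt.differentiableWithinAt
      · intro x hx
        rw [interior_Icc] at hx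
        rw [(hasDerivAt_JW' hx.1.le hx.2.le).deriv]
        have : 0 < 1 - 3 / 4 * x ^ 2 := by nlinarith [hx.1, hx.2]
        positivity
    have := hm ⟨le_refl 0, by norm_num⟩ ⟨h0, h1⟩ h0
    rw [JW_zero] at this
    exact this
  · have hm : MonotoneOn (fun x => 7 / 5 * x ^ 5 - JW x) (Set.Icc 0 1) := by
      have hd : ∀ x : ℝ, 0 ≤ x → x ≤ 1 → HasDerivAt (fun x => 7 / 5 * x ^ 5 - JW x)
          (7 / 5 * (5 * x ^ 4) - √3 * x ^ 4 / (1 - 3 / 4 * x ^ 2)) x := by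
        intro x a b
        have h5 : HasDerivAt (fun x : ℝ => x ^ 5) (5 * x ^ 4) x := by
          simpa using hasDerivAt_pow 5 x
        exact (h5.const_mul (7 / 5)).sub (hasDerivAt_JW' a b)
      apply monotoneOn_of_deriv_nonneg (convex_Icc 0 1)
      · exact fun x hx => (hd x hx.1 hx.2).continuousAt.continuousWithinAt
      · intro x hx
        rw [interior_Icc] at hx
        exact (hd x hx.1.le hx.2.le).differentiableAt.differentiableWithinAt
      · intro x hx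
        rw [interior_Icc] at hx
        rw [(hd x hx.1.le hx.2.le).deriv]
        have hx2 : x ^ 2 ≤ 1 := by nlinarith [hx.1, hx.2]
        have hp : 1 / 4 ≤ 1 - 3 / 4 * x ^ 2 := by linarith
        have : √3 * x ^ 4 / (1 - 3 / 4 * x ^ 2) ≤ 7 * x ^ 4 := by
          rw [div_le_iff₀ (by linarith)]
          have h4 : 0 ≤ x ^ 4 := by positivity
          nlinarith
        linarith
    have := hm ⟨le_refl 0, by norm_num⟩ ⟨h0, h1⟩ h0
    simp only [JW_zero] at this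
    linarith

end IST43

end
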