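import Pool.Agent.IST43.Wgt1

/-!
# Weights of the dual expansion, the one variable inequality

`V̂ (k) ≥ log ‖Ω‖ + k ^ 2 / 5` on the line `cos φ₁ = 4 / 5`, `Ω = b₀ / tau`,
`b₀ = (10 cosh 2z - 5) / (10 cosh 2z + 11)`, `k = 1 / cosh u`.
-/

set_option autoImplicit false

noncomputable section

open Real

namespace IST43

def pA (k : ℝ) : ℝ := 1 - 3 / 4 * k ^ 2

def pB' (k : ℝ) : ℝ := 1 + 17321 / 10000 * (4 / 5) * k + 39 / 100 * k ^ 2

def pB (k : ℝ) : ℝ := 1 + √3 * (4 / 5) * k + 39 / 100 * k ^ 2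

def pC (k : ℝ) : ℝ := 1 - 173 / 250 * k ^ 2 + 1681 / 10000 * k ^ 4

def pT (k : ℝ) : ℝ :=
  (57 / 50 * pB' k + 39 / 100 * (9 / 25) * k ^ 2 -
    17321 / 10000 * (213 / 3125) * k ^ 3 * pB' k) * pC k -
  (173 / 250 - 2 * (1681 / 10000) * k ^ 2) * pA k * pB' k

theorem cert1 {k : ℝ} (h0 : 0 ≤ k) (h1 : k ≤ 1) :
    2 / 5 * (pA k * pB' k * pC k) ≤ pT k := by
  have hp : 0 ≤ 1 - k := by linarith
  have e : pT k - 2 / 5 * (pA k * pB' k * pC k) =
      (6 / 125) * ((1 - k) ^ 9) +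
      (389463 / 781250) * (k ^ 1 * (1 - k) ^ 8) +
      (1196227 / 390625) * (k ^ 2 * (1 - k) ^ 7) +
      (959619727 / 78125000) * (k ^ 3 * (1 - k) ^ 6) +
      (12075410180267 / 390625000000) * (k ^ 4 * (1 - k) ^ 5) +
      (3767443368907 / 78125000000) * (k ^ 5 * (1 - k) ^ 4) +
      (4510201912436309 / 97656250000000) * (k ^ 6 * (1 - k) ^ 3) +
      (5128509888966229 / 195312500000000) * (k ^ 7 * (1 - k) ^ 2) +
      (31644783885885907 / 3906250000000000) * (k ^ 8 * (1 - k) ^ 1) +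
      (506978832596289 / 488281250000000) * (k ^ 9) := by
    unfold pT pA pB' pC
    ring
  have : 0 ≤ pT k - 2 / 5 * (pA k * pB' k * pC k) := by
    rw [e]
    positivity
  linarith

theorem pA_pos {k : ℝ} (h0 : 0 ≤ k) (h1 : k ≤ 1) : 0 < pA k := by
  unfold pA
  nlinarith

theorem pC_pos {k : ℝ} (h0 : 0 ≤ k) (h1 : k ≤ 1) : 0 < pC k := by
  unfold pC
  have : k ^ 2 ≤ 1 := by nlinarith
  have : 0 ≤ k ^ 4 := by positivity
  linarith

theorem pB_pos {k : ℝ} (h0 : 0 ≤ k) : 0 < pB k := by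
  unfold pB
  positivity

theorem pB'_pos {k : ℝ} (h0 : 0 ≤ k) : 0 < pB' k := by
  unfold pB'
  positivity

theorem s3_lt' : √3 ≤ 17321 / 10000 := by
  rw [Real.sqrt_le_left (by norm_num)]
  norm_num

theorem pB_le {k : ℝ} (h0 : 0 ≤ k) : pB k ≤ pB' k := by
  unfold pB pB'
  have := s3_lt'
  nlinarith

/-- the derivative of the difference, over `k` -/
theorem deriv_lower {k : ℝ} (h0 : 0 ≤ k) (h1 : k ≤ 1) :
    k * (pT k / (pA k * pB' k * pC k)) ≤
      √3 * (4 / 5 - 213 / 3125 * k ^ 4) / pA k -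
        (√3 * (4 / 5) + 2 * (39 / 100) * k) / pB k +
        (-(173 / 250) * k + 2 * (1681 / 10000) * k ^ 3) / pC k := by
  have a := pA_pos h0 h1
  have b := pB_pos h0
  have b' := pB'_pos h0
  have c := pC_pos h0 h1
  have hb := pB_le h0
  have h3 : √3 ^ 2 = 3 := Real.sq_sqrt (by norm_num)
  have hs := s3_lt'
  have e1 : √3 * (4 / 5 - 213 / 3125 * k ^ 4) / pA k -
        (√3 * (4 / 5) + 2 * (39 / 100) * k) / pB k +
        (-(173 / 250) * k + 2 * (1681 / 10000) * k ^ 3) / pC k =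
      k * ((57 / 50 + 39 / 100 * (9 / 25) * k ^ 2 / pB k -
        √3 * (213 / 3125) * k ^ 3) / pA k -
        (173 / 250 - 2 * (1681 / 10000) * k ^ 2) / pC k) := by
    have e2 : √3 * (4 / 5) * pB k - (√3 * (4 / 5) + 2 * (39 / 100) * k) * pA k =
        k * (57 / 50 * pB k + 39 / 100 * (9 / 25) * k ^ 2) := by
      unfold pB pA
      linear_combination (4 / 5) ^ 2 * k * h3
    have e3 : √3 * (4 / 5) / pA k - (√3 * (4 / 5) + 2 * (39 / 100) * k) / pB k =
        k * (57 / 50 + 39 / 100 * (9 / 25) * k ^ 2 / pB k) / pA k := by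
      rw [div_sub_div _ _ a.ne' b.ne', div_eq_div_iff (by positivity) a.ne']
      have e4 : 57 / 50 + 39 / 100 * (9 / 25) * k ^ 2 / pB k =
          (57 / 50 * pB k + 39 / 100 * (9 / 25) * k ^ 2) / pB k := by
        field_simp
      rw [e4]
      have e5 : k * ((57 / 50 * pB k + 39 / 100 * (9 / 25) * k ^ 2) / pB k) *
          (pA k * pB k) =
          k * (57 / 50 * pB k + 39 / 100 * (9 / 25) * k ^ 2) * pA k := by
        field_simp
      rw [e5, ← e2]
      ring
    have e6 : √3 * (4 / 5 - 213 / 3125 * k ^ 4) / pA k =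
        √3 * (4 / 5) / pA k - k * (√3 * (213 / 3125) * k ^ 3) / pA k := by
      ring
    rw [e6]
    have e7 : √3 * (4 / 5) / pA k - k * (√3 * (213 / 3125) * k ^ 3) / pA k -
        (√3 * (4 / 5) + 2 * (39 / 100) * k) / pB k =
        (√3 * (4 / 5) / pA k - (√3 * (4 / 5) + 2 * (39 / 100) * k) / pB k) -
          k * (√3 * (213 / 3125) * k ^ 3) / pA k := by ring
    rw [e7, e3]
    ring
  rw [e1]
  apply mul_le_mul_of_nonneg_left _ h0
  have e8 : pT k / (pA k * pB' k * pC k) =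
      (57 / 50 + 39 / 100 * (9 / 25) * k ^ 2 / pB' k -
        17321 / 10000 * (213 / 3125) * k ^ 3) / pA k -
        (173 / 250 - 2 * (1681 / 10000) * k ^ 2) / pC k := by
    unfold pT
    generalize pA k = x at a ⊢
    generalize pB' k = y at b' ⊢
    generalize pC k = z at c ⊢
    field_simp
  rw [e8]
  have m1 : 39 / 100 * (9 / 25) * k ^ 2 / pB' k ≤
      39 / 100 * (9 / 25) * k ^ 2 / pB k :=
    div_le_div_of_nonneg_left (by positivity) b hb
  have m2 : √3 * (213 / 3125) * k ^ 3 ≤ 17321 / 10000 * (213 / 3125) * k ^ 3 := by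
    have : 0 ≤ k ^ 3 := by positivity
    nlinarith
  have m3 := div_le_div_of_nonneg_right (c := pA k) (show
    57 / 50 + 39 / 100 * (9 / 25) * k ^ 2 / pB' k -
        17321 / 10000 * (213 / 3125) * k ^ 3 ≤
    57 / 50 + 39 / 100 * (9 / 25) * k ^ 2 / pB k -
        √3 * (213 / 3125) * k ^ 3 by linarith) a.le
  linarith

/-- the value of the sinusoid on the line -/
def VW (k : ℝ) : ℝ := 4 / 5 * alW k + 3 / 5 * beW k

/-- `log ‖Ω‖` on the line -/
def LW (k : ℝ) : ℝ := Real.log (pB k) - Real.log (pC k) / 2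

theorem hasDerivAt_VW {k : ℝ} (hk0 : 0 ≤ k) (hk1 : k < 1) :
    HasDerivAt VW (√3 * (4 / 5 - 213 / 3125 * k ^ 4) / pA k) k := by
  have hp := pA_pos hk0 hk1.le
  refine (((hasDerivAt_alW hk0 hk1).const_mul (4 / 5)).add
    ((hasDerivAt_beW hk0 hk1).const_mul (3 / 5))).congr_deriv ?_
  show _ = √3 * (4 / 5 - 213 / 3125 * k ^ 4) / pA k
  rw [show 1 - 3 / 4 * k ^ 2 = pA k from rfl]
  field_simp
  ring

theorem hasDerivAt_LW {k : ℝ} (hk0 : 0 ≤ k) (hk1 : k ≤ 1) :
    HasDerivAt LW ((√3 * (4 / 5) + 2 * (39 / 100) * k) / pB k -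
        (-(173 / 250) * k + 2 * (1681 / 10000) * k ^ 3) / pC k) k := by
  have d1 : HasDerivAt pB (√3 * (4 / 5) + 2 * (39 / 100) * k) k := by
    have h1 : HasDerivAt (fun k : ℝ => √3 * (4 / 5) * k) (√3 * (4 / 5)) k := by
      simpa using (hasDerivAt_id k).const_mul (√3 * (4 / 5) : ℝ)
    have h2 : HasDerivAt (fun k : ℝ => 39 / 100 * k ^ 2) (39 / 100 * (2 * k)) k := by
      simpa using (hasDerivAt_pow 2 k).const_mul (39 / 100 : ℝ)
    refine ((h1.const_add 1).add h2).congr_deriv ?_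
    ring
  have d2 : HasDerivAt pC (-(173 / 250) * (2 * k) + 1681 / 10000 * (4 * k ^ 3)) k := by
    have h1 : HasDerivAt (fun k : ℝ => 173 / 250 * k ^ 2) (173 / 250 * (2 * k)) k := by
      simpa using (hasDerivAt_pow 2 k).const_mul (173 / 250 : ℝ)
    have h2 : HasDerivAt (fun k : ℝ => 1681 / 10000 * k ^ 4)
        (1681 / 10000 * (4 * k ^ 3)) k := by
      simpa using (hasDerivAt_pow 4 k).const_mul (1681 / 10000 : ℝ)
    refine ((h1.const_sub 1).add h2).congr_deriv ?_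
    ring
  refine ((d1.log (pB_pos hk0).ne').sub ((d2.log (pC_pos hk0 hk1).ne').div_const 2)).congr_deriv ?_
  ring

theorem cont_at3 : ContinuousOn (at1 (√3 / 2)) (Set.Icc 0 1) := by
  have h := abs_s3_lt
  obtain ⟨b1, b2⟩ := abs_lt.1 h
  intro k hk
  unfold at1
  apply ContinuousAt.continuousWithinAt
  have p1 : 0 < 1 + k * (√3 / 2) := by nlinarith [hk.1, hk.2]
  have p2 : 0 < 1 - k * (√3 / 2) := by nlinarith [hk.1, hk.2]
  refine ContinuousAt.div_const (ContinuousAt.sub ?_ ?_) 2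
  · exact ContinuousAt.log (by fun_prop) p1.ne'
  · exact ContinuousAt.log (by fun_prop) p2.ne'

theorem cont_VW : ContinuousOn VW (Set.Icc 0 1) := by
  have h := cont_at3
  have hJ : ContinuousOn JW (Set.Icc 0 1) := by
    unfold JW
    exact (continuousOn_const.mul h).sub (by fun_prop)
  unfold VW alW beW
  exact (continuousOn_const.mul ((continuousOn_const.mul h).sub (continuousOn_const.mul hJ))).add
    (continuousOn_const.mul (continuousOn_const.mul hJ))

theorem cont_LW : ContinuousOn LW (Set.Icc 0 1) := fun _ hk =>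
  (hasDerivAt_LW hk.1 hk.2).continuousAt.continuousWithinAt

theorem VW_zero : VW 0 = 0 := by simp [VW, alW_zero, beW_zero]

theorem LW_zero : LW 0 = 0 := by simp [LW, pB, pC]

/-- **the one variable inequality** -/
theorem VW_ge {k : ℝ} (h0 : 0 ≤ k) (h1 : k ≤ 1) : LW k + k ^ 2 / 5 ≤ VW k := by
  have hm : MonotoneOn (fun k => VW k - LW k - 1 / 5 * k ^ 2) (Set.Icc 0 1) := by
    have hc : ContinuousOn (fun k => VW k - LW k - 1 / 5 * k ^ 2) (Set.Icc 0 1) :=
      (cont_VW.sub cont_LW).sub (by fun_prop)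
    have hd : ∀ k ∈ interior (Set.Icc (0 : ℝ) 1), HasDerivAt (fun k => VW k - LW k - 1 / 5 * k ^ 2)
        (√3 * (4 / 5 - 213 / 3125 * k ^ 4) / pA k -
        ((√3 * (4 / 5) + 2 * (39 / 100) * k) / pB k -
      (-(173 / 250) * k + 2 * (1681 / 10000) * k ^ 3) / pC k) -
        1 / 5 * (2 * k)) k := by
      intro k hk
      rw [interior_Icc] at hk
      have h2 : HasDerivAt (fun k : ℝ => 1 / 5 * k ^ 2) (1 / 5 * (2 * k)) k := by
        simpa using (hasDerivAt_pow 2 k).const_mul (1 / 5 : ℝ)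
      exact ((hasDerivAt_VW hk.1.le hk.2).sub (hasDerivAt_LW hk.1.le hk.2.le)).sub h2
    apply monotoneOn_of_deriv_nonneg (convex_Icc 0 1) hc
    · intro k hk
      exact (hd k hk).differentiableAt.differentiableWithinAt
    · intro k hk
      rw [(hd k hk).deriv]
      rw [interior_Icc] at hk
      have l := deriv_lower hk.1.le hk.2.le
      have c := cert1 hk.1.le hk.2.le
      have hpos : 0 < pA k * pB' k * pC k := mul_pos (mul_pos (pA_pos hk.1.le hk.2.le)
        (pB'_pos hk.1.le)) (pC_pos hk.1.le hk.2.le)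
      rw [← le_div_iff₀ hpos] at c
      have := mul_le_mul_of_nonneg_left c hk.1.le
      linarith
  have := hm ⟨le_refl 0, by norm_num⟩ ⟨h0, h1⟩ h0
  simp only [VW_zero, LW_zero] at this
  linarith

end IST43

end
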