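import Pool.Agent.IST43.Wgt2
import Pool.Agent.IST43.Edge

/-!
# Weights of the dual expansion: the strip

`b0 = (20 cosh² z - 15) / (20 cosh² z + 1)`, `Om = b0 / tau = 5 (2 cosh z + √3)² / (20 cosh² z + 1)`.
The line is `cos ph1 = 4 / 5`.
-/

set_option autoImplicit false

noncomputable section

open Real

namespace IST43

/-- the angle of the line -/
def ph1 : ℝ := Real.arccos (4 / 5)

theorem cos_ph1 : Real.cos ph1 = 4 / 5 := Real.cos_arccos (by norm_num) (by norm_num)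

theorem sin_ph1 : Real.sin ph1 = 3 / 5 := by
  unfold ph1
  rw [Real.sin_arccos]
  rw [Real.sqrt_eq_iff_mul_self_eq (by norm_num) (by norm_num)]
  norm_num

theorem ph1_pos : 0 < ph1 := Real.arccos_pos.2 (by norm_num)

theorem ph1_le : ph1 ≤ π / 4 := by
  have hpi := Real.pi_pos
  by_contra h
  push Not at h
  have h1 : ph1 ≤ π := Real.arccos_le_pi _
  have h2 := Real.cos_lt_cos_of_nonneg_of_le_pi (by positivity) h1 h
  rw [cos_ph1, Real.cos_pi_div_four] at h2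
  have h3 : √2 < 1.5 := by
    rw [Real.sqrt_lt' (by norm_num)]
    norm_num
  linarith

theorem s2_bd : 1414 / 1000 ≤ √2 ∧ √2 ≤ 14143 / 10000 := by
  constructor
  · rw [Real.le_sqrt (by norm_num) (by norm_num)]
    norm_num
  · rw [Real.sqrt_le_left (by norm_num)]
    norm_num

theorem s3_bd : 1732 / 1000 ≤ √3 ∧ √3 ≤ 17321 / 10000 := by
  constructor
  · rw [Real.le_sqrt (by norm_num) (by norm_num)]
    norm_num
  · exact s3_lt'

theorem cos75 : Real.cos (5 * π / 12) = √2 / 2 * (√3 / 2 - 1 / 2) := by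
  rw [show 5 * π / 12 = π / 4 + π / 6 by ring, Real.cos_add, Real.cos_pi_div_four, Real.sin_pi_div_four,
    Real.cos_pi_div_six, Real.sin_pi_div_six]
  ring

theorem sin75 : Real.sin (5 * π / 12) = √2 / 2 * (√3 / 2 + 1 / 2) := by
  rw [show 5 * π / 12 = π / 4 + π / 6 by ring, Real.sin_add, Real.cos_pi_div_four, Real.sin_pi_div_four,
    Real.cos_pi_div_six, Real.sin_pi_div_six]
  ring

theorem b75 : 2587 / 10000 ≤ Real.cos (5 * π / 12) ∧ Real.cos (5 * π / 12) ≤ 2589 / 10000 ∧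
    9657 / 10000 ≤ Real.sin (5 * π / 12) ∧ Real.sin (5 * π / 12) ≤ 9661 / 10000 := by
  obtain ⟨a1, a2⟩ := s2_bd
  obtain ⟨b1, b2⟩ := s3_bd
  rw [cos75, sin75]
  refine ⟨?_, ?_, ?_, ?_⟩ <;> nlinarith

theorem cos_ge_quarter {x : ℝ} (h : |x| ≤ 5 * π / 12) : 1 / 4 ≤ Real.cos x := by
  have hpi := Real.pi_pos
  have := Real.cos_le_cos_of_nonneg_of_le_pi (abs_nonneg x) (by linarith) h
  rw [Real.cos_abs] at this
  linarith [b75.1]

/-- the angles of the rows seen from the line -/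
theorem inR_of {φ : ℝ} (h : |φ| ≤ 5 * π / 12) : InR (ph1 + φ) := by
  obtain ⟨h1, h2⟩ := abs_le.1 h
  have hpi := Real.pi_pos
  have p0 := ph1_pos
  have p1 := ph1_le
  obtain ⟨c1, c2, c3, c4⟩ := b75
  refine ⟨?_, ?_, ?_⟩
  · rcases le_or_gt 0 (ph1 + φ) with h0 | h0
    · have := Real.sin_nonneg_of_nonneg_of_le_pi h0 (by linarith)
      linarith
    · have hm : Real.sin (ph1 + -(5 * π / 12)) ≤ Real.sin (ph1 + φ) :=
        Real.sin_le_sin_of_le_of_le_pi_div_two (by linarith) (by linarith) (by linarith)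
      rw [Real.sin_add, Real.sin_neg, Real.cos_neg, cos_ph1, sin_ph1] at hm
      linarith
  · have ha : |ph1 + φ| ≤ ph1 + 5 * π / 12 := by
      rw [abs_le]
      constructor <;> linarith
    have hm : Real.cos (ph1 + 5 * π / 12) ≤ Real.cos |ph1 + φ| :=
      Real.cos_le_cos_of_nonneg_of_le_pi (abs_nonneg _) (by linarith) ha
    rw [Real.cos_abs, Real.cos_add, cos_ph1, sin_ph1] at hm
    linarith
  · intro hs
    rcases le_or_gt 0 (ph1 + φ) with h0 | h0
    · have := Real.sin_nonneg_of_nonneg_of_le_pi h0 (by linarith)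
      linarith
    · exact Real.cos_nonneg_of_mem_Icc ⟨by linarith, by linarith⟩

/-- the second factor -/
def Om (z : ℂ) : ℂ := 5 * (2 * Complex.cosh z + (√3 : ℝ)) ^ 2 / (20 * Complex.cosh z ^ 2 + 1)

/-- the zero carrying factor -/
def b0 (z : ℂ) : ℂ := (20 * Complex.cosh z ^ 2 - 15) / (20 * Complex.cosh z ^ 2 + 1)

theorem normSq_cosh (u φ : ℝ) : ‖Complex.cosh ((u : ℂ) + (φ : ℂ) * Complex.I)‖ ^ 2 =
    Real.cosh u ^ 2 - Real.sin φ ^ 2 := by
  rw [← Complex.normSq_eq_norm_sq, cosh_parts, Complex.normSq_add_mul_I]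
  have h1 : Real.sinh u ^ 2 = Real.cosh u ^ 2 - 1 := by
    have := Real.cosh_sq u
    linarith
  have h2 : Real.cos φ ^ 2 = 1 - Real.sin φ ^ 2 := by
    have := Real.sin_sq_add_cos_sq φ
    linarith
  rw [mul_pow, mul_pow, h1, h2]
  ring

/-- the strip -/
def InS (φ : ℝ) : Prop := |φ| ≤ ph1

theorem cos_ge {φ : ℝ} (h : InS φ) : 4 / 5 ≤ Real.cos φ := by
  rw [← cos_ph1, ← Real.cos_abs φ]
  have := ph1_le
  have hpi := Real.pi_pos
  exact Real.cos_le_cos_of_nonneg_of_le_pi (abs_nonneg _) (by linarith) h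

theorem sin_sq_le {φ : ℝ} (h : InS φ) : Real.sin φ ^ 2 ≤ 9 / 25 := by
  have h1 := cos_ge h
  have h2 := Real.sin_sq_add_cos_sq φ
  nlinarith

theorem den_lower {u φ : ℝ} (h : InS φ) :
    11 * Real.cosh u ^ 2 ≤ ‖20 * Complex.cosh ((u : ℂ) + (φ : ℂ) * Complex.I) ^ 2 + 1‖ := by
  have h1 := normSq_cosh u φ
  have h2 := sin_sq_le h
  have h3 := Real.one_le_cosh u
  have h4 := norm_sub_norm_le (20 * Complex.cosh ((u : ℂ) + (φ : ℂ) * Complex.I) ^ 2) (-1)
  rw [norm_mul, norm_pow, h1, norm_neg, norm_one, sub_neg_eq_add] at h4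
  simp only [Complex.norm_ofNat] at h4
  nlinarith

theorem norm_cosh_le (u φ : ℝ) : ‖Complex.cosh ((u : ℂ) + (φ : ℂ) * Complex.I)‖ ≤ Real.cosh u := by
  have h1 := normSq_cosh u φ
  apply le_of_sq_le_sq _ (Real.cosh_pos u).le
  rw [h1]
  have := sq_nonneg (Real.sin φ)
  linarith

theorem Om_le {u φ : ℝ} (h : InS φ) : ‖Om ((u : ℂ) + (φ : ℂ) * Complex.I)‖ ≤ 7 := by
  have h1 := den_lower (u := u) h
  have h3 := Real.one_le_cosh u
  have h2 : ‖2 * Complex.cosh ((u : ℂ) + (φ : ℂ) * Complex.I) + (√3 : ℝ)‖ ≤ 19 / 5 * Real.cosh u := by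
    refine (norm_add_le _ _).trans ?_
    rw [norm_mul, Complex.norm_real, Real.norm_of_nonneg (by positivity)]
    simp only [Complex.norm_ofNat]
    have := norm_cosh_le u φ
    have := s3_lt
    linarith
  have hpos : 0 < ‖20 * Complex.cosh ((u : ℂ) + (φ : ℂ) * Complex.I) ^ 2 + 1‖ :=
    lt_of_lt_of_le (by positivity) h1
  unfold Om
  rw [norm_div, norm_mul, norm_pow, div_le_iff₀ hpos]
  simp only [Complex.norm_ofNat]
  have h4 : ‖2 * Complex.cosh ((u : ℂ) + (φ : ℂ) * Complex.I) + (√3 : ℝ)‖ ^ 2 ≤ (19 / 5 * Real.cosh u) ^ 2 :=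
    pow_le_pow_left₀ (norm_nonneg _) h2 2
  nlinarith

/-- the value on the line -/
theorem norm_Om_line (u : ℝ) :
    ‖Om ((u : ℂ) + (ph1 : ℂ) * Complex.I)‖ = Real.exp (LW (1 / Real.cosh u)) := by
  set C := Real.cosh u with hC
  have hC1 : 1 ≤ C := Real.one_le_cosh u
  have hC0 : 0 < C := by linarith
  have h3 : √3 ^ 2 = 3 := Real.sq_sqrt (by norm_num)
  have hk := inv_cosh_mem u
  rw [← hC] at hk
  have q1 := pB_pos hk.1.le
  have q2 := pC_pos hk.1.le hk.2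
  have n1 : ‖2 * Complex.cosh ((u : ℂ) + (ph1 : ℂ) * Complex.I) + (√3 : ℝ)‖ ^ 2 =
      4 * C ^ 2 * pB (1 / C) := by
    rw [← Complex.normSq_eq_norm_sq, normSq_pm u ph1 (√3) h3, cos_ph1, ← hC]
    unfold pB
    field_simp
    ring
  have n2 : ‖20 * Complex.cosh ((u : ℂ) + (ph1 : ℂ) * Complex.I) ^ 2 + 1‖ ^ 2 =
      400 * C ^ 4 * pC (1 / C) := by
    rw [← Complex.normSq_eq_norm_sq, cosh_parts, cos_ph1, sin_ph1, ← hC]
    set S := Real.sinh u with hS
    have hSS : S ^ 2 = C ^ 2 - 1 := by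
      have := Real.cosh_sq u
      rw [← hC, ← hS] at this
      linarith
    have e : 20 * (((C * (4 / 5) : ℝ) : ℂ) + ((S * (3 / 5) : ℝ) : ℂ) * Complex.I) ^ 2 + 1 =
        ((20 * ((C * (4 / 5)) ^ 2 - (S * (3 / 5)) ^ 2) + 1 : ℝ) : ℂ) +
          ((20 * (2 * (C * (4 / 5)) * (S * (3 / 5))) : ℝ) : ℂ) * Complex.I := by
      push_cast
      linear_combination (20 * ((S : ℂ) * (3 / 5)) ^ 2) * Complex.I_sq
    rw [e, Complex.normSq_add_mul_I]
    have e2 : (20 * ((C * (4 / 5)) ^ 2 - (S * (3 / 5)) ^ 2) + 1) ^ 2 +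
        (20 * (2 * (C * (4 / 5)) * (S * (3 / 5)))) ^ 2 =
        (20 * (C ^ 2 * (16 / 25) - S ^ 2 * (9 / 25)) + 1) ^ 2 +
        1600 * C ^ 2 * (16 / 25) * (S ^ 2 * (9 / 25)) := by ring
    rw [e2, hSS]
    unfold pC
    field_simp
    ring
  have hd : 0 < ‖20 * Complex.cosh ((u : ℂ) + (ph1 : ℂ) * Complex.I) ^ 2 + 1‖ := by
    have := den_lower (u := u) (φ := ph1) (by unfold InS; rw [abs_of_pos ph1_pos])
    exact lt_of_lt_of_le (by positivity) this
  unfold Om LW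
  rw [norm_div, norm_mul, norm_pow, n1, Real.exp_sub, Real.exp_log q1]
  simp only [Complex.norm_ofNat]
  have h5 : ‖20 * Complex.cosh ((u : ℂ) + (ph1 : ℂ) * Complex.I) ^ 2 + 1‖ =
      20 * C ^ 2 * Real.exp (Real.log (pC (1 / C)) / 2) := by
    have h6 : (20 * C ^ 2 * Real.exp (Real.log (pC (1 / C)) / 2)) ^ 2 = 400 * C ^ 4 * pC (1 / C) := by
      rw [mul_pow, ← Real.exp_nat_mul]
      have : ((2 : ℕ) : ℝ) * (Real.log (pC (1 / C)) / 2) = Real.log (pC (1 / C)) := by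
        push_cast
        ring
      rw [this, Real.exp_log q2]
      ring
    rw [← h6] at n2
    exact (pow_left_inj₀ hd.le (by positivity) (by norm_num)).1 n2
  rw [h5]
  have := (Real.exp_pos (Real.log (pC (1 / C)) / 2)).ne'
  field_simp
  norm_num

/-- real part of `cosh²` -/
theorem cosh_sq_re (u φ : ℝ) : (Complex.cosh ((u : ℂ) + (φ : ℂ) * Complex.I) ^ 2).re =
    Real.cosh u ^ 2 * (1 - 2 * Real.sin φ ^ 2) + Real.sin φ ^ 2 := by
  rw [cosh_parts]
  set S := Real.sinh u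
  set C := Real.cosh u
  have hSS : S ^ 2 = C ^ 2 - 1 := by
    have := Real.cosh_sq u
    linarith
  have e : (((C * Real.cos φ : ℝ) : ℂ) + ((S * Real.sin φ : ℝ) : ℂ) * Complex.I) ^ 2 =
      (((C * Real.cos φ) ^ 2 - (S * Real.sin φ) ^ 2 : ℝ) : ℂ) +
        ((2 * (C * Real.cos φ) * (S * Real.sin φ) : ℝ) : ℂ) * Complex.I := by
    push_cast
    linear_combination ((S : ℂ) * Complex.sin φ) ^ 2 * Complex.I_sq
  rw [e]
  have h2 : Real.cos φ ^ 2 = 1 - Real.sin φ ^ 2 := by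
    have := Real.sin_sq_add_cos_sq φ
    linarith
  simp only [Complex.add_re, Complex.ofReal_re, Complex.mul_re, Complex.ofReal_im, Complex.I_re,
    Complex.I_im, mul_zero, zero_mul, sub_zero, add_zero]
  rw [mul_pow, mul_pow, hSS, h2]
  ring

/-- the zero carrying factor is small in the strip -/
theorem norm_b0_le {u φ : ℝ} (h : InS φ) :
    ‖b0 ((u : ℂ) + (φ : ℂ) * Complex.I)‖ ≤ Real.exp (-((1 / Real.cosh u) ^ 2 / 5)) := by
  set W := Complex.cosh ((u : ℂ) + (φ : ℂ) * Complex.I) ^ 2 with hW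
  have hC1 : 1 ≤ Real.cosh u := Real.one_le_cosh u
  set C := Real.cosh u with hC
  have hC0 : 0 < C := by linarith
  have hre := cosh_sq_re u φ
  have hs := sin_sq_le h
  have hs0 := sq_nonneg (Real.sin φ)
  have hd := den_lower (u := u) h
  rw [← hW] at hre hd
  rw [← hC] at hre hd
  have hWn : ‖W‖ ≤ C ^ 2 := by
    rw [hW, norm_pow]
    exact pow_le_pow_left₀ (norm_nonneg _) (norm_cosh_le u φ) 2
  have hpos : 0 < ‖20 * W + 1‖ := lt_of_lt_of_le (by positivity) hd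
  have hup : ‖20 * W + 1‖ ≤ 21 * C ^ 2 := by
    refine (norm_add_le _ _).trans ?_
    rw [norm_mul, norm_one]
    simp only [Complex.norm_ofNat]
    nlinarith
  -- the difference of the squares
  have hdiff : ‖20 * W - 15‖ ^ 2 = ‖20 * W + 1‖ ^ 2 - (640 * W.re - 224) := by
    rw [← Complex.normSq_eq_norm_sq, ← Complex.normSq_eq_norm_sq, Complex.normSq_apply,
      Complex.normSq_apply]
    simp only [Complex.sub_re, Complex.sub_im, Complex.mul_re, Complex.mul_im, Complex.re_ofNat,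
      Complex.im_ofNat, Complex.add_re, Complex.add_im, Complex.one_re, Complex.one_im]
    ring
  have hrl : 179 * C ^ 2 ≤ 640 * W.re - 224 := by
    rw [hre]
    have hx : 1 ≤ C ^ 2 := by nlinarith
    nlinarith [mul_nonneg (sub_nonneg.2 hx) (sub_nonneg.2 hs)]
  have h2 : ‖b0 ((u : ℂ) + (φ : ℂ) * Complex.I)‖ ^ 2 ≤ 1 - 2 * ((1 / C) ^ 2 / 5) := by
    unfold b0
    rw [← hW, norm_div, div_pow, hdiff, div_le_iff₀ (by positivity)]
    have h4 : ‖20 * W + 1‖ ^ 2 ≤ (21 * C ^ 2) ^ 2 := pow_le_pow_left₀ hpos.le hup 2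
    have h5 : 2 * ((1 / C) ^ 2 / 5) * ‖20 * W + 1‖ ^ 2 ≤ 179 * C ^ 2 := by
      calc 2 * ((1 / C) ^ 2 / 5) * ‖20 * W + 1‖ ^ 2 ≤ 2 * ((1 / C) ^ 2 / 5) * (21 * C ^ 2) ^ 2 :=
            mul_le_mul_of_nonneg_left h4 (by positivity)
        _ = 882 / 5 * C ^ 2 := by
            field_simp
            ring
        _ ≤ 179 * C ^ 2 := by nlinarith
    nlinarith
  have h3 : 1 - 2 * ((1 / C) ^ 2 / 5) ≤ Real.exp (-((1 / C) ^ 2 / 5)) ^ 2 := by
    rw [← Real.exp_nat_mul]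
    have := Real.add_one_le_exp (((2 : ℕ) : ℝ) * -((1 / C) ^ 2 / 5))
    push_cast at this ⊢
    linarith
  exact le_of_sq_le_sq (h2.trans h3) (Real.exp_pos _).le

/-- the comparison exponent -/
theorem inv_cosh_sq_upper {u φ : ℝ} (h : InS φ) :
    (1 / Complex.cosh ((u : ℂ) + (φ : ℂ) * Complex.I) ^ 2).re ≤ 2 * (1 / Real.cosh u) ^ 2 := by
  have h1 := normSq_cosh u φ
  have h2 := sin_sq_le h
  have hC1 : 1 ≤ Real.cosh u := Real.one_le_cosh u
  refine (Complex.re_le_norm _).trans ?_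
  rw [norm_div, norm_one, norm_pow, h1, div_pow, one_pow, mul_one_div]
  rw [div_le_div_iff₀ (by nlinarith) (by positivity)]
  nlinarith

theorem inv_cosh_sq_lower {u φ : ℝ} (h : InS φ) :
    (1 / Real.cosh u) ^ 2 / 4 ≤ (1 / Complex.cosh ((u : ℂ) + (φ : ℂ) * Complex.I) ^ 2).re := by
  have h1 := normSq_cosh u φ
  have h2 := sin_sq_le h
  have h0 := sq_nonneg (Real.sin φ)
  have hC1 : 1 ≤ Real.cosh u := Real.one_le_cosh u
  have hre := cosh_sq_re u φ
  set W := Complex.cosh ((u : ℂ) + (φ : ℂ) * Complex.I) ^ 2 with hW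
  have hWn : Complex.normSq W = (Real.cosh u ^ 2 - Real.sin φ ^ 2) ^ 2 := by
    rw [Complex.normSq_eq_norm_sq, hW, norm_pow, h1]
  rw [one_div W, Complex.inv_re, hWn, hre, div_pow, one_pow]
  have hp : 0 < Real.cosh u ^ 2 - Real.sin φ ^ 2 := by nlinarith
  rw [div_div, div_le_div_iff₀ (by positivity) (by positivity)]
  have a1 : (Real.cosh u ^ 2 - Real.sin φ ^ 2) ^ 2 ≤ Real.cosh u ^ 4 := by
    nlinarith
  have a2 : Real.cosh u ^ 4 ≤ (Real.cosh u ^ 2 * (1 - 2 * Real.sin φ ^ 2) + Real.sin φ ^ 2) *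
      (Real.cosh u ^ 2 * 4) := by
    have : Real.cosh u ^ 2 ≤ (Real.cosh u ^ 2 * (1 - 2 * Real.sin φ ^ 2) + Real.sin φ ^ 2) * 4 := by
      nlinarith
    nlinarith [sq_nonneg (Real.cosh u)]
  linarith

theorem LW_nonneg {k : ℝ} (h0 : 0 ≤ k) (h1 : k ≤ 1) : 0 ≤ LW k := by
  have q1 : 1 ≤ pB k := by
    unfold pB
    have : 0 ≤ √3 * (4 / 5) * k := by positivity
    have : 0 ≤ 39 / 100 * k ^ 2 := by positivity
    linarith
  have q2 : pC k ≤ 1 := by
    unfold pC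
    have hk2 : k ^ 2 ≤ 1 := by nlinarith
    have : k ^ 4 ≤ k ^ 2 := by nlinarith [sq_nonneg k]
    have : 0 ≤ k ^ 2 := by positivity
    linarith
  unfold LW
  have a := Real.log_nonneg q1
  have b := Real.log_nonpos (pC_pos h0 h1).le q2
  linarith

/-- `b0` on the axis -/
theorem b0_axis (u : ℝ) : ‖b0 (u : ℂ)‖ = tauR u * ‖Om (u : ℂ)‖ := by
  have hC1 : 1 ≤ Real.cosh u := Real.one_le_cosh u
  have h3 : (((√3 : ℝ) : ℂ)) ^ 2 = 3 := s3c
  have ht := tauR_pos u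
  rw [← Real.norm_of_nonneg ht.le, ← Complex.norm_real, ← norm_mul]
  congr 1
  unfold b0 Om tauR
  have hc : Complex.cosh (u : ℂ) = ((Real.cosh u : ℝ) : ℂ) := by simp
  rw [hc]
  push_cast
  have h3p : 0 < √3 := by positivity
  have d1 : (2 * (Real.cosh u : ℂ) + ((√3 : ℝ) : ℂ)) ≠ 0 := by
    have : (2 * (Real.cosh u : ℂ) + ((√3 : ℝ) : ℂ)) = ((2 * Real.cosh u + √3 : ℝ) : ℂ) := by push_cast; rfl
    rw [this]
    exact Complex.ofReal_ne_zero.2 (by positivity)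
  have hcosh : ((Real.cosh u : ℝ) : ℂ) = Complex.cosh (u : ℂ) := by simp
  rw [← hcosh]
  have d2 : (20 * (Real.cosh u : ℂ) ^ 2 + 1) ≠ 0 := by
    have : (20 * (Real.cosh u : ℂ) ^ 2 + 1) = ((20 * Real.cosh u ^ 2 + 1 : ℝ) : ℂ) := by
      push_cast
      rfl
    rw [this]
    exact Complex.ofReal_ne_zero.2 (by positivity)
  rw [div_mul_div_comm, div_eq_div_iff d2 (mul_ne_zero d1 d2)]
  linear_combination (5 * (2 * (Real.cosh u : ℂ) + ((√3 : ℝ) : ℂ)) * (20 * (Real.cosh u : ℂ) ^ 2 + 1)) * h3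

/-- the character on the axis -/
theorem tauR_eq (u : ℝ) : tauR u = Real.exp (-(2 * at1 (√3 / 2) (1 / Real.cosh u))) := by
  have hC1 : 1 ≤ Real.cosh u := Real.one_le_cosh u
  have hs := s3_lt
  have h3p : 0 < √3 := by positivity
  have p1 : 0 < 1 + 1 / Real.cosh u * (√3 / 2) := by positivity
  have hk := inv_cosh_mem u
  have p2 : 0 < 1 - 1 / Real.cosh u * (√3 / 2) := by nlinarith [hk.1, hk.2]
  unfold at1
  have e : -(2 * ((Real.log (1 + 1 / Real.cosh u * (√3 / 2)) - Real.log (1 - 1 / Real.cosh u * (√3 / 2))) / 2)) =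
      Real.log (1 - 1 / Real.cosh u * (√3 / 2)) - Real.log (1 + 1 / Real.cosh u * (√3 / 2)) := by ring
  rw [e, Real.exp_sub, Real.exp_log p1, Real.exp_log p2]
  unfold tauR
  have hC0 : 0 < Real.cosh u := by linarith
  rw [div_eq_div_iff (by positivity) p1.ne']
  field_simp

end IST43

end
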