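import Pool.Agent.IST43.Wgt3
import Mathlib.Analysis.Complex.PhragmenLindelof

/-!
# Weights of the dual expansion: the group

A group of complex rows `x_j` (`|Re x_j| ≤ 75` degrees; `|Im x_j| ≤ 1/10` but for four rows with
`|Im x_j| ≤ 2`; `∑ |Im x_j| ≤ m / 140 + 4`) with `∑ exp (± i x_j) = m + 2 cosh y`, and the loss of one row.
-/

set_option autoImplicit false

noncomputable section

open Real

namespace IST43

variable {ι : Type*}

/-- the character of a group of rows -/
def Lam (s : Finset ι) (x : ι → ℂ) (z : ℂ) : ℂ := ∏ j ∈ s, tau (z + x j * Complex.I)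

/-- a group in the frame in which the two first moments are real and equal: rows within 75 degrees, at most
four rows (the special ones) with heights between `1/10` and `2` -/
structure Grp (s : Finset ι) (x : ι → ℂ) (m : ℕ) (y : ℝ) : Prop where
  re_le : ∀ j ∈ s, |(x j).re| ≤ 5 * π / 12
  im_le : ∀ j ∈ s, |(x j).im| ≤ 2
  spc : (s.filter fun j => ¬|(x j).im| ≤ 1 / 10).card ≤ 4
  im_sum : ∑ j ∈ s.filter fun j => |(x j).im| ≤ 1 / 10, |(x j).im| ≤ m / 140 + 4
  pos : ∑ j ∈ s, Complex.exp (x j * Complex.I) = ((m + 2 * Real.cosh y : ℝ) : ℂ)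
  neg : ∑ j ∈ s, Complex.exp (-(x j * Complex.I)) = ((m + 2 * Real.cosh y : ℝ) : ℂ)

theorem exp_re (a : ℂ) : (Complex.exp (a * Complex.I)).re = Real.exp (-a.im) * Real.cos a.re ∧
    (Complex.exp (a * Complex.I)).im = Real.exp (-a.im) * Real.sin a.re := by
  constructor
  · rw [Complex.exp_re]
    simp
  · rw [Complex.exp_im]
    simp

theorem exp_re' (a : ℂ) : (Complex.exp (-(a * Complex.I))).re = Real.exp a.im * Real.cos a.re ∧
    (Complex.exp (-(a * Complex.I))).im = -(Real.exp a.im * Real.sin a.re) := by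
  constructor
  · rw [Complex.exp_re]
    simp
  · rw [Complex.exp_im]
    simp

/-- the four real sum rules -/
theorem Grp.rules {s : Finset ι} {x : ι → ℂ} {m : ℕ} {y : ℝ} (G : Grp s x m y) :
    ∑ j ∈ s, Real.cosh (x j).im * Real.cos (x j).re = m + 2 * Real.cosh y ∧
    ∑ j ∈ s, Real.sinh (x j).im * Real.cos (x j).re = 0 ∧
    ∑ j ∈ s, Real.cosh (x j).im * Real.sin (x j).re = 0 ∧
    ∑ j ∈ s, Real.sinh (x j).im * Real.sin (x j).re = 0 := by
  have p1 : ∑ j ∈ s, Real.exp (-(x j).im) * Real.cos (x j).re = m + 2 * Real.cosh y := by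
    have := congrArg Complex.re G.pos
    rw [Complex.re_sum, Complex.ofReal_re] at this
    rw [← this]
    exact Finset.sum_congr rfl fun j _ => (exp_re (x j)).1.symm
  have p2 : ∑ j ∈ s, Real.exp (-(x j).im) * Real.sin (x j).re = 0 := by
    have := congrArg Complex.im G.pos
    rw [Complex.im_sum, Complex.ofReal_im] at this
    rw [← this]
    exact Finset.sum_congr rfl fun j _ => (exp_re (x j)).2.symm
  have n1 : ∑ j ∈ s, Real.exp (x j).im * Real.cos (x j).re = m + 2 * Real.cosh y := by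
    have := congrArg Complex.re G.neg
    rw [Complex.re_sum, Complex.ofReal_re] at this
    rw [← this]
    exact Finset.sum_congr rfl fun j _ => (exp_re' (x j)).1.symm
  have n2 : ∑ j ∈ s, Real.exp (x j).im * Real.sin (x j).re = 0 := by
    have := congrArg Complex.im G.neg
    rw [Complex.im_sum, Complex.ofReal_im] at this
    have h : ∑ j ∈ s, -(Real.exp (x j).im * Real.sin (x j).re) = 0 := by
      rw [← this]
      exact Finset.sum_congr rfl fun j _ => (exp_re' (x j)).2.symm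
    rw [Finset.sum_neg_distrib, neg_eq_zero] at h
    exact h
  refine ⟨?_, ?_, ?_, ?_⟩
  · have : ∑ j ∈ s, Real.cosh (x j).im * Real.cos (x j).re =
        (∑ j ∈ s, Real.exp (x j).im * Real.cos (x j).re + ∑ j ∈ s, Real.exp (-(x j).im) * Real.cos (x j).re) / 2 := by
      rw [← Finset.sum_add_distrib, Finset.sum_div]
      refine Finset.sum_congr rfl fun j _ => ?_
      rw [Real.cosh_eq]
      ring
    rw [this, p1, n1]
    ring
  · have : ∑ j ∈ s, Real.sinh (x j).im * Real.cos (x j).re =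
        (∑ j ∈ s, Real.exp (x j).im * Real.cos (x j).re - ∑ j ∈ s, Real.exp (-(x j).im) * Real.cos (x j).re) / 2 := by
      rw [← Finset.sum_sub_distrib, Finset.sum_div]
      refine Finset.sum_congr rfl fun j _ => ?_
      rw [Real.sinh_eq]
      ring
    rw [this, p1, n1]
    ring
  · have : ∑ j ∈ s, Real.cosh (x j).im * Real.sin (x j).re =
        (∑ j ∈ s, Real.exp (x j).im * Real.sin (x j).re + ∑ j ∈ s, Real.exp (-(x j).im) * Real.sin (x j).re) / 2 := by
      rw [← Finset.sum_add_distrib, Finset.sum_div]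
      refine Finset.sum_congr rfl fun j _ => ?_
      rw [Real.cosh_eq]
      ring
    rw [this, p2, n2]
    ring
  · have : ∑ j ∈ s, Real.sinh (x j).im * Real.sin (x j).re =
        (∑ j ∈ s, Real.exp (x j).im * Real.sin (x j).re - ∑ j ∈ s, Real.exp (-(x j).im) * Real.sin (x j).re) / 2 := by
      rw [← Finset.sum_sub_distrib, Finset.sum_div]
      refine Finset.sum_congr rfl fun j _ => ?_
      rw [Real.sinh_eq]
      ring
    rw [this, p2, n2]
    ring

/-- elementary bounds for `|w| ≤ 1/10` -/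
theorem small_w {w : ℝ} (hw : |w| ≤ 1 / 10) :
    Real.cosh w - 1 ≤ |w| / 10 ∧ Real.sinh w ^ 2 ≤ |w| / 8 ∧ |Real.sinh w| ≤ 11 / 10 * |w| ∧
      1 ≤ Real.cosh w := by
  have h1 := Real.one_le_cosh w
  have hE : ∀ t : ℝ, |t| ≤ 1 / 10 → |Real.exp t - 1 - t| ≤ t ^ 2 := by
    intro t ht
    exact Real.abs_exp_sub_one_sub_id_le (by linarith)
  have a := abs_le.1 (hE w hw)
  have b := abs_le.1 (hE (-w) (by rw [abs_neg]; exact hw))
  have hw2 : w ^ 2 ≤ |w| / 10 := by
    rw [← sq_abs]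
    nlinarith [abs_nonneg w]
  have hc : Real.cosh w - 1 ≤ w ^ 2 := by
    rw [Real.cosh_eq]
    nlinarith [a.2, b.2]
  have hs : |Real.sinh w - w| ≤ w ^ 2 := by
    rw [Real.sinh_eq, abs_le]
    constructor <;> nlinarith [a.1, a.2, b.1, b.2]
  have hsn : |Real.sinh w| ≤ 11 / 10 * |w| := by
    have h2 : |Real.sinh w| ≤ |Real.sinh w - w| + |w| := by
      have := abs_add_le (Real.sinh w - w) w
      simpa using this
    linarith
  refine ⟨by linarith, ?_, hsn, h1⟩
  have h3 := abs_nonneg w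
  have h4 := abs_nonneg (Real.sinh w)
  rw [← sq_abs (Real.sinh w)]
  nlinarith

/-- the shifted height -/
theorem shift_k {u w : ℝ} (hw : |w| ≤ 1 / 10) :
    1 / Real.cosh (u - w) = 1 / Real.cosh u * (Real.cosh w + Real.sinh u / Real.cosh u * Real.sinh w) -
      (1 / Real.cosh u) ^ 2 * (1 / Real.cosh (u - w)) * Real.sinh w ^ 2 ∧
    1 / Real.cosh (u - w) ≤ 9 / 8 * (1 / Real.cosh u) ∧
    |1 / Real.cosh (u - w) - 1 / Real.cosh u| ≤ 7 / 5 * |w| * (1 / Real.cosh u) := by
  obtain ⟨w1, w2, w3, w4⟩ := small_w hw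
  have hC := Real.cosh_pos u
  have hC' := Real.cosh_pos (u - w)
  have hSS := Real.cosh_sq u
  have hsub := Real.cosh_sub u w
  have hwq := Real.cosh_sq w
  have hSC : |Real.sinh u| ≤ Real.cosh u := by
    rw [abs_le]
    constructor <;> nlinarith [Real.cosh_pos u, Real.sinh_lt_cosh u, Real.sinh_lt_cosh (-u), Real.sinh_neg u, Real.cosh_neg u]
  have h3 := abs_nonneg w
  -- lower bound for the shifted cosh
  have hcross : |Real.sinh u * Real.sinh w| ≤ Real.cosh u * (11 / 10 * |w|) := by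
    rw [abs_mul]
    exact mul_le_mul hSC w3 (abs_nonneg _) hC.le
  have hl := abs_le.1 hcross
  have hg : 0 ≤ Real.cosh u * (Real.cosh w - 1) := mul_nonneg hC.le (by linarith)
  have hg2 : Real.cosh u * (Real.cosh w - 1) ≤ Real.cosh u * (|w| / 10) :=
    mul_le_mul_of_nonneg_left w1 hC.le
  have hcw : Real.cosh u * |w| ≤ Real.cosh u * (1 / 10) := mul_le_mul_of_nonneg_left hw hC.le
  have hlow2 : 89 / 100 * Real.cosh u ≤ Real.cosh (u - w) := by
    rw [hsub]
    linarith [hl.2]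
  refine ⟨?_, ?_, ?_⟩
  · field_simp
    rw [hsub]
    have e1 : Real.sinh u ^ 2 = Real.cosh u ^ 2 - 1 := by linarith
    linear_combination (-(Real.cosh u ^ 2)) * hwq + (Real.sinh w ^ 2) * e1
  · rw [mul_one_div, div_le_div_iff₀ hC' hC]
    linarith
  · have e : 1 / Real.cosh (u - w) - 1 / Real.cosh u =
        (Real.cosh u - Real.cosh (u - w)) / (Real.cosh (u - w) * Real.cosh u) := by
      field_simp
    rw [e, abs_div, abs_of_pos (mul_pos hC' hC), div_le_iff₀ (mul_pos hC' hC)]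
    have e2 : Real.cosh u - Real.cosh (u - w) = -(Real.cosh u * (Real.cosh w - 1)) + Real.sinh u * Real.sinh w := by
      rw [hsub]
      ring
    have h5 : |Real.cosh u - Real.cosh (u - w)| ≤ 6 / 5 * |w| * Real.cosh u := by
      rw [abs_le, e2]
      constructor
      · linarith [hl.1]
      · linarith [hl.2]
    have h7 : 7 / 5 * |w| * (1 / Real.cosh u) * (Real.cosh (u - w) * Real.cosh u) =
        7 / 5 * |w| * Real.cosh (u - w) := by
      field_simp
    rw [h7]
    have h8 : 7 / 5 * |w| * (89 / 100 * Real.cosh u) ≤ 7 / 5 * |w| * Real.cosh (u - w) :=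
      mul_le_mul_of_nonneg_left hlow2 (by positivity)
    have h9 : 0 ≤ |w| * Real.cosh u := by positivity
    linarith

/-- **the loss of one row**: any sinusoid with the coefficients `2 at1 - d J`, `- b J` -/
theorem row_loss {d b : ℝ} (hd0 : 0 ≤ d) (hd1 : d ≤ 1 / 2) (hb0 : 0 ≤ b) (hb1 : b ≤ 27 / 250) {u w c t : ℝ}
    (hw : |w| ≤ 1 / 10) (hc : |c| ≤ 1) (ht : |t| ≤ 1) :
    (√3 * (1 / Real.cosh u) * (Real.cosh w + Real.sinh u / Real.cosh u * Real.sinh w) * c +
      Real.cosh w * (c * (2 * at1 (√3 / 2) (1 / Real.cosh u) - d * JW (1 / Real.cosh u) -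
        √3 * (1 / Real.cosh u)) + t * (-b * JW (1 / Real.cosh u)))) -
      14 * |w| * (1 / Real.cosh u) ^ 2 ≤
    c * (2 * at1 (√3 / 2) (1 / Real.cosh (u - w)) - d * JW (1 / Real.cosh (u - w))) +
      t * (-b * JW (1 / Real.cosh (u - w))) := by
  obtain ⟨w1, w2, w3, w4⟩ := small_w hw
  obtain ⟨s1, s2, s3⟩ := shift_k (u := u) hw
  have hk := inv_cosh_mem u
  have hl := inv_cosh_mem (u - w)
  set k := 1 / Real.cosh u with hkd
  set l := 1 / Real.cosh (u - w) with hld
  set T := Real.sinh u / Real.cosh u with hT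
  have hs := s3_lt
  have h3p : 0 < √3 := by positivity
  have hw0 := abs_nonneg w
  -- the bound for both arguments
  obtain ⟨M, hM1, hM2, hkM, hlM⟩ : ∃ M : ℝ, M ≤ 1 ∧ M ≤ 9 / 8 * k ∧ k ≤ M ∧ l ≤ M :=
    ⟨max k l, max_le hk.2 hl.2, max_le (by linarith [hk.1]) s2, le_max_left _ _, le_max_right _ _⟩
  have hM0 : 0 ≤ M := hk.1.le.trans hkM
  have hMM : M ^ 2 ≤ (9 / 8 * k) ^ 2 := pow_le_pow_left₀ hM0 hM2 2
  have k3 : 0 ≤ k ^ 3 := by positivity
  have k23 : k ^ 3 ≤ k ^ 2 := by nlinarith [hk.1, hk.2, sq_nonneg k]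
  have A1 := lip_al hd0 hd1 hk.1.le hkM hl.1.le hlM hM1
  have A2 := lip_JW hk.1.le hkM hl.1.le hlM hM1
  have A3 := lip_al hd0 hd1 (le_refl 0) hk.1.le hk.1.le (le_refl k) hk.2
  have A4 := lip_JW (le_refl 0) hk.1.le hk.1.le (le_refl k) hk.2
  simp only [at1_zero, JW_zero, mul_zero, sub_zero] at A3 A4
  rw [abs_of_pos hk.1] at A3 A4
  set al' := 2 * at1 (√3 / 2) l - d * JW l - √3 * l with hal'
  set al := 2 * at1 (√3 / 2) k - d * JW k - √3 * k with hal
  -- numerical forms
  have B1 : |al' - al| ≤ 11 * |w| * k ^ 3 := by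
    refine A1.trans ?_
    have h1 : 6 * M ^ 2 * |l - k| ≤ 6 * (9 / 8 * k) ^ 2 * (7 / 5 * |w| * k) :=
      mul_le_mul (by linarith) s3 (abs_nonneg _) (by positivity)
    have h2 : 6 * (9 / 8 * k) ^ 2 * (7 / 5 * |w| * k) = 1701 / 160 * (|w| * k ^ 3) := by ring
    have h4 : 0 ≤ |w| * k ^ 3 := by positivity
    linarith
  have B2 : |JW l - JW k| ≤ 15 * |w| * k ^ 3 := by
    refine A2.trans ?_
    have h1 : 8 * M ^ 2 * |l - k| ≤ 8 * (9 / 8 * k) ^ 2 * (7 / 5 * |w| * k) :=
      mul_le_mul (by linarith) s3 (abs_nonneg _) (by positivity)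
    have h2 : 8 * (9 / 8 * k) ^ 2 * (7 / 5 * |w| * k) = 567 / 40 * (|w| * k ^ 3) := by ring
    have h4 : 0 ≤ |w| * k ^ 3 := by positivity
    linarith
  have B3 : |al| ≤ 6 * k ^ 3 := by
    refine A3.trans (le_of_eq ?_)
    ring
  have B4 : |JW k| ≤ 8 * k ^ 3 := by
    refine A4.trans (le_of_eq ?_)
    ring
  have B5 : |k ^ 2 * l * Real.sinh w ^ 2| ≤ 9 / 64 * |w| * k ^ 3 := by
    rw [abs_of_nonneg (by have := hl.1; positivity)]
    calc k ^ 2 * l * Real.sinh w ^ 2 ≤ k ^ 2 * (9 / 8 * k) * (|w| / 8) :=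
          mul_le_mul (mul_le_mul_of_nonneg_left s2 (by positivity)) w2 (sq_nonneg _) (by positivity)
      _ = 9 / 64 * |w| * k ^ 3 := by ring
  -- the identity
  have e : c * (2 * at1 (√3 / 2) l - d * JW l) + t * (-b * JW l) -
      (√3 * k * (Real.cosh w + T * Real.sinh w) * c + Real.cosh w * (c * al + t * (-b * JW k))) =
      c * ((al' - al) - al * (Real.cosh w - 1) - √3 * (k ^ 2 * l * Real.sinh w ^ 2)) +
      t * (-(b * (JW l - JW k)) + b * JW k * (Real.cosh w - 1)) := by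
    have e1 : √3 * k * (Real.cosh w + T * Real.sinh w) = √3 * (l + k ^ 2 * l * Real.sinh w ^ 2) := by
      have h : k * (Real.cosh w + T * Real.sinh w) = l + k ^ 2 * l * Real.sinh w ^ 2 := by linarith
      rw [mul_assoc, h]
    rw [e1, hal']
    ring
  have hX : |(al' - al) - al * (Real.cosh w - 1) - √3 * (k ^ 2 * l * Real.sinh w ^ 2)| ≤ 12 * |w| * k ^ 3 := by
    have h1 : |al * (Real.cosh w - 1)| ≤ 6 * k ^ 3 * (|w| / 10) := by
      rw [abs_mul, abs_of_nonneg (by linarith : 0 ≤ Real.cosh w - 1)]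
      exact mul_le_mul B3 w1 (by linarith) (by positivity)
    have h2 : |√3 * (k ^ 2 * l * Real.sinh w ^ 2)| ≤ 1.8 * (9 / 64 * |w| * k ^ 3) := by
      rw [abs_mul, abs_of_pos h3p]
      exact mul_le_mul hs.le B5 (abs_nonneg _) (by norm_num)
    have h4 : 0 ≤ |w| * k ^ 3 := by positivity
    have h5 := abs_sub (al' - al - al * (Real.cosh w - 1)) (√3 * (k ^ 2 * l * Real.sinh w ^ 2))
    have h6 := abs_sub (al' - al) (al * (Real.cosh w - 1))
    linarith
  have hY : |-(b * (JW l - JW k)) + b * JW k * (Real.cosh w - 1)| ≤ 2 * |w| * k ^ 3 := by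
    have h1 : |b * (JW l - JW k)| ≤ 27 / 250 * (15 * |w| * k ^ 3) := by
      rw [abs_mul, abs_of_nonneg hb0]
      exact mul_le_mul hb1 B2 (abs_nonneg _) (by norm_num)
    have h2 : |b * JW k * (Real.cosh w - 1)| ≤ 27 / 250 * (8 * k ^ 3) * (|w| / 10) := by
      rw [abs_mul, abs_mul, abs_of_nonneg hb0, abs_of_nonneg (by linarith : 0 ≤ Real.cosh w - 1)]
      exact mul_le_mul (mul_le_mul hb1 B4 (abs_nonneg _) (by norm_num)) w1 (by linarith) (by positivity)
    have h4 : 0 ≤ |w| * k ^ 3 := by positivity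
    have h5 := abs_add_le (-(b * (JW l - JW k))) (b * JW k * (Real.cosh w - 1))
    rw [abs_neg] at h5
    linarith
  have h1 : |c * ((al' - al) - al * (Real.cosh w - 1) - √3 * (k ^ 2 * l * Real.sinh w ^ 2))| ≤
      12 * |w| * k ^ 3 := by
    rw [abs_mul]
    have := mul_le_mul hc hX (abs_nonneg _) (by norm_num)
    linarith
  have h2 : |t * (-(b * (JW l - JW k)) + b * JW k * (Real.cosh w - 1))| ≤ 2 * |w| * k ^ 3 := by
    rw [abs_mul]
    have := mul_le_mul ht hY (abs_nonneg _) (by norm_num)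
    linarith
  have h3 := (abs_le.1 h1).1
  have h4 := (abs_le.1 h2).1
  have h5 : |w| * k ^ 3 ≤ |w| * k ^ 2 := mul_le_mul_of_nonneg_left k23 hw0
  linarith

end IST43

end
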