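import Pool.Agent.IST43.Wgt4

/-!
# Weights of the dual expansion: the quotient on two lines and in the strip

`QW = Λ Ω^m Ω(. + y) Ω(. - y)`.  On the axis and on the line `cos = 4/5` it is `≤ KQ exp (- m k² / 10)`,
`k = 1 / cosh (Re z)` (`Q_axis`, `Q_line`).
-/

set_option autoImplicit false

noncomputable section

open Real

namespace IST43

variable {ι : Type*}

/-- the quotient -/
def QW (s : Finset ι) (x : ι → ℂ) (m : ℕ) (y : ℝ) (z : ℂ) : ℂ :=
  Lam s x z * (Om z ^ m * (Om (z + y) * Om (z - y)))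

theorem arg_row (u φ : ℝ) (a : ℂ) : (u : ℂ) + (φ : ℂ) * Complex.I + a * Complex.I =
    ((u - a.im : ℝ) : ℂ) + ((φ + a.re : ℝ) : ℂ) * Complex.I := by
  apply Complex.ext
  · simp
    ring
  · simp
    
/-! ## the crude bound of one factor -/

def kapW : ℝ := 1 + Real.cos (19 * π / 20)

theorem kapW_pos : 0 < kapW ∧ kapW ≤ 1 := by
  have hpi := Real.pi_pos
  constructor
  · have h := Real.cos_lt_cos_of_nonneg_of_le_pi (x := 19 * π / 20) (y := π) (by positivity) le_rfl (by linarith)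
    rw [Real.cos_pi] at h
    unfold kapW
    linarith
  · have h := Real.cos_nonpos_of_pi_div_two_le_of_le (x := 19 * π / 20) (by linarith) (by linarith)
    unfold kapW
    linarith

theorem cos_pm {θ : ℝ} (h : |θ| ≤ 47 * π / 60) :
    kapW - 1 ≤ Real.cos (θ + π / 6) ∧ kapW - 1 ≤ Real.cos (θ - π / 6) := by
  obtain ⟨h1, h2⟩ := abs_le.1 h
  have hpi := Real.pi_pos
  have key : ∀ t : ℝ, |t| ≤ 19 * π / 20 → kapW - 1 ≤ Real.cos t := by
    intro t ht
    have := Real.cos_le_cos_of_nonneg_of_le_pi (abs_nonneg t) (by linarith) ht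
    rw [Real.cos_abs] at this
    unfold kapW
    linarith
  exact ⟨key _ (abs_le.2 ⟨by linarith, by linarith⟩), key _ (abs_le.2 ⟨by linarith, by linarith⟩)⟩

theorem tau_den {u θ : ℝ} (h : |θ| ≤ 47 * π / 60) :
    2 * kapW * Real.cosh u ≤ ‖2 * Complex.cosh ((u : ℂ) + (θ : ℂ) * Complex.I) + ((√3 : ℝ) : ℂ)‖ := by
  obtain ⟨c1, c2⟩ := cos_pm h
  obtain ⟨k1, k2⟩ := kapW_pos
  have hC := Real.one_le_cosh u
  have h3 : √3 ^ 2 = 3 := Real.sq_sqrt (by norm_num)
  have hn := normSq_pm u θ (√3) h3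
  have e : Real.cosh u ^ 2 + √3 * Real.cosh u * Real.cos θ + (Real.cos θ ^ 2 - 1 / 4) =
      (Real.cosh u + Real.cos (θ + π / 6)) * (Real.cosh u + Real.cos (θ - π / 6)) := by
    rw [Real.cos_add, Real.cos_sub, Real.cos_pi_div_six, Real.sin_pi_div_six]
    have h4 : Real.sin θ ^ 2 = 1 - Real.cos θ ^ 2 := by
      have := Real.sin_sq_add_cos_sq θ
      linarith
    linear_combination (-Real.cos θ ^ 2 / 4) * h3 + (1 / 4) * h4
  rw [e, Complex.normSq_eq_norm_sq] at hn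
  have b1 : kapW * Real.cosh u ≤ Real.cosh u + Real.cos (θ + π / 6) := by nlinarith
  have b2 : kapW * Real.cosh u ≤ Real.cosh u + Real.cos (θ - π / 6) := by nlinarith
  have hk : 0 ≤ kapW * Real.cosh u := by positivity
  refine le_of_sq_le_sq ?_ (norm_nonneg _)
  rw [hn]
  have := mul_le_mul b1 b2 hk (hk.trans b1)
  nlinarith

theorem tau_den_ne' {u θ : ℝ} (h : |θ| ≤ 47 * π / 60) :
    2 * Complex.cosh ((u : ℂ) + (θ : ℂ) * Complex.I) + ((√3 : ℝ) : ℂ) ≠ 0 := by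
  intro h0
  have h1 := tau_den (u := u) h
  rw [h0, norm_zero] at h1
  have := mul_pos (mul_pos two_pos kapW_pos.1) (Real.cosh_pos u)
  linarith

theorem tau_sub_one {u θ : ℝ} (h : |θ| ≤ 47 * π / 60) :
    ‖tau ((u : ℂ) + (θ : ℂ) * Complex.I) - 1‖ ≤ 2 / kapW * (1 / Real.cosh u) := by
  have h1 := tau_den (u := u) h
  have h2 := tau_den_ne' (u := u) h
  obtain ⟨k1, k2⟩ := kapW_pos
  have hC := Real.cosh_pos u
  have e : tau ((u : ℂ) + (θ : ℂ) * Complex.I) - 1 =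
      -(2 * ((√3 : ℝ) : ℂ)) / (2 * Complex.cosh ((u : ℂ) + (θ : ℂ) * Complex.I) + ((√3 : ℝ) : ℂ)) := by
    unfold tau
    rw [div_sub_one h2]
    congr 1
    ring
  rw [e, norm_div, norm_neg, norm_mul, Complex.norm_real, Real.norm_of_nonneg (by positivity)]
  simp only [Complex.norm_ofNat]
  have hs := s3_lt
  calc 2 * √3 / ‖2 * Complex.cosh ((u : ℂ) + (θ : ℂ) * Complex.I) + ((√3 : ℝ) : ℂ)‖ ≤
        4 / (2 * kapW * Real.cosh u) :=
        div_le_div₀ (by norm_num) (by linarith) (by positivity) h1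
    _ = _ := by
        field_simp
        norm_num

theorem tau_crude {u θ : ℝ} (h : |θ| ≤ 47 * π / 60) : ‖tau ((u : ℂ) + (θ : ℂ) * Complex.I)‖ ≤ 1 + 2 / kapW := by
  have h1 := tau_sub_one (u := u) h
  have hk := inv_cosh_mem u
  have h2 : 0 ≤ 2 / kapW := by have := kapW_pos.1; positivity
  have h3 : ‖tau ((u : ℂ) + (θ : ℂ) * Complex.I)‖ ≤ ‖tau ((u : ℂ) + (θ : ℂ) * Complex.I) - 1‖ + 1 := by
    have := norm_add_le (tau ((u : ℂ) + (θ : ℂ) * Complex.I) - 1) 1
    simpa using this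
  have h4 : 2 / kapW * (1 / Real.cosh u) ≤ 2 / kapW * 1 := mul_le_mul_of_nonneg_left hk.2 h2
  linarith

/-! ## the ordinary rows -/

/-- ordinary rows -/
def ord (s : Finset ι) (x : ι → ℂ) : Finset ι := s.filter fun j => |(x j).im| ≤ 1 / 10

/-- special rows -/
def spe (s : Finset ι) (x : ι → ℂ) : Finset ι := s.filter fun j => ¬|(x j).im| ≤ 1 / 10

theorem sum_split (s : Finset ι) (x : ι → ℂ) (f : ι → ℝ) :
    ∑ j ∈ ord s x, f j = ∑ j ∈ s, f j - ∑ j ∈ spe s x, f j := by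
  have := Finset.sum_filter_add_sum_filter_not s (fun j => |(x j).im| ≤ 1 / 10) f
  unfold ord spe
  linarith

theorem cosh_two_le : Real.cosh 2 ≤ 4 := by
  have h1 := Real.exp_one_lt_d9
  have h2 : Real.exp 2 = Real.exp 1 ^ 2 := by
    rw [← Real.exp_nat_mul]
    norm_num
  have h3 : Real.exp 2 ≤ 7.4 := by
    rw [h2]
    have := Real.exp_pos 1
    nlinarith
  have h4 : Real.exp (-2) * Real.exp 2 = 1 := by
    rw [← Real.exp_add]
    norm_num
  have h5 := Real.add_one_le_exp (2 : ℝ)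
  have h6 : Real.exp (-2) ≤ 1 / 3 := by nlinarith [Real.exp_pos (-2 : ℝ)]
  rw [Real.cosh_eq]
  norm_num at h3 h6 ⊢
  linarith

theorem cosh_le4 {w : ℝ} (h : |w| ≤ 2) : Real.cosh w ≤ 4 ∧ |Real.sinh w| ≤ 4 := by
  have h1 : Real.cosh w ≤ 4 := by
    refine le_trans ?_ cosh_two_le
    exact Real.cosh_le_cosh.2 (by rw [abs_two]; exact h)
  refine ⟨h1, ?_⟩
  refine le_trans ?_ h1
  rw [abs_le]
  constructor
  · have := Real.sinh_lt_cosh (-w)
    rw [Real.sinh_neg, Real.cosh_neg] at this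
    linarith
  · exact (Real.sinh_lt_cosh w).le

theorem spe_bound {s : Finset ι} {x : ι → ℂ} {m : ℕ} {y : ℝ} (G : Grp s x m y) {f : ι → ℝ}
    (hf : ∀ j ∈ s, |f j| ≤ 4) : |∑ j ∈ spe s x, f j| ≤ 16 := by
  have h1 : ((spe s x).card : ℝ) ≤ 4 := by
    have := G.spc
    unfold spe
    exact_mod_cast this
  calc |∑ j ∈ spe s x, f j| ≤ ∑ j ∈ spe s x, |f j| := Finset.abs_sum_le_sum_abs _ _
    _ ≤ ∑ j ∈ spe s x, (4 : ℝ) := Finset.sum_le_sum fun j hj => hf j (Finset.mem_filter.1 hj).1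
    _ = (spe s x).card * 4 := by rw [Finset.sum_const, nsmul_eq_mul]
    _ ≤ 16 := by linarith

/-- rows with `∑` of losses -/
theorem sum_loss {s : Finset ι} {x : ι → ℂ} {m : ℕ} {y : ℝ} (G : Grp s x m y) {d b : ℝ} (hd0 : 0 ≤ d)
    (hd1 : d ≤ 1 / 2) (hb0 : 0 ≤ b) (hb1 : b ≤ 27 / 250) (u φ : ℝ)
    (hV : 0 ≤ Real.cos φ * (2 * at1 (√3 / 2) (1 / Real.cosh u) - d * JW (1 / Real.cosh u)) +
      Real.sin φ * (-b * JW (1 / Real.cosh u))) :
    m * (Real.cos φ * (2 * at1 (√3 / 2) (1 / Real.cosh u) - d * JW (1 / Real.cosh u)) +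
      Real.sin φ * (-b * JW (1 / Real.cosh u))) - m / 10 * (1 / Real.cosh u) ^ 2 - 408 ≤
    ∑ j ∈ ord s x, (Real.cos (φ + (x j).re) * (2 * at1 (√3 / 2) (1 / Real.cosh (u - (x j).im)) -
        d * JW (1 / Real.cosh (u - (x j).im))) +
      Real.sin (φ + (x j).re) * (-b * JW (1 / Real.cosh (u - (x j).im)))) := by
  obtain ⟨r1, r2, r3, r4⟩ := G.rules
  have hkk := inv_cosh_mem u
  have hspe : ∀ j ∈ s, |Real.cosh (x j).im * Real.cos (x j).re| ≤ 4 ∧
      |Real.sinh (x j).im * Real.cos (x j).re| ≤ 4 ∧ |Real.cosh (x j).im * Real.sin (x j).re| ≤ 4 ∧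
      |Real.sinh (x j).im * Real.sin (x j).re| ≤ 4 := by
    intro j hj
    obtain ⟨c1, c2⟩ := cosh_le4 (G.im_le j hj)
    have c1' : |Real.cosh (x j).im| ≤ 4 := by rw [abs_of_pos (Real.cosh_pos _)]; exact c1
    have k1 := Real.abs_cos_le_one (x j).re
    have k2 := Real.abs_sin_le_one (x j).re
    refine ⟨?_, ?_, ?_, ?_⟩ <;> rw [abs_mul]
    · have := mul_le_mul c1' k1 (abs_nonneg _) (by norm_num)
      linarith
    · have := mul_le_mul c2 k1 (abs_nonneg _) (by norm_num)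
      linarith
    · have := mul_le_mul c1' k2 (abs_nonneg _) (by norm_num)
      linarith
    · have := mul_le_mul c2 k2 (abs_nonneg _) (by norm_num)
      linarith
  obtain ⟨g1, g1'⟩ : ∃ c : ℝ, |c| ≤ 16 ∧ ∑ j ∈ ord s x, Real.cosh (x j).im * Real.cos (x j).re =
      m + 2 * Real.cosh y - c := ⟨_, spe_bound G fun j hj => (hspe j hj).1, by rw [sum_split, r1]⟩
  obtain ⟨g2, g2'⟩ : ∃ c : ℝ, |c| ≤ 16 ∧ ∑ j ∈ ord s x, Real.sinh (x j).im * Real.cos (x j).re =
      0 - c := ⟨_, spe_bound G fun j hj => (hspe j hj).2.1, by rw [sum_split, r2]⟩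
  obtain ⟨g3, g3'⟩ : ∃ c : ℝ, |c| ≤ 16 ∧ ∑ j ∈ ord s x, Real.cosh (x j).im * Real.sin (x j).re =
      0 - c := ⟨_, spe_bound G fun j hj => (hspe j hj).2.2.1, by rw [sum_split, r3]⟩
  obtain ⟨g4, g4'⟩ : ∃ c : ℝ, |c| ≤ 16 ∧ ∑ j ∈ ord s x, Real.sinh (x j).im * Real.sin (x j).re =
      0 - c := ⟨_, spe_bound G fun j hj => (hspe j hj).2.2.2, by rw [sum_split, r4]⟩
  obtain ⟨a1, e1⟩ := g1'
  obtain ⟨a2, e2⟩ := g2'
  obtain ⟨a3, e3⟩ := g3'
  obtain ⟨a4, e4⟩ := g4'
  set k := 1 / Real.cosh u with hk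
  set T := Real.sinh u / Real.cosh u with hT
  set A := 2 * at1 (√3 / 2) k - d * JW k with hA
  set B := -b * JW k with hB
  -- sizes
  have hs3 := s3_lt
  have h3p : 0 < √3 := by positivity
  have hTb : |T| ≤ 1 := by
    rw [hT, abs_div, abs_of_pos (Real.cosh_pos u), div_le_one (Real.cosh_pos u), abs_le]
    constructor
    · have := Real.sinh_lt_cosh (-u)
      rw [Real.sinh_neg, Real.cosh_neg] at this
      linarith
    · exact (Real.sinh_lt_cosh u).le
  have hAb : |A| ≤ 8 := by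
    have A3 := lip_al hd0 hd1 (le_refl 0) hkk.1.le hkk.1.le (le_refl k) hkk.2
    simp only [at1_zero, JW_zero, mul_zero, sub_zero] at A3
    rw [abs_of_pos hkk.1, ← hA] at A3
    have h2 : |A| ≤ |A - √3 * k| + |√3 * k| := by
      have := abs_add_le (A - √3 * k) (√3 * k)
      simpa using this
    have h3 : |√3 * k| ≤ 9 / 5 := by
      rw [abs_of_pos (mul_pos h3p hkk.1)]
      nlinarith [hkk.1, hkk.2]
    have h4 : 6 * k ^ 2 * k ≤ 6 := by
      have : k ^ 2 * k ≤ 1 := by nlinarith [hkk.1, hkk.2, sq_nonneg k]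
      linarith
    linarith
  have hBb : |B| ≤ 1 := by
    have A4 := lip_JW (le_refl 0) hkk.1.le hkk.1.le (le_refl k) hkk.2
    simp only [JW_zero, sub_zero] at A4
    rw [abs_of_pos hkk.1] at A4
    have h4 : 8 * k ^ 2 * k ≤ 8 := by
      have : k ^ 2 * k ≤ 1 := by nlinarith [hkk.1, hkk.2, sq_nonneg k]
      linarith
    rw [hB, abs_mul, abs_neg, abs_of_nonneg hb0]
    have := mul_le_mul hb1 (A4.trans h4) (abs_nonneg _) (by norm_num)
    linarith
  have hkT : |√3 * k * T| ≤ 2 := by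
    rw [abs_mul, abs_of_pos (mul_pos h3p hkk.1)]
    have : √3 * k ≤ 1.8 := by nlinarith [hkk.1, hkk.2]
    have := mul_le_mul this hTb (abs_nonneg _) (by norm_num)
    linarith
  have hcs := Real.abs_cos_le_one φ
  have hsn := Real.abs_sin_le_one φ
  -- products bounded
  have mb : ∀ p q P Q : ℝ, |p| ≤ P → |q| ≤ Q → |p * q| ≤ P * Q := by
    intro p q P Q h1 h2
    rw [abs_mul]
    exact mul_le_mul h1 h2 (abs_nonneg _) ((abs_nonneg _).trans h1)
  have hrow : ∀ j ∈ ord s x,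
      (√3 * k * (Real.cosh (x j).im + T * Real.sinh (x j).im) * Real.cos (φ + (x j).re) +
        Real.cosh (x j).im * (Real.cos (φ + (x j).re) * (A - √3 * k) + Real.sin (φ + (x j).re) * B)) -
        14 * |(x j).im| * k ^ 2 ≤
      Real.cos (φ + (x j).re) * (2 * at1 (√3 / 2) (1 / Real.cosh (u - (x j).im)) -
        d * JW (1 / Real.cosh (u - (x j).im))) +
      Real.sin (φ + (x j).re) * (-b * JW (1 / Real.cosh (u - (x j).im))) := fun j hj =>
    row_loss hd0 hd1 hb0 hb1 (Finset.mem_filter.1 hj).2 (Real.abs_cos_le_one _) (Real.abs_sin_le_one _)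
  refine le_trans ?_ (Finset.sum_le_sum hrow)
  have e : ∑ j ∈ ord s x, ((√3 * k * (Real.cosh (x j).im + T * Real.sinh (x j).im) * Real.cos (φ + (x j).re) +
        Real.cosh (x j).im * (Real.cos (φ + (x j).re) * (A - √3 * k) + Real.sin (φ + (x j).re) * B)) -
        14 * |(x j).im| * k ^ 2) =
      (m + 2 * Real.cosh y) * (Real.cos φ * A + Real.sin φ * B) -
        ((Real.cos φ * A + Real.sin φ * B) * g1 + (Real.cos φ * B - Real.sin φ * A) * g3 +
        (√3 * k * T) * (Real.cos φ * g2) - (√3 * k * T) * (Real.sin φ * g4)) -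
        14 * k ^ 2 * ∑ j ∈ ord s x, |(x j).im| := by
    have h1 : ∀ j ∈ ord s x, ((√3 * k * (Real.cosh (x j).im + T * Real.sinh (x j).im) * Real.cos (φ + (x j).re) +
        Real.cosh (x j).im * (Real.cos (φ + (x j).re) * (A - √3 * k) + Real.sin (φ + (x j).re) * B)) -
        14 * |(x j).im| * k ^ 2) =
        (Real.cos φ * A + Real.sin φ * B) * (Real.cosh (x j).im * Real.cos (x j).re) +
        (Real.cos φ * B - Real.sin φ * A) * (Real.cosh (x j).im * Real.sin (x j).re) +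
        (√3 * k * T * Real.cos φ) * (Real.sinh (x j).im * Real.cos (x j).re) -
        (√3 * k * T * Real.sin φ) * (Real.sinh (x j).im * Real.sin (x j).re) -
        14 * k ^ 2 * |(x j).im| := by
      intro j _
      rw [Real.cos_add, Real.sin_add]
      ring
    rw [Finset.sum_congr rfl h1, Finset.sum_sub_distrib, Finset.sum_sub_distrib, Finset.sum_add_distrib,
      Finset.sum_add_distrib, ← Finset.mul_sum, ← Finset.mul_sum, ← Finset.mul_sum, ← Finset.mul_sum,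
      ← Finset.mul_sum, e1, e2, e3, e4]
    ring
  rw [e]
  have h2 : 14 * k ^ 2 * ∑ j ∈ ord s x, |(x j).im| ≤ 14 * k ^ 2 * (m / 140 + 4) :=
    mul_le_mul_of_nonneg_left G.im_sum (by positivity)
  have h3 : 0 ≤ 2 * Real.cosh y * (Real.cos φ * A + Real.sin φ * B) :=
    mul_nonneg (by have := Real.cosh_pos y; positivity) hV
  have h4 : 14 * k ^ 2 * ((m : ℝ) / 140 + 4) = m / 10 * k ^ 2 + 56 * k ^ 2 := by ring
  have h5 : k ^ 2 ≤ 1 := by nlinarith [hkk.1, hkk.2]
  have p1 := mb _ _ _ _ hcs hAb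
  have p2 := mb _ _ _ _ hsn hBb
  have p3 := mb _ _ _ _ hcs hBb
  have p4 := mb _ _ _ _ hsn hAb
  have q1 : |Real.cos φ * A + Real.sin φ * B| ≤ 9 := (abs_add_le _ _).trans (by linarith)
  have q2 : |Real.cos φ * B - Real.sin φ * A| ≤ 9 := (abs_sub _ _).trans (by linarith)
  have t1 := abs_le.1 (mb _ _ _ _ q1 a1)
  have t2 := abs_le.1 (mb _ _ _ _ q2 a3)
  have t3 := abs_le.1 (mb _ _ _ _ hkT (mb _ _ _ _ hcs a2))
  have t4 := abs_le.1 (mb _ _ _ _ hkT (mb _ _ _ _ hsn a4))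
  nlinarith [h2, h3, h4, h5, t1.2, t2.2, t3.2, t4.1]

theorem norm_Lam {s : Finset ι} {x : ι → ℂ} {m : ℕ} {y : ℝ} (G : Grp s x m y) {u φ : ℝ} (hφ : |φ| ≤ 11 * π / 30)
    {g : ι → ℝ} (h : ∀ j ∈ ord s x,
      ‖tau (((u - (x j).im : ℝ) : ℂ) + ((φ + (x j).re : ℝ) : ℂ) * Complex.I)‖ ≤ Real.exp (-g j)) :
    ‖Lam s x ((u : ℂ) + (φ : ℂ) * Complex.I)‖ ≤ (1 + 2 / kapW) ^ 4 * Real.exp (-∑ j ∈ ord s x, g j) := by
  unfold Lam
  rw [norm_prod, ← Finset.prod_filter_mul_prod_filter_not s (fun j => |(x j).im| ≤ 1 / 10), mul_comm]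
  have hk : 1 ≤ 1 + 2 / kapW := by
    have : 0 ≤ 2 / kapW := by have := kapW_pos.1; positivity
    linarith
  have h1 : ∏ j ∈ s.filter (fun j => ¬|(x j).im| ≤ 1 / 10),
      ‖tau ((u : ℂ) + (φ : ℂ) * Complex.I + x j * Complex.I)‖ ≤ (1 + 2 / kapW) ^ 4 := by
    calc _ ≤ ∏ _j ∈ s.filter (fun j => ¬|(x j).im| ≤ 1 / 10), (1 + 2 / kapW) := by
          refine Finset.prod_le_prod (fun j _ => norm_nonneg _) fun j hj => ?_
          rw [arg_row]
          refine tau_crude ?_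
          refine (abs_add_le _ _).trans ?_
          have := G.re_le j (Finset.mem_filter.1 hj).1
          linarith
      _ = (1 + 2 / kapW) ^ (s.filter (fun j => ¬|(x j).im| ≤ 1 / 10)).card := by
          rw [Finset.prod_const]
      _ ≤ _ := pow_le_pow_right₀ hk G.spc
  have h2 : ∏ j ∈ s.filter (fun j => |(x j).im| ≤ 1 / 10),
      ‖tau ((u : ℂ) + (φ : ℂ) * Complex.I + x j * Complex.I)‖ ≤ Real.exp (-∑ j ∈ ord s x, g j) := by
    rw [← Finset.sum_neg_distrib, Real.exp_sum]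
    refine Finset.prod_le_prod (fun j _ => norm_nonneg _) fun j hj => ?_
    rw [arg_row]
    exact h j hj
  exact mul_le_mul h1 h2 (Finset.prod_nonneg fun j _ => norm_nonneg _) (by positivity)

/-- the constant of the quotient -/
def KQ : ℝ := (1 + 2 / kapW) ^ 4 * Real.exp 408 * 49

theorem KQ_ge : 49 ≤ KQ := by
  have hk : 1 ≤ 1 + 2 / kapW := by
    have : 0 ≤ 2 / kapW := by have := kapW_pos.1; positivity
    linarith
  have h1 : 1 ≤ (1 + 2 / kapW) ^ 4 := one_le_pow₀ hk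
  have h2 : 1 ≤ Real.exp 408 := Real.one_le_exp (by norm_num)
  unfold KQ
  nlinarith

theorem two_Om {u φ y : ℝ} (h : InS φ) :
    ‖Om ((u : ℂ) + (φ : ℂ) * Complex.I + y) * Om ((u : ℂ) + (φ : ℂ) * Complex.I - y)‖ ≤ 49 := by
  have e1 : (u : ℂ) + (φ : ℂ) * Complex.I + y = ((u + y : ℝ) : ℂ) + (φ : ℂ) * Complex.I := by
    push_cast
    ring
  have e2 : (u : ℂ) + (φ : ℂ) * Complex.I - y = ((u - y : ℝ) : ℂ) + (φ : ℂ) * Complex.I := by
    push_cast
    ring
  rw [e1, e2, norm_mul]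
  have h1 := Om_le (u := u + y) h
  have h2 := Om_le (u := u - y) h
  calc _ ≤ 7 * 7 := mul_le_mul h1 h2 (norm_nonneg _) (by norm_num)
    _ = 49 := by norm_num

/-- **the line `cos = 4/5`** -/
theorem Q_line {s : Finset ι} {x : ι → ℂ} {m : ℕ} {y : ℝ} (G : Grp s x m y) (u : ℝ) :
    ‖QW s x m y ((u : ℂ) + (ph1 : ℂ) * Complex.I)‖ ≤ KQ * Real.exp (-(m / 10 * (1 / Real.cosh u) ^ 2)) := by
  have hk := inv_cosh_mem u
  have hV := VW_ge hk.1.le hk.2
  have hL := LW_nonneg hk.1.le hk.2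
  have hm : (0 : ℝ) ≤ m := Nat.cast_nonneg m
  have hV' : VW (1 / Real.cosh u) = Real.cos ph1 * (2 * at1 (√3 / 2) (1 / Real.cosh u) -
      21 / 5000 * JW (1 / Real.cosh u)) + Real.sin ph1 * (-(27 / 250) * JW (1 / Real.cosh u)) := by
    rw [cos_ph1, sin_ph1]
    unfold VW alW beW
    ring
  have hS := sum_loss G (d := 21 / 5000) (b := 27 / 250) (by norm_num) (by norm_num) (by norm_num) le_rfl u ph1
    (by rw [← hV']; nlinarith [sq_nonneg (1 / Real.cosh u)])
  rw [← hV'] at hS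
  have hph : |ph1| ≤ 11 * π / 30 := by
    rw [abs_of_pos ph1_pos]
    have := ph1_le
    have := Real.pi_pos
    linarith
  have hLam := norm_Lam G (u := u) hph (g := fun j =>
    Real.cos (ph1 + (x j).re) * (2 * at1 (√3 / 2) (1 / Real.cosh (u - (x j).im)) -
        21 / 5000 * JW (1 / Real.cosh (u - (x j).im))) +
      Real.sin (ph1 + (x j).re) * (-(27 / 250) * JW (1 / Real.cosh (u - (x j).im)))) fun j hj => by
    exact row_dom (u := u - (x j).im) (inR_of (G.re_le j (Finset.mem_filter.1 hj).1))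
  have hO := norm_Om_line u
  have h49 := two_Om (u := u) (φ := ph1) (y := y) (by unfold InS; rw [abs_of_pos ph1_pos])
  unfold QW
  rw [norm_mul, norm_mul, norm_pow, hO, ← Real.exp_nat_mul]
  have hkp := kapW_pos.1
  calc _ ≤ ((1 + 2 / kapW) ^ 4 * Real.exp (-(m * VW (1 / Real.cosh u) - m / 10 * (1 / Real.cosh u) ^ 2 - 408))) *
        (Real.exp (m * LW (1 / Real.cosh u)) * 49) := by
        refine mul_le_mul (hLam.trans (mul_le_mul_of_nonneg_left (Real.exp_le_exp.2 (neg_le_neg hS))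
          (by positivity))) ?_ (by positivity) (by positivity)
        exact mul_le_mul_of_nonneg_left h49 (Real.exp_pos _).le
    _ = KQ * Real.exp (-(m * VW (1 / Real.cosh u) - m / 10 * (1 / Real.cosh u) ^ 2) +
        m * LW (1 / Real.cosh u)) := by
        have e1 : -(m * VW (1 / Real.cosh u) - m / 10 * (1 / Real.cosh u) ^ 2 - 408) =
          408 + -(m * VW (1 / Real.cosh u) - m / 10 * (1 / Real.cosh u) ^ 2) := by ring
        rw [e1, Real.exp_add, Real.exp_add]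
        unfold KQ
        ring
    _ ≤ _ := by
        refine mul_le_mul_of_nonneg_left (Real.exp_le_exp.2 ?_) (by have := KQ_ge; linarith)
        have := mul_le_mul_of_nonneg_left hV hm
        linarith

theorem norm_b0_axis (u : ℝ) : ‖b0 (u : ℂ)‖ ≤ Real.exp (-(16 / 21 * (1 / Real.cosh u) ^ 2)) := by
  have hC1 : 1 ≤ Real.cosh u := Real.one_le_cosh u
  set C := Real.cosh u with hC
  have hC0 : 0 < C := by linarith
  have e : b0 (u : ℂ) = ((1 - 16 / (20 * C ^ 2 + 1) : ℝ) : ℂ) := by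
    unfold b0
    have hc : Complex.cosh (u : ℂ) = ((C : ℝ) : ℂ) := by simp [hC]
    have d2 : (20 * (C : ℂ) ^ 2 + 1) ≠ 0 := by
      have : (20 * (C : ℂ) ^ 2 + 1) = ((20 * C ^ 2 + 1 : ℝ) : ℂ) := by
        push_cast
        rfl
      rw [this]
      exact Complex.ofReal_ne_zero.2 (by positivity)
    rw [hc]
    push_cast
    field_simp
    ring
  have h1 : 16 / (20 * C ^ 2 + 1) ≤ 1 := by
    rw [div_le_one (by positivity)]
    nlinarith
  have h2 : 16 / 21 * (1 / C) ^ 2 ≤ 16 / (20 * C ^ 2 + 1) := by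
    have e2 : 16 / 21 * (1 / C) ^ 2 = 16 / (21 * C ^ 2) := by
      field_simp
    rw [e2]
    exact div_le_div_of_nonneg_left (by norm_num) (by positivity) (by nlinarith)
  rw [e, Complex.norm_real, Real.norm_of_nonneg (by linarith)]
  have := Real.add_one_le_exp (-(16 / 21 * (1 / C) ^ 2))
  linarith

/-- **the axis** -/
theorem Q_axis {s : Finset ι} {x : ι → ℂ} {m : ℕ} {y : ℝ} (G : Grp s x m y) (u : ℝ) :
    ‖QW s x m y ((u : ℂ) + ((0 : ℝ) : ℂ) * Complex.I)‖ ≤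
      KQ * Real.exp (-(m / 10 * (1 / Real.cosh u) ^ 2)) := by
  have hk := inv_cosh_mem u
  have hm : (0 : ℝ) ≤ m := Nat.cast_nonneg m
  have hJ := JW_le hk.1.le hk.2
  set k := 1 / Real.cosh u with hkd
  have hk5 : k ^ 5 ≤ k ^ 2 := pow_le_pow_of_le_one hk.1.le hk.2 (by norm_num)
  have hat : 0 ≤ 2 * at1 (√3 / 2) k - 2 / 5 * JW k := by
    have h3 := s3_lt
    have h3p : 0 < √3 := by positivity
    have p2 : 0 < 1 - k * (√3 / 2) := by nlinarith [hk.1, hk.2]
    have h1 : 0 ≤ at1 (√3 / 2) k := by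
      unfold at1
      have := Real.log_le_log p2 (show 1 - k * (√3 / 2) ≤ 1 + k * (√3 / 2) by nlinarith [hk.1, hk.2])
      linarith
    have h2 : JW k ≤ 32 / 9 * at1 (√3 / 2) k := by
      unfold JW
      have : 0 ≤ √3 * (4 / 9 * k ^ 3 + 16 / 9 * k) := by have := hk.1; positivity
      linarith
    linarith
  have hS := sum_loss G (d := 2 / 5) (b := 0) (by norm_num) (by norm_num) le_rfl (by norm_num) u 0
    (by rw [Real.cos_zero, Real.sin_zero, one_mul, zero_mul, add_zero]; exact hat)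
  rw [Real.cos_zero, Real.sin_zero, one_mul, zero_mul, add_zero, ← hkd] at hS
  have hph : |(0 : ℝ)| ≤ 11 * π / 30 := by
    rw [abs_zero]
    have := Real.pi_pos
    positivity
  have hLam := norm_Lam G (u := u) hph (g := fun j =>
    Real.cos (0 + (x j).re) * (2 * at1 (√3 / 2) (1 / Real.cosh (u - (x j).im)) -
        2 / 5 * JW (1 / Real.cosh (u - (x j).im))) +
      Real.sin (0 + (x j).re) * (-0 * JW (1 / Real.cosh (u - (x j).im)))) fun j hj => by
    have := row_ax (u := u - (x j).im) (θ := 0 + (x j).re) (by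
      rw [zero_add]
      exact cos_ge_quarter (G.re_le j (Finset.mem_filter.1 hj).1))
    rw [neg_zero, zero_mul, mul_zero, add_zero]
    exact this
  have h49 := two_Om (u := u) (φ := 0) (y := y) (by unfold InS; rw [abs_zero]; exact ph1_pos.le)
  have hb := b0_axis u
  rw [tauR_eq] at hb
  have hO : ‖Om ((u : ℂ) + ((0 : ℝ) : ℂ) * Complex.I)‖ ≤
      Real.exp (2 * at1 (√3 / 2) k - 16 / 21 * k ^ 2) := by
    have e : (u : ℂ) + ((0 : ℝ) : ℂ) * Complex.I = (u : ℂ) := by simp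
    rw [e]
    have h1 : ‖Om (u : ℂ)‖ = Real.exp (2 * at1 (√3 / 2) k) * ‖b0 (u : ℂ)‖ := by
      rw [hb, ← mul_assoc, ← Real.exp_add, ← hkd, add_neg_cancel, Real.exp_zero, one_mul]
    rw [h1, sub_eq_add_neg, Real.exp_add]
    exact mul_le_mul_of_nonneg_left (norm_b0_axis u) (Real.exp_pos _).le
  unfold QW
  rw [norm_mul, norm_mul, norm_pow]
  have hkp := kapW_pos.1
  calc _ ≤ ((1 + 2 / kapW) ^ 4 * Real.exp (-(m * (2 * at1 (√3 / 2) k - 2 / 5 * JW k) - m / 10 * k ^ 2 - 408))) *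
        (Real.exp (2 * at1 (√3 / 2) k - 16 / 21 * k ^ 2) ^ m * 49) := by
        refine mul_le_mul (hLam.trans (mul_le_mul_of_nonneg_left (Real.exp_le_exp.2 (neg_le_neg hS))
          (by positivity))) ?_ (by positivity) (by positivity)
        exact mul_le_mul (pow_le_pow_left₀ (norm_nonneg _) hO m) h49 (norm_nonneg _) (by positivity)
    _ = KQ * Real.exp (-(m * (2 * at1 (√3 / 2) k - 2 / 5 * JW k) - m / 10 * k ^ 2) +
        m * (2 * at1 (√3 / 2) k - 16 / 21 * k ^ 2)) := by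
        have e1 : -(m * (2 * at1 (√3 / 2) k - 2 / 5 * JW k) - m / 10 * k ^ 2 - 408) =
          408 + -(m * (2 * at1 (√3 / 2) k - 2 / 5 * JW k) - m / 10 * k ^ 2) := by ring
        rw [e1, Real.exp_add, Real.exp_add, Real.exp_nat_mul]
        unfold KQ
        ring
    _ ≤ _ := by
        refine mul_le_mul_of_nonneg_left (Real.exp_le_exp.2 ?_) (by have := KQ_ge; linarith)
        have h1 : 2 / 5 * JW k + k ^ 2 / 5 ≤ 16 / 21 * k ^ 2 := by nlinarith [hJ.2, sq_nonneg k]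
        have := mul_le_mul_of_nonneg_left h1 hm
        linarith

end IST43

end
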