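import Pool.Agent.IST43.Wgt5

/-!
# Weights of the dual expansion: the wide strip

For `|Im z| ≤ 66` degrees the quotient `QW` and the weight `bW` are holomorphic and `1 + O(e^{-|Re z|})`, with
constants `A^N`.
-/

set_option autoImplicit false

noncomputable section

open Real

namespace IST43

variable {ι : Type*}

/-! ## products of factors near one -/

/-- `P` is a product of `p` factors near one -/
def Near (B x : ℝ) (p : ℕ) (P : ℂ) : Prop := ‖P - 1‖ ≤ (B ^ p - 1) * x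

theorem Near.mul {B x : ℝ} (hB : 1 ≤ B) (hx0 : 0 ≤ x) (hx1 : x ≤ 1) {p q : ℕ} {P Q : ℂ} (hP : Near B x p P)
    (hQ : Near B x q Q) : Near B x (p + q) (P * Q) := by
  unfold Near at *
  have hp : 1 ≤ B ^ p := one_le_pow₀ hB
  have hq : 1 ≤ B ^ q := one_le_pow₀ hB
  have e : P * Q - 1 = (P - 1) * (Q - 1) + (P - 1) + (Q - 1) := by ring
  rw [e, pow_add]
  have h1 : ‖(P - 1) * (Q - 1)‖ ≤ ((B ^ p - 1) * x) * ((B ^ q - 1) * x) := by
    rw [norm_mul]
    exact mul_le_mul hP hQ (norm_nonneg _) (by nlinarith)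
  have h2 : ((B ^ p - 1) * x) * ((B ^ q - 1) * x) ≤ (B ^ p - 1) * (B ^ q - 1) * x := by
    have : 0 ≤ (B ^ p - 1) * (B ^ q - 1) * x := by
      have h3 : 0 ≤ B ^ p - 1 := by linarith
      have h4 : 0 ≤ B ^ q - 1 := by linarith
      positivity
    nlinarith
  calc ‖(P - 1) * (Q - 1) + (P - 1) + (Q - 1)‖ ≤ ‖(P - 1) * (Q - 1)‖ + ‖P - 1‖ + ‖Q - 1‖ := norm_add₃_le
    _ ≤ (B ^ p - 1) * (B ^ q - 1) * x + (B ^ p - 1) * x + (B ^ q - 1) * x := by linarith
    _ = _ := by ring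

theorem Near.one {B x : ℝ} : Near B x 0 1 := by
  unfold Near
  simp

theorem Near.pow {B x : ℝ} (hB : 1 ≤ B) (hx0 : 0 ≤ x) (hx1 : x ≤ 1) {P : ℂ} (hP : Near B x 1 P) (n : ℕ) :
    Near B x n (P ^ n) := by
  induction n with
  | zero => simpa using Near.one
  | succ n ih =>
    rw [pow_succ]
    exact ih.mul hB hx0 hx1 hP

theorem Near.prod {B x : ℝ} (hB : 1 ≤ B) (hx0 : 0 ≤ x) (hx1 : x ≤ 1) (s : Finset ι) {P : ι → ℂ}
    (hP : ∀ j ∈ s, Near B x 1 (P j)) : Near B x s.card (∏ j ∈ s, P j) := by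
  classical
  induction s using Finset.induction_on with
  | empty => simpa using Near.one
  | insert a s ha ih =>
    rw [Finset.prod_insert ha, Finset.card_insert_of_notMem ha, add_comm s.card 1]
    exact (hP a (Finset.mem_insert_self a s)).mul hB hx0 hx1
      (ih fun j hj => hP j (Finset.mem_insert_of_mem hj))

/-! ## the factors -/

def kosW : ℝ := Real.cos (11 * π / 30)

theorem kosW_pos : 0 < kosW ∧ kosW ≤ 1 := by
  have hpi := Real.pi_pos
  exact ⟨Real.cos_pos_of_mem_Ioo ⟨by linarith, by linarith⟩, Real.cos_le_one _⟩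

theorem wide_den {u φ : ℝ} (h : |φ| ≤ 11 * π / 30) :
    20 * kosW ^ 2 * Real.cosh u ^ 2 ≤ ‖20 * Complex.cosh ((u : ℂ) + (φ : ℂ) * Complex.I) ^ 2 + 1‖ := by
  have hpi := Real.pi_pos
  have hcos : kosW ≤ Real.cos φ := by
    have := Real.cos_le_cos_of_nonneg_of_le_pi (abs_nonneg φ) (by linarith) h
    rw [Real.cos_abs] at this
    exact this
  obtain ⟨k1, k2⟩ := kosW_pos
  set r : ℝ := √(1 / 20) with hr
  have hr2 : r ^ 2 = 1 / 20 := Real.sq_sqrt (by norm_num)
  have hrc : ((r : ℝ) : ℂ) ^ 2 = 1 / 20 := by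
    rw [← Complex.ofReal_pow, hr2]
    norm_num
  set Z := Complex.cosh ((u : ℂ) + (φ : ℂ) * Complex.I) with hZ
  have e : 20 * Z ^ 2 + 1 = 20 * ((Z - r * Complex.I) * (Z + r * Complex.I)) := by
    have : (Z - r * Complex.I) * (Z + r * Complex.I) = Z ^ 2 - (r : ℂ) ^ 2 * Complex.I ^ 2 := by ring
    rw [this, hrc, Complex.I_sq]
    ring
  have hre : ∀ t : ℝ, kosW * Real.cosh u ≤ ‖Z + (t : ℂ) * Complex.I‖ := by
    intro t
    refine le_trans ?_ (Complex.re_le_norm _)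
    rw [hZ, cosh_parts]
    have er : ((((Real.cosh u * Real.cos φ : ℝ) : ℂ) + ((Real.sinh u * Real.sin φ : ℝ) : ℂ) * Complex.I) +
        (t : ℂ) * Complex.I).re = Real.cosh u * Real.cos φ := by
      rw [Complex.add_re, Complex.add_re, Complex.ofReal_re, Complex.re_ofReal_mul, Complex.re_ofReal_mul,
        Complex.I_re]
      ring
    rw [er]
    nlinarith [Real.cosh_pos u]
  have h1 := hre (-r)
  have h2 := hre r
  have e3 : Z + ((-r : ℝ) : ℂ) * Complex.I = Z - r * Complex.I := by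
    push_cast
    ring
  rw [e3] at h1
  rw [e, norm_mul, norm_mul]
  simp only [Complex.norm_ofNat]
  have := mul_le_mul h1 h2 (by have := Real.cosh_pos u; positivity) (norm_nonneg _)
  nlinarith

theorem wide_den_ne {u φ : ℝ} (h : |φ| ≤ 11 * π / 30) :
    20 * Complex.cosh ((u : ℂ) + (φ : ℂ) * Complex.I) ^ 2 + 1 ≠ 0 := by
  intro h0
  have h1 := wide_den (u := u) h
  rw [h0, norm_zero] at h1
  have := mul_pos (mul_pos (show (0 : ℝ) < 20 by norm_num) (pow_pos kosW_pos.1 2)) (pow_pos (Real.cosh_pos u) 2)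
  linarith

theorem b0_sub_one {u φ : ℝ} (h : |φ| ≤ 11 * π / 30) :
    ‖b0 ((u : ℂ) + (φ : ℂ) * Complex.I) - 1‖ ≤ 3 / kosW ^ 2 * (1 / Real.cosh u) := by
  have h1 := wide_den (u := u) h
  have h2 := wide_den_ne (u := u) h
  obtain ⟨k1, k2⟩ := kosW_pos
  have hC := Real.one_le_cosh u
  have e : b0 ((u : ℂ) + (φ : ℂ) * Complex.I) - 1 =
      -16 / (20 * Complex.cosh ((u : ℂ) + (φ : ℂ) * Complex.I) ^ 2 + 1) := by
    unfold b0
    rw [div_sub_one h2]
    congr 1
    ring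
  rw [e, norm_div, norm_neg]
  simp only [Complex.norm_ofNat]
  calc 16 / ‖20 * Complex.cosh ((u : ℂ) + (φ : ℂ) * Complex.I) ^ 2 + 1‖ ≤
        (60 * Real.cosh u) / (20 * kosW ^ 2 * Real.cosh u ^ 2) :=
        div_le_div₀ (by positivity) (by linarith) (by positivity) h1
    _ = _ := by
        field_simp
        norm_num

theorem Om_sub_one {u φ : ℝ} (h : |φ| ≤ 11 * π / 30) :
    ‖Om ((u : ℂ) + (φ : ℂ) * Complex.I) - 1‖ ≤ 3 / kosW ^ 2 * (1 / Real.cosh u) := by
  have h1 := wide_den (u := u) h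
  have h2 := wide_den_ne (u := u) h
  obtain ⟨k1, k2⟩ := kosW_pos
  have hC := Real.one_le_cosh u
  have hs := s3_lt
  set Z := Complex.cosh ((u : ℂ) + (φ : ℂ) * Complex.I) with hZ
  have e : Om ((u : ℂ) + (φ : ℂ) * Complex.I) - 1 =
      (20 * ((√3 : ℝ) : ℂ) * Z + 14) / (20 * Z ^ 2 + 1) := by
    unfold Om
    rw [div_sub_one h2]
    congr 1
    linear_combination 5 * s3c
  have h3 : ‖20 * ((√3 : ℝ) : ℂ) * Z + 14‖ ≤ 60 * Real.cosh u := by
    refine (norm_add_le _ _).trans ?_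
    rw [norm_mul, norm_mul, Complex.norm_real, Real.norm_of_nonneg (by positivity)]
    simp only [Complex.norm_ofNat]
    have h4 := norm_cosh_le u φ
    have h5 : 20 * √3 * ‖Z‖ ≤ 20 * 1.8 * Real.cosh u :=
      mul_le_mul (by linarith) h4 (norm_nonneg _) (by norm_num)
    linarith
  rw [e, norm_div]
  calc ‖20 * ((√3 : ℝ) : ℂ) * Z + 14‖ / ‖20 * Z ^ 2 + 1‖ ≤
        (60 * Real.cosh u) / (20 * kosW ^ 2 * Real.cosh u ^ 2) :=
        div_le_div₀ (by positivity) h3 (by positivity) h1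
    _ = _ := by
        field_simp
        norm_num

/-- the uniform constant -/
def AW : ℝ := 1 + 15 * (2 / kapW + 3 / kosW ^ 2)

theorem AW_ge : 1 ≤ AW := by
  have h1 := kapW_pos.1
  have h2 := kosW_pos.1
  unfold AW
  have : 0 ≤ 15 * (2 / kapW + 3 / kosW ^ 2) := by positivity
  linarith

theorem inv_cosh_le {u w : ℝ} (hw : |w| ≤ 1) : 1 / Real.cosh (u + w) ≤ 6 * Real.exp (-|u|) := by
  have h1 : Real.exp |u + w| / 2 ≤ Real.cosh (u + w) := by
    rw [← Real.cosh_abs (u + w), Real.cosh_eq]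
    have := Real.exp_pos (-|u + w|)
    linarith
  have h2 : |u| - 1 ≤ |u + w| := by
    have := abs_sub_abs_le_abs_sub u (-w)
    rw [abs_neg, sub_neg_eq_add] at this
    linarith
  have h3 : Real.exp (|u| - 1) ≤ Real.exp |u + w| := Real.exp_le_exp.2 h2
  have h4 : Real.exp (|u| - 1) * Real.exp 1 = Real.exp |u| := by
    rw [← Real.exp_add]
    congr 1
    ring
  have h5 : Real.exp 1 < 3 := by
    have := Real.exp_one_lt_d9
    linarith
  have h6 : Real.exp |u| ≤ 3 * Real.exp (|u| - 1) := by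
    rw [← h4]
    nlinarith [Real.exp_pos (|u| - 1)]
  have hp := Real.exp_pos |u|
  rw [Real.exp_neg, div_le_iff₀ (Real.cosh_pos _)]
  have h7 : Real.exp |u| ≤ 6 * Real.cosh (u + w) := by linarith
  rw [mul_assoc, ← div_eq_inv_mul, ← mul_div_assoc, le_div_iff₀ hp]
  linarith

theorem inv_cosh_le2 {u w : ℝ} (hw : |w| ≤ 2) : 1 / Real.cosh (u + w) ≤ 15 * Real.exp (-|u|) := by
  have h1 : Real.exp |u + w| / 2 ≤ Real.cosh (u + w) := by
    rw [← Real.cosh_abs (u + w), Real.cosh_eq]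
    have := Real.exp_pos (-|u + w|)
    linarith
  have h2 : |u| - 2 ≤ |u + w| := by
    have := abs_sub_abs_le_abs_sub u (-w)
    rw [abs_neg, sub_neg_eq_add] at this
    linarith
  have h3 : Real.exp (|u| - 2) ≤ Real.exp |u + w| := Real.exp_le_exp.2 h2
  have h4 : Real.exp (|u| - 2) * Real.exp 2 = Real.exp |u| := by
    rw [← Real.exp_add]
    congr 1
    ring
  have h5 : Real.exp 2 < 15 / 2 := by
    have h6 : Real.exp 2 = Real.exp 1 ^ 2 := by
      rw [← Real.exp_nat_mul]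
      norm_num
    rw [h6]
    have := Real.exp_one_lt_d9
    have := Real.exp_pos 1
    nlinarith
  have h6 : Real.exp |u| ≤ 15 / 2 * Real.exp (|u| - 2) := by
    rw [← h4]
    nlinarith [Real.exp_pos (|u| - 2)]
  have hp := Real.exp_pos |u|
  rw [Real.exp_neg, div_le_iff₀ (Real.cosh_pos _)]
  have h7 : Real.exp |u| ≤ 15 * Real.cosh (u + w) := by linarith
  rw [mul_assoc, ← div_eq_inv_mul, ← mul_div_assoc, le_div_iff₀ hp]
  linarith

theorem near_of {P : ℂ} {u w a : ℝ} (hw : |w| ≤ 2) (ha : a ≤ 2 / kapW + 3 / kosW ^ 2) (ha0 : 0 ≤ a)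
    (h : ‖P - 1‖ ≤ a * (1 / Real.cosh (u + w))) : Near AW (Real.exp (-|u|)) 1 P := by
  unfold Near
  rw [pow_one]
  have h1 := inv_cosh_le2 (u := u) hw
  have hp := Real.exp_pos (-|u|)
  calc ‖P - 1‖ ≤ a * (15 * Real.exp (-|u|)) := h.trans (mul_le_mul_of_nonneg_left h1 ha0)
    _ = (15 * a) * Real.exp (-|u|) := by ring
    _ ≤ _ := by
        refine mul_le_mul_of_nonneg_right ?_ hp.le
        unfold AW
        linarith

theorem cst_le : 2 / kapW ≤ 2 / kapW + 3 / kosW ^ 2 ∧ 3 / kosW ^ 2 ≤ 2 / kapW + 3 / kosW ^ 2 ∧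
    0 ≤ 2 / kapW ∧ 0 ≤ 3 / kosW ^ 2 := by
  have h1 := kapW_pos.1
  have h2 := kosW_pos.1
  have h3 : 0 ≤ 2 / kapW := by positivity
  have h4 : 0 ≤ 3 / kosW ^ 2 := by positivity
  exact ⟨by linarith, by linarith, h3, h4⟩

theorem near_row {u φ : ℝ} {a : ℂ} (h : |φ| ≤ 11 * π / 30) (hr : |a.re| ≤ 5 * π / 12) (hi : |a.im| ≤ 2) :
    Near AW (Real.exp (-|u|)) 1 (tau ((u : ℂ) + (φ : ℂ) * Complex.I + a * Complex.I)) := by
  rw [arg_row]
  have hθ : |φ + a.re| ≤ 47 * π / 60 := by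
    refine (abs_add_le _ _).trans ?_
    linarith
  have h1 := tau_sub_one (u := u - a.im) hθ
  rw [sub_eq_add_neg u] at h1 ⊢
  exact near_of (w := -a.im) (by rw [abs_neg]; exact hi) cst_le.1 cst_le.2.2.1 h1

theorem near_Om {u φ w : ℝ} (h : |φ| ≤ 11 * π / 30) (hw : |w| ≤ 1) :
    Near AW (Real.exp (-|u|)) 1 (Om ((u : ℂ) + (φ : ℂ) * Complex.I + w)) := by
  have e1 : (u : ℂ) + (φ : ℂ) * Complex.I + w = ((u + w : ℝ) : ℂ) + (φ : ℂ) * Complex.I := by
    push_cast
    ring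
  rw [e1]
  exact near_of (hw.trans one_le_two) cst_le.2.1 cst_le.2.2.2 (Om_sub_one h)

theorem near_b0 {u φ w : ℝ} (h : |φ| ≤ 11 * π / 30) (hw : |w| ≤ 1) :
    Near AW (Real.exp (-|u|)) 1 (b0 ((u : ℂ) + (φ : ℂ) * Complex.I + w)) := by
  have e1 : (u : ℂ) + (φ : ℂ) * Complex.I + w = ((u + w : ℝ) : ℂ) + (φ : ℂ) * Complex.I := by
    push_cast
    ring
  rw [e1]
  exact near_of (hw.trans one_le_two) cst_le.2.1 cst_le.2.2.2 (b0_sub_one h)

/-- the zero carrying weight -/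
def bW (m : ℕ) (y : ℝ) (z : ℂ) : ℂ := b0 z ^ m * (b0 (z + y) * b0 (z - y))

/-- the small weight -/
def etaW (s : Finset ι) (x : ι → ℂ) (m : ℕ) (y : ℝ) (z : ℂ) : ℂ := QW s x m y z - bW m y z

theorem near_QW {s : Finset ι} {x : ι → ℂ} {m : ℕ} {y : ℝ} (hre : ∀ j ∈ s, |(x j).re| ≤ 5 * π / 12)
    (him : ∀ j ∈ s, |(x j).im| ≤ 2) (hy : |y| ≤ 1) {u φ : ℝ} (h : |φ| ≤ 11 * π / 30) :
    Near AW (Real.exp (-|u|)) (s.card + (m + (1 + 1))) (QW s x m y ((u : ℂ) + (φ : ℂ) * Complex.I)) := by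
  have hB := AW_ge
  have hx0 := (Real.exp_pos (-|u|)).le
  have hx1 : Real.exp (-|u|) ≤ 1 := Real.exp_le_one_iff.2 (neg_nonpos.2 (abs_nonneg u))
  unfold QW Lam
  refine (Near.prod hB hx0 hx1 s fun j hj => near_row h (hre j hj) (him j hj)).mul hB hx0 hx1 ?_
  refine Near.mul hB hx0 hx1 ?_ (Near.mul hB hx0 hx1 (near_Om h hy) ?_)
  · refine Near.pow hB hx0 hx1 ?_ m
    have := near_Om (u := u) (w := 0) h (by norm_num)
    simpa using this
  · have := near_Om (u := u) (w := -y) h (by rw [abs_neg]; exact hy)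
    rw [sub_eq_add_neg]
    simpa using this

theorem near_bW {m : ℕ} {y : ℝ} (hy : |y| ≤ 1) {u φ : ℝ} (h : |φ| ≤ 11 * π / 30) :
    Near AW (Real.exp (-|u|)) (m + (1 + 1)) (bW m y ((u : ℂ) + (φ : ℂ) * Complex.I)) := by
  have hB := AW_ge
  have hx0 := (Real.exp_pos (-|u|)).le
  have hx1 : Real.exp (-|u|) ≤ 1 := Real.exp_le_one_iff.2 (neg_nonpos.2 (abs_nonneg u))
  unfold bW
  refine Near.mul hB hx0 hx1 ?_ (Near.mul hB hx0 hx1 (near_b0 h hy) ?_)
  · refine Near.pow hB hx0 hx1 ?_ m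
    have := near_b0 (u := u) (w := 0) h (by norm_num)
    simpa using this
  · have := near_b0 (u := u) (w := -y) h (by rw [abs_neg]; exact hy)
    rw [sub_eq_add_neg]
    simpa using this

/-- **D1**: the crude bound in the wide strip -/
theorem etaW_crude {s : Finset ι} {x : ι → ℂ} {m : ℕ} {y : ℝ} (hre : ∀ j ∈ s, |(x j).re| ≤ 5 * π / 12)
    (him : ∀ j ∈ s, |(x j).im| ≤ 2) (hy : |y| ≤ 1) {u φ : ℝ} (h : |φ| ≤ 11 * π / 30) :
    ‖etaW s x m y ((u : ℂ) + (φ : ℂ) * Complex.I)‖ ≤ (2 * AW) ^ (s.card + m + 2) * Real.exp (-|u|) := by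
  have hB := AW_ge
  have h1 := near_QW (m := m) hre him hy (u := u) h
  have h2 := near_bW (m := m) hy (u := u) h
  unfold Near at h1 h2
  have hp := Real.exp_pos (-|u|)
  have e : etaW s x m y ((u : ℂ) + (φ : ℂ) * Complex.I) =
      (QW s x m y ((u : ℂ) + (φ : ℂ) * Complex.I) - 1) - (bW m y ((u : ℂ) + (φ : ℂ) * Complex.I) - 1) := by
    unfold etaW
    ring
  have h3 : AW ^ (m + (1 + 1)) ≤ AW ^ (s.card + m + 2) := pow_le_pow_right₀ hB (by omega)
  have h4 : AW ^ (s.card + (m + (1 + 1))) = AW ^ (s.card + m + 2) := by congr 1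
  have h5 : (2 : ℝ) ≤ 2 ^ (s.card + m + 2) := by
    calc (2 : ℝ) = 2 ^ 1 := by norm_num
      _ ≤ 2 ^ (s.card + m + 2) := pow_le_pow_right₀ (by norm_num) (by omega)
  rw [e, mul_pow]
  refine (norm_sub_le _ _).trans ?_
  rw [h4] at h1
  have h6 : 0 ≤ AW ^ (s.card + m + 2) := by positivity
  have h7 : 2 * AW ^ (s.card + m + 2) ≤ 2 ^ (s.card + m + 2) * AW ^ (s.card + m + 2) :=
    mul_le_mul_of_nonneg_right h5 h6
  have h8 : 2 * AW ^ (s.card + m + 2) * Real.exp (-|u|) ≤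
      2 ^ (s.card + m + 2) * AW ^ (s.card + m + 2) * Real.exp (-|u|) := mul_le_mul_of_nonneg_right h7 hp.le
  have h9 : (AW ^ (m + (1 + 1)) - 1) * Real.exp (-|u|) ≤ AW ^ (s.card + m + 2) * Real.exp (-|u|) :=
    mul_le_mul_of_nonneg_right (by linarith) hp.le
  have h10 : (AW ^ (s.card + m + 2) - 1) * Real.exp (-|u|) ≤ AW ^ (s.card + m + 2) * Real.exp (-|u|) :=
    mul_le_mul_of_nonneg_right (by linarith) hp.le
  linarith

/-! ## holomorphy -/

theorem diff_tau {z : ℂ} (h : 2 * Complex.cosh z + ((√3 : ℝ) : ℂ) ≠ 0) : DifferentiableAt ℂ tau z := by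
  unfold tau
  exact ((Complex.differentiable_cosh z).const_mul 2 |>.sub_const _).div
    ((Complex.differentiable_cosh z).const_mul 2 |>.add_const _) h

theorem diff_Om {z : ℂ} (h : 20 * Complex.cosh z ^ 2 + 1 ≠ 0) : DifferentiableAt ℂ Om z := by
  unfold Om
  have hc := Complex.differentiable_cosh z
  exact (((hc.const_mul 2).add_const _).pow 2 |>.const_mul 5).div (((hc.pow 2).const_mul 20).add_const _) h

theorem diff_b0 {z : ℂ} (h : 20 * Complex.cosh z ^ 2 + 1 ≠ 0) : DifferentiableAt ℂ b0 z := by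
  unfold b0
  have hc := Complex.differentiable_cosh z
  exact (((hc.pow 2).const_mul 20).sub_const _).div (((hc.pow 2).const_mul 20).add_const _) h

theorem diff_QW {s : Finset ι} {x : ι → ℂ} {m : ℕ} {y : ℝ} (hre : ∀ j ∈ s, |(x j).re| ≤ 5 * π / 12) {z : ℂ}
    (h : |z.im| ≤ 11 * π / 30) : DifferentiableAt ℂ (QW s x m y) z := by
  have hz : z = (z.re : ℂ) + (z.im : ℂ) * Complex.I := (Complex.re_add_im z).symm
  have hO : ∀ w : ℝ, DifferentiableAt ℂ (fun z => Om (z + w)) z := by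
    intro w
    have e1 : z + w = ((z.re + w : ℝ) : ℂ) + (z.im : ℂ) * Complex.I := by
      conv_lhs => rw [hz]
      push_cast
      ring
    have := diff_Om (z := z + w) (by rw [e1]; exact wide_den_ne h)
    exact DifferentiableAt.comp z (g := Om) (f := fun z => z + (w : ℂ)) this
      (differentiableAt_id.add_const _)
  unfold QW Lam
  refine DifferentiableAt.mul ?_ (DifferentiableAt.mul ?_ (DifferentiableAt.mul (hO y) ?_))
  · refine DifferentiableAt.fun_finsetProd fun j hj => ?_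
    have hθ : |z.im + (x j).re| ≤ 47 * π / 60 := by
      refine (abs_add_le _ _).trans ?_
      have := hre j hj
      linarith
    have : DifferentiableAt ℂ tau (z + x j * Complex.I) := by
      refine diff_tau ?_
      conv in z + x j * Complex.I => rw [hz]
      rw [arg_row]
      exact tau_den_ne' hθ
    exact DifferentiableAt.comp z (g := tau) (f := fun z => z + x j * Complex.I) this
      (differentiableAt_id.add_const _)
  · have := hO 0
    simp only [Complex.ofReal_zero, add_zero] at this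
    exact this.pow m
  · have := hO (-y)
    simp only [Complex.ofReal_neg, ← sub_eq_add_neg] at this
    exact this

theorem diff_bW {m : ℕ} {y : ℝ} {z : ℂ} (h : |z.im| ≤ 11 * π / 30) : DifferentiableAt ℂ (bW m y) z := by
  have hz : z = (z.re : ℂ) + (z.im : ℂ) * Complex.I := (Complex.re_add_im z).symm
  have hO : ∀ w : ℝ, DifferentiableAt ℂ (fun z => b0 (z + w)) z := by
    intro w
    have e1 : z + w = ((z.re + w : ℝ) : ℂ) + (z.im : ℂ) * Complex.I := by
      conv_lhs => rw [hz]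
      push_cast
      ring
    have := diff_b0 (z := z + w) (by rw [e1]; exact wide_den_ne h)
    exact DifferentiableAt.comp z (g := b0) (f := fun z => z + (w : ℂ)) this
      (differentiableAt_id.add_const _)
  unfold bW
  refine DifferentiableAt.mul ?_ (DifferentiableAt.mul (hO y) ?_)
  · have := hO 0
    simp only [Complex.ofReal_zero, add_zero] at this
    exact this.pow m
  · have := hO (-y)
    simp only [Complex.ofReal_neg, ← sub_eq_add_neg] at this
    exact this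

theorem diff_etaW {s : Finset ι} {x : ι → ℂ} {m : ℕ} {y : ℝ} (hre : ∀ j ∈ s, |(x j).re| ≤ 5 * π / 12) {z : ℂ}
    (h : |z.im| ≤ 11 * π / 30) : DifferentiableAt ℂ (etaW s x m y) z :=
  (diff_QW hre h).sub (diff_bW h)

end IST43

end
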