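import Pool.Agent.IST43.Wgt6

/-!
# Weights of the dual expansion: the maximum principle

`‖QW‖ ≤ KQ exp (- m k² / 80)` for `|Im z| ≤ arccos (4/5)`, `k = 1 / cosh (Re z)`.
-/

set_option autoImplicit false

noncomputable section

open Real

namespace IST43

variable {ι : Type*}

theorem ph1_wide {φ : ℝ} (h : InS φ) : |φ| ≤ 11 * π / 30 := by
  have := ph1_le
  have hpi := Real.pi_pos
  unfold InS at h
  linarith

theorem cosh_ne {u φ : ℝ} (h : InS φ) : Complex.cosh ((u : ℂ) + (φ : ℂ) * Complex.I) ≠ 0 := by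
  intro h0
  have h1 := normSq_cosh u φ
  have h2 := sin_sq_le h
  have h3 := Real.one_le_cosh u
  rw [h0, norm_zero] at h1
  nlinarith

/-- the comparison function -/
def cmpW (s : Finset ι) (x : ι → ℂ) (m : ℕ) (y : ℝ) (z : ℂ) : ℂ :=
  QW s x m y z * Complex.exp (((m / 20 : ℝ) : ℂ) * (1 / Complex.cosh z ^ 2))

theorem norm_cmpW (s : Finset ι) (x : ι → ℂ) (m : ℕ) (y : ℝ) (z : ℂ) :
    ‖cmpW s x m y z‖ = ‖QW s x m y z‖ * Real.exp (m / 20 * (1 / Complex.cosh z ^ 2).re) := by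
  unfold cmpW
  rw [norm_mul, Complex.norm_exp, Complex.re_ofReal_mul]

theorem cmpW_of_line {s : Finset ι} {x : ι → ℂ} {m : ℕ} {y u φ : ℝ} (h : InS φ)
    (hQ : ‖QW s x m y ((u : ℂ) + (φ : ℂ) * Complex.I)‖ ≤ KQ * Real.exp (-(m / 10 * (1 / Real.cosh u) ^ 2))) :
    ‖cmpW s x m y ((u : ℂ) + (φ : ℂ) * Complex.I)‖ ≤ KQ := by
  have hm : (0 : ℝ) ≤ m := Nat.cast_nonneg m
  have h1 := inv_cosh_sq_upper (u := u) h
  rw [norm_cmpW]
  have hKQ := KQ_ge
  calc _ ≤ (KQ * Real.exp (-(m / 10 * (1 / Real.cosh u) ^ 2))) *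
        Real.exp (m / 20 * (2 * (1 / Real.cosh u) ^ 2)) :=
        mul_le_mul hQ (Real.exp_le_exp.2 (mul_le_mul_of_nonneg_left h1 (by positivity)))
          (Real.exp_pos _).le (mul_nonneg (by linarith) (Real.exp_pos _).le)
    _ = KQ := by
        rw [mul_assoc, ← Real.exp_add]
        have : -((m : ℝ) / 10 * (1 / Real.cosh u) ^ 2) + m / 20 * (2 * (1 / Real.cosh u) ^ 2) = 0 := by ring
        rw [this, Real.exp_zero, mul_one]

theorem strip_upper {s : Finset ι} {x : ι → ℂ} {m : ℕ} {y : ℝ} (G : Grp s x m y) (hy : |y| ≤ 1) {z : ℂ}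
    (h0 : 0 ≤ z.im) (h1 : z.im ≤ ph1) : ‖cmpW s x m y z‖ ≤ KQ := by
  have hpp := ph1_pos
  have hIn : ∀ φ : ℝ, 0 ≤ φ → φ ≤ ph1 → InS φ := fun φ a b => by
    unfold InS
    rw [abs_of_nonneg a]
    exact b
  have hz : ∀ z : ℂ, z = (z.re : ℂ) + (z.im : ℂ) * Complex.I := fun z => (Complex.re_add_im z).symm
  have hm : (0 : ℝ) ≤ m := Nat.cast_nonneg m
  refine PhragmenLindelof.horizontal_strip (a := 0) (b := ph1) (C := KQ) (f := cmpW s x m y) ?_ ?_ ?_ ?_ h0 h1
  · refine DifferentiableOn.diffContOnCl fun w hw => ?_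
    have hw' : 0 ≤ w.im ∧ w.im ≤ ph1 := by
      have : closure (Complex.im ⁻¹' Set.Ioo 0 ph1) ⊆ Complex.im ⁻¹' Set.Icc 0 ph1 := by
        refine closure_minimal ?_ (isClosed_Icc.preimage Complex.continuous_im)
        intro v hv
        exact ⟨hv.1.le, hv.2.le⟩
      exact this hw
    have hI := hIn w.im hw'.1 hw'.2
    refine DifferentiableAt.differentiableWithinAt ?_
    unfold cmpW
    refine DifferentiableAt.mul (diff_QW G.re_le (ph1_wide hI)) ?_
    have hc : Complex.cosh w ^ 2 ≠ 0 := by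
      rw [hz w]
      exact pow_ne_zero 2 (cosh_ne hI)
    exact (((differentiableAt_const _).div ((Complex.differentiable_cosh w).pow 2) hc).const_mul _).cexp
  · refine ⟨0, by positivity, 0, ?_⟩
    refine Asymptotics.IsBigO.of_bound ((AW ^ (s.card + (m + (1 + 1))) + 1) * Real.exp (m / 10)) ?_
    refine Filter.eventually_inf_principal.2 (Filter.Eventually.of_forall fun w hw => ?_)
    have hI := hIn w.im hw.1.le hw.2.le
    rw [zero_mul, Real.exp_zero, norm_one, mul_one, norm_cmpW]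
    have hn := near_QW (m := m) G.re_le G.im_le hy (u := w.re) (ph1_wide hI)
    rw [← hz w] at hn
    unfold Near at hn
    have hx1 : Real.exp (-|w.re|) ≤ 1 := Real.exp_le_one_iff.2 (neg_nonpos.2 (abs_nonneg _))
    have hB : 1 ≤ AW ^ (s.card + (m + (1 + 1))) := one_le_pow₀ AW_ge
    have hq : ‖QW s x m y w‖ ≤ AW ^ (s.card + (m + (1 + 1))) + 1 := by
      have h2 : ‖QW s x m y w‖ ≤ ‖QW s x m y w - 1‖ + 1 := by
        have := norm_add_le (QW s x m y w - 1) 1
        simpa using this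
      have h3 : (AW ^ (s.card + (m + (1 + 1))) - 1) * Real.exp (-|w.re|) ≤
          (AW ^ (s.card + (m + (1 + 1))) - 1) * 1 := mul_le_mul_of_nonneg_left hx1 (by linarith)
      linarith
    refine mul_le_mul hq (Real.exp_le_exp.2 ?_) (Real.exp_pos _).le (by positivity)
    have h4 := inv_cosh_sq_upper (u := w.re) hI
    rw [← hz w] at h4
    have hk := inv_cosh_mem w.re
    have h5 : (1 / Real.cosh w.re) ^ 2 ≤ 1 := by nlinarith [hk.1, hk.2]
    calc (m : ℝ) / 20 * (1 / Complex.cosh w ^ 2).re ≤ m / 20 * 2 :=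
          mul_le_mul_of_nonneg_left (by linarith) (by positivity)
      _ = m / 10 := by ring
  · intro w hw
    have := cmpW_of_line (hIn 0 le_rfl hpp.le) (Q_axis G w.re)
    rw [hz w, hw]
    exact this
  · intro w hw
    have := cmpW_of_line (hIn ph1 hpp.le le_rfl) (Q_line G w.re)
    rw [hz w, hw]
    exact this

theorem Q_strip_upper {s : Finset ι} {x : ι → ℂ} {m : ℕ} {y : ℝ} (G : Grp s x m y) (hy : |y| ≤ 1) {u φ : ℝ}
    (h0 : 0 ≤ φ) (h1 : φ ≤ ph1) :
    ‖QW s x m y ((u : ℂ) + (φ : ℂ) * Complex.I)‖ ≤ KQ * Real.exp (-(m / 80 * (1 / Real.cosh u) ^ 2)) := by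
  have hI : InS φ := by
    unfold InS
    rw [abs_of_nonneg h0]
    exact h1
  have hm : (0 : ℝ) ≤ m := Nat.cast_nonneg m
  have h := strip_upper G hy (z := (u : ℂ) + (φ : ℂ) * Complex.I) (by simpa using h0) (by simpa using h1)
  rw [norm_cmpW] at h
  have h2 := inv_cosh_sq_lower (u := u) hI
  have h3 : Real.exp (m / 80 * (1 / Real.cosh u) ^ 2) ≤
      Real.exp (m / 20 * (1 / Complex.cosh ((u : ℂ) + (φ : ℂ) * Complex.I) ^ 2).re) := by
    refine Real.exp_le_exp.2 ?_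
    calc (m : ℝ) / 80 * (1 / Real.cosh u) ^ 2 = m / 20 * ((1 / Real.cosh u) ^ 2 / 4) := by ring
      _ ≤ _ := mul_le_mul_of_nonneg_left h2 (by positivity)
  have h4 := mul_le_mul_of_nonneg_left h3 (norm_nonneg (QW s x m y ((u : ℂ) + (φ : ℂ) * Complex.I)))
  rw [Real.exp_neg, ← div_eq_mul_inv, le_div_iff₀ (Real.exp_pos _)]
  exact h4.trans h

/-! ## conjugation -/

theorem tauW_conj (z : ℂ) : tau ((starRingEnd ℂ) z) = (starRingEnd ℂ) (tau z) := by
  unfold tau
  rw [map_div₀, map_sub, map_add, map_mul, Complex.conj_ofReal, Complex.cosh_conj, map_ofNat]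

theorem Om_conj (z : ℂ) : Om ((starRingEnd ℂ) z) = (starRingEnd ℂ) (Om z) := by
  unfold Om
  rw [map_div₀, map_add, map_mul, map_mul, map_pow, map_pow, map_add, map_mul, Complex.conj_ofReal,
    Complex.cosh_conj, map_ofNat, map_ofNat, map_ofNat, map_one]

theorem b0_conj (z : ℂ) : b0 ((starRingEnd ℂ) z) = (starRingEnd ℂ) (b0 z) := by
  unfold b0
  rw [map_div₀, map_add, map_sub, map_mul, map_pow, Complex.cosh_conj, map_ofNat, map_ofNat, map_one]

/-- the reflected group -/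
def refl (x : ι → ℂ) (j : ι) : ℂ := -(starRingEnd ℂ) (x j)

theorem Grp.refl {s : Finset ι} {x : ι → ℂ} {m : ℕ} {y : ℝ} (G : Grp s x m y) : Grp s (refl x) m y := by
  have e : ∀ j, (IST43.refl x j).im = (x j).im := fun j => by simp [IST43.refl]
  refine ⟨fun j hj => ?_, fun j hj => ?_, ?_, ?_, ?_, ?_⟩
  · have := G.re_le j hj
    simpa [IST43.refl] using this
  · rw [e]
    exact G.im_le j hj
  · simp only [e]
    exact G.spc
  · simp only [e]
    exact G.im_sum
  · have h := congrArg (starRingEnd ℂ) G.pos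
    rw [map_sum, Complex.conj_ofReal] at h
    rw [← h]
    refine Finset.sum_congr rfl fun j _ => ?_
    rw [← Complex.exp_conj, map_mul, Complex.conj_I]
    unfold IST43.refl
    ring_nf
  · have h := congrArg (starRingEnd ℂ) G.neg
    rw [map_sum, Complex.conj_ofReal] at h
    rw [← h]
    refine Finset.sum_congr rfl fun j _ => ?_
    rw [← Complex.exp_conj, map_neg, map_mul, Complex.conj_I]
    unfold IST43.refl
    ring_nf

theorem QW_conj (s : Finset ι) (x : ι → ℂ) (m : ℕ) (y : ℝ) (z : ℂ) :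
    QW s x m y ((starRingEnd ℂ) z) = (starRingEnd ℂ) (QW s (refl x) m y z) := by
  unfold QW Lam
  rw [map_mul, map_prod, map_mul, map_pow, map_mul, ← Om_conj, ← Om_conj, ← Om_conj, map_add, map_sub,
    Complex.conj_ofReal]
  congr 1
  refine Finset.prod_congr rfl fun j _ => ?_
  rw [← tauW_conj]
  congr 1
  unfold refl
  rw [map_add, map_mul, map_neg, Complex.conj_conj, Complex.conj_I]
  ring

/-- **the quotient in the strip** -/
theorem Q_strip {s : Finset ι} {x : ι → ℂ} {m : ℕ} {y : ℝ} (G : Grp s x m y) (hy : |y| ≤ 1) {u φ : ℝ}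
    (h : |φ| ≤ ph1) :
    ‖QW s x m y ((u : ℂ) + (φ : ℂ) * Complex.I)‖ ≤ KQ * Real.exp (-(m / 80 * (1 / Real.cosh u) ^ 2)) := by
  obtain ⟨h1, h2⟩ := abs_le.1 h
  rcases le_total 0 φ with h0 | h0
  · exact Q_strip_upper G hy h0 h2
  · have e : (u : ℂ) + (φ : ℂ) * Complex.I = (starRingEnd ℂ) ((u : ℂ) + ((-φ : ℝ) : ℂ) * Complex.I) := by
      rw [map_add, map_mul, Complex.conj_ofReal, Complex.conj_ofReal, Complex.conj_I]
      push_cast
      ring
    rw [e, QW_conj, RCLike.norm_conj]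
    exact Q_strip_upper G.refl hy (by linarith) (by linarith)

/-- the zero carrying weight in the strip -/
theorem norm_bW_le {m : ℕ} {y u φ : ℝ} (h : |φ| ≤ ph1) :
    ‖bW m y ((u : ℂ) + (φ : ℂ) * Complex.I)‖ ≤ Real.exp (-(m / 5 * (1 / Real.cosh u) ^ 2)) := by
  have hb : ∀ w : ℝ, ‖b0 ((u : ℂ) + (φ : ℂ) * Complex.I + w)‖ ≤ 1 := by
    intro w
    have e1 : (u : ℂ) + (φ : ℂ) * Complex.I + w = ((u + w : ℝ) : ℂ) + (φ : ℂ) * Complex.I := by
      push_cast
      ring
    rw [e1]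
    refine (norm_b0_le h).trans (Real.exp_le_one_iff.2 ?_)
    have : 0 ≤ (1 / Real.cosh (u + w)) ^ 2 / 5 := by positivity
    linarith
  have h1 := hb y
  have h2 := hb (-y)
  rw [Complex.ofReal_neg, ← sub_eq_add_neg] at h2
  unfold bW
  rw [norm_mul, norm_pow, norm_mul]
  calc _ ≤ Real.exp (-((1 / Real.cosh u) ^ 2 / 5)) ^ m * (1 * 1) :=
        mul_le_mul (pow_le_pow_left₀ (norm_nonneg _) (norm_b0_le h) m)
          (mul_le_mul h1 h2 (norm_nonneg _) (by norm_num)) (by positivity) (by positivity)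
    _ = _ := by
        rw [← Real.exp_nat_mul]
        ring_nf

/-- **the small weight in the strip** -/
theorem etaW_strip {s : Finset ι} {x : ι → ℂ} {m : ℕ} {y : ℝ} (G : Grp s x m y) (hy : |y| ≤ 1) {u φ : ℝ}
    (h : |φ| ≤ ph1) :
    ‖etaW s x m y ((u : ℂ) + (φ : ℂ) * Complex.I)‖ ≤ (KQ + 1) * Real.exp (-(m / 80 * (1 / Real.cosh u) ^ 2)) := by
  have h1 := Q_strip G hy (u := u) h
  have h2 := norm_bW_le (m := m) (y := y) (u := u) h
  have hm : (0 : ℝ) ≤ m := Nat.cast_nonneg m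
  have h3 : Real.exp (-(m / 5 * (1 / Real.cosh u) ^ 2)) ≤ Real.exp (-(m / 80 * (1 / Real.cosh u) ^ 2)) := by
    refine Real.exp_le_exp.2 (neg_le_neg ?_)
    have : 0 ≤ (m : ℝ) * (1 / Real.cosh u) ^ 2 := by positivity
    linarith
  unfold etaW
  refine (norm_sub_le _ _).trans ?_
  linarith

end IST43

end
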