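import Pool.Agent.IST43.Wgt7

/-!
# Weights of the dual expansion: beyond the edge, and the final bound

The first three moments of the group and of the ideal agree (the character has no cubic term), so that
`‖η‖ ≤ KF N e^{-5 |Re z|}`.  Together with the strip bound: `‖η‖ ≤ C N^{-3/2 + e} e^{-e |Re z|}` for
`|Im z| ≤ arccos (4/5)`.
-/

set_option autoImplicit false

noncomputable section

open Real

namespace IST43

variable {ι : Type*}

/-- the character of the ideal -/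
def Lid (m : ℕ) (y : ℝ) (z : ℂ) : ℂ := tau z ^ m * (tau (z + y) * tau (z - y))

theorem tau_Om {z : ℂ} (h : 2 * Complex.cosh z + ((√3 : ℝ) : ℂ) ≠ 0) : tau z * Om z = b0 z := by
  unfold tau Om b0
  rw [div_mul_div_comm]
  have e : (2 * Complex.cosh z - ((√3 : ℝ) : ℂ)) * (5 * (2 * Complex.cosh z + ((√3 : ℝ) : ℂ)) ^ 2) =
      (2 * Complex.cosh z + ((√3 : ℝ) : ℂ)) * (20 * Complex.cosh z ^ 2 - 15) := by
    linear_combination (-(5 * (2 * Complex.cosh z + ((√3 : ℝ) : ℂ)))) * s3c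
  rw [e, mul_div_mul_left _ _ h]

theorem zero_le_wide {φ : ℝ} (h : |φ| ≤ 11 * π / 30) : |φ| ≤ 47 * π / 60 := by
  have := Real.pi_pos
  linarith

/-- the ideal times `Ω` is `b` -/
theorem Lid_Om {m : ℕ} {y u φ : ℝ} (h : |φ| ≤ 11 * π / 30) :
    Lid m y ((u : ℂ) + (φ : ℂ) * Complex.I) * (Om ((u : ℂ) + (φ : ℂ) * Complex.I) ^ m *
      (Om ((u : ℂ) + (φ : ℂ) * Complex.I + y) * Om ((u : ℂ) + (φ : ℂ) * Complex.I - y))) =
    bW m y ((u : ℂ) + (φ : ℂ) * Complex.I) := by
  have hw : ∀ w : ℝ, tau ((u : ℂ) + (φ : ℂ) * Complex.I + w) * Om ((u : ℂ) + (φ : ℂ) * Complex.I + w) =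
      b0 ((u : ℂ) + (φ : ℂ) * Complex.I + w) := by
    intro w
    have e1 : (u : ℂ) + (φ : ℂ) * Complex.I + w = ((u + w : ℝ) : ℂ) + (φ : ℂ) * Complex.I := by
      push_cast
      ring
    rw [e1]
    exact tau_Om (tau_den_ne' (zero_le_wide h))
  have h0 := hw 0
  have h1 := hw y
  have h2 := hw (-y)
  simp only [Complex.ofReal_zero, add_zero] at h0
  simp only [Complex.ofReal_neg, ← sub_eq_add_neg] at h2
  unfold Lid bW
  rw [← h0, ← h1, ← h2, mul_pow]
  ring

theorem exp5 : 2 * Real.exp 5 ≤ 300 := by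
  have h : Real.exp 5 = Real.exp 1 ^ 5 := by
    rw [← Real.exp_nat_mul]
    norm_num
  have h1 := Real.exp_one_lt_d9
  have h2 : Real.exp 1 ^ 5 ≤ 2.7183 ^ 5 :=
    pow_le_pow_left₀ (Real.exp_pos 1).le (by linarith) 5
  rw [h]
  norm_num at h2 ⊢
  linarith

theorem exp10 : 2 * Real.exp 10 ≤ 45000 := by
  have e : Real.exp 10 = Real.exp 5 ^ 2 := by
    rw [← Real.exp_nat_mul]
    norm_num
  rw [e]
  have := exp5
  have hp5 := Real.exp_pos 5
  nlinarith

theorem exp15 : Real.exp 15 ≤ 3375000 := by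
  have e : Real.exp 15 = Real.exp 5 ^ 3 := by
    rw [← Real.exp_nat_mul]
    norm_num
  rw [e]
  have := exp5
  calc Real.exp 5 ^ 3 ≤ 150 ^ 3 := pow_le_pow_left₀ (Real.exp_pos 5).le (by linarith) 3
    _ = 3375000 := by norm_num

/-- one factor beyond the edge -/
theorem far_one {u φ : ℝ} (hu : 3 ≤ u) {w : ℂ} (hw : |w.re| ≤ 2) :
    ∃ R : ℂ, ‖R‖ ≤ 45000 * Real.exp (-(5 * u)) ∧
      tau ((u : ℂ) + (φ : ℂ) * Complex.I + w) =
        Complex.exp (-(2 * (√3 : ℝ) * Complex.exp (-((u : ℂ) + (φ : ℂ) * Complex.I)) *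
          Complex.exp (-w)) + R) := by
  obtain ⟨w1, w2⟩ := abs_le.1 hw
  set z := (u : ℂ) + (φ : ℂ) * Complex.I + w with hz
  have hre : z.re = u + w.re := by
    rw [hz]
    simp
  set T := Complex.exp (-z) with hT
  have hTn : ‖T‖ = Real.exp (-(u + w.re)) := by
    rw [hT, Complex.norm_exp, Complex.neg_re, hre]
  have hT1 : ‖T‖ ≤ Real.exp (-1) := by
    rw [hTn]
    exact Real.exp_le_exp.2 (by linarith)
  have hT2 : ‖T‖ ≤ 1 / 2 := by
    refine hT1.trans ?_
    rw [Real.exp_neg, inv_le_comm₀ (Real.exp_pos 1) (by norm_num)]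
    have := Real.exp_one_gt_d9
    linarith
  have hb := LT_bound hT2
  have hx := exp_LT (z := z) (by rw [← hT]; linarith)
  refine ⟨LT T + 2 * (√3 : ℝ) * T, hb.trans ?_, ?_⟩
  · rw [hTn, ← Real.exp_nat_mul]
    have h1 : Real.exp ((5 : ℕ) * -(u + w.re)) ≤ Real.exp 10 * Real.exp (-(5 * u)) := by
      rw [← Real.exp_add]
      refine Real.exp_le_exp.2 ?_
      push_cast
      linarith
    have h2 := mul_le_mul_of_nonneg_right exp10 (Real.exp_pos (-(5 * u))).le
    linarith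
  · rw [← hx, ← hT]
    congr 1
    have : T = Complex.exp (-((u : ℂ) + (φ : ℂ) * Complex.I)) * Complex.exp (-w) := by
      rw [hT, hz, ← Complex.exp_add]
      congr 1
      ring
    rw [mul_assoc (2 * ((√3 : ℝ) : ℂ)), ← this]
    ring

theorem exp_sum_neg (y : ℝ) : Complex.exp (-(y : ℂ)) + Complex.exp (-(-(y : ℂ))) = ((2 * Real.cosh y : ℝ) : ℂ) := by
  rw [Real.cosh_eq, neg_neg]
  push_cast
  ring

/-- **beyond the edge**: the group is the ideal up to `exp D` -/
theorem far_ratio {s : Finset ι} {x : ι → ℂ} {m : ℕ} {y : ℝ} (G : Grp s x m y) (hy : |y| ≤ 1) {u φ : ℝ}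
    (hu : 3 ≤ u) :
    ∃ D : ℂ, ‖D‖ ≤ 45000 * (s.card + m + 2) * Real.exp (-(5 * u)) ∧
      Lam s x ((u : ℂ) + (φ : ℂ) * Complex.I) = Lid m y ((u : ℂ) + (φ : ℂ) * Complex.I) * Complex.exp D := by
  have hrow : ∀ j, ∃ R : ℂ, j ∈ s → ‖R‖ ≤ 45000 * Real.exp (-(5 * u)) ∧
      tau ((u : ℂ) + (φ : ℂ) * Complex.I + x j * Complex.I) =
        Complex.exp (-(2 * (√3 : ℝ) * Complex.exp (-((u : ℂ) + (φ : ℂ) * Complex.I)) *
          Complex.exp (-(x j * Complex.I))) + R) := by
    intro j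
    by_cases hj : j ∈ s
    · obtain ⟨R, hR⟩ := far_one (φ := φ) hu (w := x j * Complex.I) (by
        rw [Complex.mul_I_re, abs_neg]
        exact G.im_le j hj)
      exact ⟨R, fun _ => hR⟩
    · exact ⟨0, fun h => absurd h hj⟩
  choose R hR using hrow
  obtain ⟨R0, hR0, h0⟩ := far_one (φ := φ) hu (w := 0) (by simp)
  obtain ⟨R1, hR1, h1⟩ := far_one (φ := φ) hu (w := y) (by
    rw [Complex.ofReal_re]
    exact hy.trans one_le_two)
  obtain ⟨R2, hR2, h2⟩ := far_one (φ := φ) hu (w := -y) (by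
    rw [Complex.neg_re, Complex.ofReal_re, abs_neg]
    exact hy.trans one_le_two)
  set E := Complex.exp (-((u : ℂ) + (φ : ℂ) * Complex.I)) with hE
  have hL : Lam s x ((u : ℂ) + (φ : ℂ) * Complex.I) =
      Complex.exp (-(2 * (√3 : ℝ) * E * ((m + 2 * Real.cosh y : ℝ) : ℂ)) + ∑ j ∈ s, R j) := by
    unfold Lam
    rw [Finset.prod_congr rfl fun j hj => (hR j hj).2, ← Complex.exp_sum, Finset.sum_add_distrib,
      Finset.sum_neg_distrib, ← Finset.mul_sum, G.neg]
  have hI : Lid m y ((u : ℂ) + (φ : ℂ) * Complex.I) =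
      Complex.exp (-(2 * (√3 : ℝ) * E * ((m + 2 * Real.cosh y : ℝ) : ℂ)) + (m * R0 + R1 + R2)) := by
    unfold Lid
    rw [add_zero] at h0
    rw [← sub_eq_add_neg] at h2
    rw [h0, h1, h2, ← Complex.exp_nat_mul, ← Complex.exp_add, ← Complex.exp_add]
    congr 1
    have e1 : ((m + 2 * Real.cosh y : ℝ) : ℂ) = m + ((2 * Real.cosh y : ℝ) : ℂ) := by
      push_cast
      ring
    rw [e1, ← exp_sum_neg, neg_zero, Complex.exp_zero]
    ring
  refine ⟨∑ j ∈ s, R j - (m * R0 + R1 + R2), ?_, ?_⟩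
  · have a1 : ‖∑ j ∈ s, R j‖ ≤ s.card * (45000 * Real.exp (-(5 * u))) := by
      refine (norm_sum_le _ _).trans ?_
      have := Finset.sum_le_sum (s := s) fun j hj => (hR j hj).1
      rwa [Finset.sum_const, nsmul_eq_mul] at this
    have a2 : ‖(m : ℂ) * R0‖ ≤ m * (45000 * Real.exp (-(5 * u))) := by
      rw [norm_mul, Complex.norm_natCast]
      exact mul_le_mul_of_nonneg_left hR0 (Nat.cast_nonneg m)
    have a3 := norm_add₃_le (a := (m : ℂ) * R0) (b := R1) (c := R2)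
    refine (norm_sub_le _ _).trans ?_
    linarith
  · rw [hL, hI, ← Complex.exp_add]
    congr 1
    ring

/-- the constant beyond the edge -/
def KF : ℝ := (KQ + 1) * 10 ^ 7

theorem etaW_far {s : Finset ι} {x : ι → ℂ} {m : ℕ} {y : ℝ} (G : Grp s x m y) (hy : |y| ≤ 1) {u φ : ℝ}
    (h : |φ| ≤ ph1) :
    ‖etaW s x m y ((u : ℂ) + (φ : ℂ) * Complex.I)‖ ≤
      KF * (s.card + m + 2) * Real.exp (-(5 * u)) := by
  have hm : (0 : ℝ) ≤ m := Nat.cast_nonneg m
  have hs : (0 : ℝ) ≤ s.card := Nat.cast_nonneg _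
  have hp := Real.exp_pos (-(5 * u))
  have hKQ := KQ_ge
  have h50 : ‖etaW s x m y ((u : ℂ) + (φ : ℂ) * Complex.I)‖ ≤ KQ + 1 := by
    refine (etaW_strip G hy h).trans ?_
    have : Real.exp (-(m / 80 * (1 / Real.cosh u) ^ 2)) ≤ 1 := Real.exp_le_one_iff.2 (by
      have : 0 ≤ (m : ℝ) / 80 * (1 / Real.cosh u) ^ 2 := by positivity
      linarith)
    nlinarith
  rcases lt_or_ge u 3 with hu2 | hu2
  · refine h50.trans ?_
    have h1 : Real.exp (-15) ≤ Real.exp (-(5 * u)) := Real.exp_le_exp.2 (by linarith)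
    have h3 : 1 / 3375000 ≤ Real.exp (-15) := by
      rw [Real.exp_neg, one_div]
      exact inv_anti₀ (Real.exp_pos 15) exp15
    have h4 : (10 : ℝ) ^ 7 * 2 * (1 / 3375000) ≤ 10 ^ 7 * (s.card + m + 2) * Real.exp (-(5 * u)) :=
      mul_le_mul (by nlinarith) (h3.trans h1) (by norm_num) (by positivity)
    have h5 : 1 ≤ 10 ^ 7 * (s.card + m + 2) * Real.exp (-(5 * u)) := by
      norm_num at h4 ⊢
      linarith
    have h6 := mul_le_mul_of_nonneg_left h5 (show (0 : ℝ) ≤ KQ + 1 by linarith)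
    unfold KF
    linarith
  · obtain ⟨D, hD, hL⟩ := far_ratio G hy (φ := φ) hu2
    have hpos : 0 ≤ ((s.card : ℝ) + m + 2) * Real.exp (-(5 * u)) := by positivity
    rcases le_or_gt (45000 * (s.card + m + 2) * Real.exp (-(5 * u))) 1 with h1 | h1
    · have hD1 : ‖D‖ ≤ 1 := hD.trans h1
      have e : etaW s x m y ((u : ℂ) + (φ : ℂ) * Complex.I) =
          bW m y ((u : ℂ) + (φ : ℂ) * Complex.I) * (Complex.exp D - 1) := by
        unfold etaW QW
        rw [← Lid_Om (m := m) (y := y) (u := u) (ph1_wide h), hL]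
        ring
      have hb : ‖bW m y ((u : ℂ) + (φ : ℂ) * Complex.I)‖ ≤ 1 := by
        refine (norm_bW_le h).trans (Real.exp_le_one_iff.2 ?_)
        have : 0 ≤ (m : ℝ) / 5 * (1 / Real.cosh u) ^ 2 := by positivity
        linarith
      rw [e, norm_mul]
      calc _ ≤ 1 * (2 * ‖D‖) := mul_le_mul hb (Complex.norm_exp_sub_one_le hD1) (norm_nonneg _) (by norm_num)
        _ ≤ 90000 * ((s.card + m + 2) * Real.exp (-(5 * u))) := by linarith
        _ ≤ KF * ((s.card + m + 2) * Real.exp (-(5 * u))) := by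
            refine mul_le_mul_of_nonneg_right ?_ hpos
            unfold KF
            linarith
        _ = _ := by ring
    · refine h50.trans ?_
      have h2 : 1 ≤ 10 ^ 7 * (s.card + m + 2) * Real.exp (-(5 * u)) := by nlinarith
      have h6 := mul_le_mul_of_nonneg_left h2 (show (0 : ℝ) ≤ KQ + 1 by linarith)
      unfold KF
      linarith

/-! ## the other sign -/

theorem tauW_even (z : ℂ) : tau (-z) = tau z := by
  unfold tau
  rw [Complex.cosh_neg]

theorem Om_even (z : ℂ) : Om (-z) = Om z := by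
  unfold Om
  rw [Complex.cosh_neg]

theorem b0_even (z : ℂ) : b0 (-z) = b0 z := by
  unfold b0
  rw [Complex.cosh_neg]

theorem Grp.negx {s : Finset ι} {x : ι → ℂ} {m : ℕ} {y : ℝ} (G : Grp s x m y) :
    Grp s (fun j => -x j) m y := by
  have e : ∀ j, |(-x j).im| = |(x j).im| := fun j => by rw [Complex.neg_im, abs_neg]
  refine ⟨fun j hj => ?_, fun j hj => ?_, ?_, ?_, ?_, ?_⟩
  · have := G.re_le j hj
    simpa using this
  · rw [e]
    exact G.im_le j hj
  · simp only [e]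
    exact G.spc
  · simp only [e]
    exact G.im_sum
  · have := G.neg
    simpa using this
  · have := G.pos
    simpa using this

theorem etaW_neg (s : Finset ι) (x : ι → ℂ) (m : ℕ) (y : ℝ) (z : ℂ) :
    etaW s x m y (-z) = etaW s (fun j => -x j) m y z := by
  have e1 : (-z + y : ℂ) = -(z - y) := by ring
  have e2 : (-z - y : ℂ) = -(z + y) := by ring
  have e3 : Lam s x (-z) = Lam s (fun j => -x j) z := by
    unfold Lam
    refine Finset.prod_congr rfl fun j _ => ?_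
    rw [← tauW_even]
    congr 1
    ring
  unfold etaW QW bW
  rw [e1, e2, e3, Om_even, Om_even, Om_even, b0_even, b0_even, b0_even]
  ring

/-- **both signs** -/
theorem etaW_far' {s : Finset ι} {x : ι → ℂ} {m : ℕ} {y : ℝ} (G : Grp s x m y) (hy : |y| ≤ 1) {u φ : ℝ}
    (h : |φ| ≤ ph1) :
    ‖etaW s x m y ((u : ℂ) + (φ : ℂ) * Complex.I)‖ ≤
      KF * (s.card + m + 2) * Real.exp (-(5 * |u|)) := by
  rcases le_total 0 u with hu | hu
  · rw [abs_of_nonneg hu]
    exact etaW_far G hy h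
  · have e : (u : ℂ) + (φ : ℂ) * Complex.I = -(((-u : ℝ) : ℂ) + ((-φ : ℝ) : ℂ) * Complex.I) := by
      push_cast
      ring
    rw [e, etaW_neg, abs_of_nonpos hu]
    exact etaW_far G.negx hy (by rw [abs_neg]; exact h)

/-- the number of rows is bounded by the ideal -/
theorem Grp.card_le {s : Finset ι} {x : ι → ℂ} {m : ℕ} {y : ℝ} (G : Grp s x m y) (hy : |y| ≤ 1) :
    (s.card : ℝ) ≤ 4 * m + 82 := by
  obtain ⟨r1, -, -, -⟩ := G.rules
  have h1 : ∀ j ∈ ord s x, (1 / 4 : ℝ) ≤ Real.cosh (x j).im * Real.cos (x j).re := by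
    intro j hj
    have a := cos_ge_quarter (G.re_le j (Finset.mem_filter.1 hj).1)
    have b := Real.one_le_cosh (x j).im
    nlinarith
  have h2 := Finset.sum_le_sum h1
  rw [Finset.sum_const, nsmul_eq_mul, sum_split, r1] at h2
  have h5 := spe_bound G (f := fun j => Real.cosh (x j).im * Real.cos (x j).re) fun j hj => by
    have c1' : |Real.cosh (x j).im| ≤ 4 := by
      rw [abs_of_pos (Real.cosh_pos _)]
      exact (cosh_le4 (G.im_le j hj)).1
    rw [abs_mul]
    have := mul_le_mul c1' (Real.abs_cos_le_one (x j).re) (abs_nonneg _) (by norm_num)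
    linarith
  have h6 := (abs_le.1 h5).1
  have h7 : (s.card : ℝ) = (ord s x).card + (spe s x).card := by
    have := Finset.card_filter_add_card_filter_not (s := s) (fun j => |(x j).im| ≤ 1 / 10)
    unfold ord spe
    exact_mod_cast this.symm
  have h8 : ((spe s x).card : ℝ) ≤ 4 := by
    have := G.spc
    unfold spe
    exact_mod_cast this
  have h3 : Real.cosh y ≤ 7 / 4 := by
    have e := Real.exp_one_lt_d9
    have e' := Real.exp_one_gt_d9
    have h4 : Real.cosh y ≤ Real.cosh 1 := by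
      rw [← Real.cosh_abs y]
      exact Real.cosh_le_cosh.2 (by rw [abs_abs, abs_one]; exact hy)
    refine h4.trans ?_
    rw [Real.cosh_eq, Real.exp_neg]
    have h5 : (Real.exp 1)⁻¹ ≤ 1 / 2.7 := by
      rw [← one_div]
      exact one_div_le_one_div_of_le (by norm_num) (by linarith)
    norm_num at h5 ⊢
    linarith
  linarith

/-- the strip bound in terms of the number of rows -/
theorem etaW_strip' {s : Finset ι} {x : ι → ℂ} {m : ℕ} {y : ℝ} (G : Grp s x m y) (hy : |y| ≤ 1) {u φ : ℝ}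
    (h : |φ| ≤ ph1) :
    ‖etaW s x m y ((u : ℂ) + (φ : ℂ) * Complex.I)‖ ≤
      (2 * (KQ + 1)) * Real.exp (-((s.card + m + 2) / 400 * (1 / Real.cosh u) ^ 2)) := by
  have h1 := etaW_strip G hy (u := u) h
  have h2 := G.card_le hy
  have hk := inv_cosh_mem u
  have hk2 : (1 / Real.cosh u) ^ 2 ≤ 1 := by nlinarith [hk.1, hk.2]
  have hk0 : 0 ≤ (1 / Real.cosh u) ^ 2 := by positivity
  refine h1.trans ?_
  have h3 : Real.exp (-(m / 80 * (1 / Real.cosh u) ^ 2)) ≤
      Real.exp (1 / 4) * Real.exp (-((s.card + m + 2) / 400 * (1 / Real.cosh u) ^ 2)) := by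
    rw [← Real.exp_add]
    refine Real.exp_le_exp.2 ?_
    have : ((s.card : ℝ) + m + 2) / 400 * (1 / Real.cosh u) ^ 2 ≤
        (m / 80 + 1 / 4) * (1 / Real.cosh u) ^ 2 :=
      mul_le_mul_of_nonneg_right (by linarith) hk0
    nlinarith
  have h4 : Real.exp (1 / 4) ≤ 2 := by
    have := Real.exp_one_lt_d9
    have h5 : Real.exp (1 / 4) ≤ Real.exp (1 / 2) := Real.exp_le_exp.2 (by norm_num)
    have h6 : Real.exp (1 / 2) ^ 2 = Real.exp 1 := by
      rw [← Real.exp_nat_mul]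
      norm_num
    nlinarith [Real.exp_pos (1 / 2 : ℝ)]
  have hp := Real.exp_pos (-((s.card + m + 2) / 400 * (1 / Real.cosh u) ^ 2))
  have hKQ := KQ_ge
  have h6 : Real.exp (-(m / 80 * (1 / Real.cosh u) ^ 2)) ≤
      2 * Real.exp (-((s.card + m + 2) / 400 * (1 / Real.cosh u) ^ 2)) :=
    h3.trans (mul_le_mul_of_nonneg_right h4 hp.le)
  have h7 := mul_le_mul_of_nonneg_left h6 (show (0 : ℝ) ≤ KQ + 1 by linarith)
  linarith

/-- elementary: a stretched exponential beats a power -/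
theorem stretched {a b : ℝ} (ha : 0 < a) (hb : 0 < b) :
    ∃ C : ℝ, 0 < C ∧ ∀ X : ℝ, 1 ≤ X → Real.exp (-(a * X ^ b)) ≤ C * X ^ (-(2 : ℝ)) := by
  obtain ⟨p, hp⟩ := exists_nat_gt (2 / b)
  refine ⟨p.factorial / a ^ p, by positivity, fun X hX => ?_⟩
  have hX0 : 0 < X := by linarith
  have h1 : 0 ≤ a * X ^ b := by positivity
  have h2 := Real.pow_div_factorial_le_exp (a * X ^ b) h1 p
  have h3 : X ^ (2 : ℝ) ≤ (X ^ b) ^ p := by
    rw [← Real.rpow_natCast, ← Real.rpow_mul hX0.le]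
    refine Real.rpow_le_rpow_of_exponent_le hX ?_
    rw [div_lt_iff₀ hb] at hp
    linarith
  rw [Real.exp_neg, Real.rpow_neg hX0.le, ← div_eq_mul_inv, le_div_iff₀ (by positivity), ← div_eq_inv_mul,
    div_le_iff₀ (Real.exp_pos _)]
  calc X ^ (2 : ℝ) ≤ (X ^ b) ^ p := h3
    _ = p.factorial / a ^ p * ((a * X ^ b) ^ p / p.factorial) := by
        rw [mul_pow]
        field_simp
    _ ≤ _ := mul_le_mul_of_nonneg_left h2 (by positivity)

/-- **D2**: the small weight -/
theorem etaW_small {e : ℝ} (he0 : 0 < e) (he1 : e ≤ 1) :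
    ∃ C : ℝ, 0 < C ∧ ∀ (ι : Type*) (s : Finset ι) (x : ι → ℂ) (m : ℕ) (y : ℝ), Grp s x m y → |y| ≤ 1 →
      ∀ u φ : ℝ, |φ| ≤ ph1 → ‖etaW s x m y ((u : ℂ) + (φ : ℂ) * Complex.I)‖ ≤
        C * ((s.card : ℝ) + m + 2) ^ (-(3 / 2) + e) * Real.exp (-(e * |u|)) := by
  obtain ⟨C, hC, hst⟩ := stretched (a := 1 / 400) (b := e / 5) (by norm_num) (by positivity)
  have hKQ := KQ_ge
  have hKF : 0 ≤ KF := by
    unfold KF
    have : 0 ≤ KQ + 1 := by linarith
    positivity
  have hK2 : 0 ≤ 2 * (KQ + 1) := by linarith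
  refine ⟨2 * (KQ + 1) * C + KF, by nlinarith, fun ι s x m y G hy u φ h => ?_⟩
  set N : ℝ := (s.card : ℝ) + m + 2 with hN
  have hN1 : 1 ≤ N := by
    have : (0 : ℝ) ≤ m := Nat.cast_nonneg m
    have : (0 : ℝ) ≤ s.card := Nat.cast_nonneg _
    linarith
  have hN0 : 0 < N := by linarith
  have hL : 0 ≤ Real.log N := Real.log_nonneg hN1
  have hpow : ∀ t : ℝ, N ^ t = Real.exp (Real.log N * t) := fun t => Real.rpow_def_of_pos hN0 t
  rcases le_or_gt ((1 / 2 - e / 10) * Real.log N) |u| with hu | hu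
  · have h1 := etaW_far' G hy (u := u) h
    rw [← hN] at h1
    refine h1.trans ?_
    have h2 : N * Real.exp (-(5 * |u|)) ≤ N ^ (-(3 / 2) + e) * Real.exp (-(e * |u|)) := by
      rw [hpow, ← Real.exp_add]
      nth_rewrite 1 [← Real.exp_log hN0]
      rw [← Real.exp_add]
      refine Real.exp_le_exp.2 ?_
      have h3 : (5 - e) * ((1 / 2 - e / 10) * Real.log N) ≤ (5 - e) * |u| :=
        mul_le_mul_of_nonneg_left hu (by linarith)
      have h4 : (5 - e) * ((1 / 2 - e / 10) * Real.log N) =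
          Real.log N * (5 / 2 - e) + Real.log N * (e ^ 2 / 10) := by ring
      have h5 : 0 ≤ Real.log N * (e ^ 2 / 10) := by positivity
      nlinarith
    have h6 : 0 ≤ N ^ (-(3 / 2) + e) * Real.exp (-(e * |u|)) := by positivity
    calc KF * N * Real.exp (-(5 * |u|)) = KF * (N * Real.exp (-(5 * |u|))) := by ring
      _ ≤ KF * (N ^ (-(3 / 2) + e) * Real.exp (-(e * |u|))) :=
          mul_le_mul_of_nonneg_left h2 hKF
      _ ≤ (2 * (KQ + 1) * C + KF) * (N ^ (-(3 / 2) + e) * Real.exp (-(e * |u|))) :=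
          mul_le_mul_of_nonneg_right (by nlinarith) h6
      _ = _ := by ring
  · have h1 := etaW_strip' G hy (u := u) h
    rw [← hN] at h1
    refine h1.trans ?_
    have hk : Real.exp (-(2 * |u|)) ≤ (1 / Real.cosh u) ^ 2 := by
      have hc : Real.cosh u ≤ Real.exp |u| := by
        rw [← Real.cosh_abs, Real.cosh_eq]
        have h2 : Real.exp (-|u|) ≤ Real.exp |u| :=
          Real.exp_le_exp.2 (by have := abs_nonneg u; linarith)
        linarith
      have h3 : Real.exp (-|u|) ≤ 1 / Real.cosh u := by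
        rw [Real.exp_neg, ← one_div]
        exact one_div_le_one_div_of_le (Real.cosh_pos u) hc
      have h4 : Real.exp (-(2 * |u|)) = Real.exp (-|u|) ^ 2 := by
        rw [← Real.exp_nat_mul]
        congr 1
        push_cast
        ring
      rw [h4]
      exact pow_le_pow_left₀ (Real.exp_pos _).le h3 2
    have hNk : N ^ (e / 5) ≤ N * (1 / Real.cosh u) ^ 2 := by
      refine le_trans ?_ (mul_le_mul_of_nonneg_left hk hN0.le)
      rw [hpow]
      nth_rewrite 2 [← Real.exp_log hN0]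
      rw [← Real.exp_add]
      refine Real.exp_le_exp.2 ?_
      nlinarith
    have h2 : Real.exp (-(N / 400 * (1 / Real.cosh u) ^ 2)) ≤ C * N ^ (-(2 : ℝ)) := by
      refine le_trans (Real.exp_le_exp.2 ?_) (hst N hN1)
      linarith
    have h3 : N ^ (-(2 : ℝ)) ≤ N ^ (-(3 / 2) + e) * Real.exp (-(e * |u|)) := by
      rw [hpow, hpow, ← Real.exp_add]
      refine Real.exp_le_exp.2 ?_
      have h4 : e * |u| ≤ e * ((1 / 2 - e / 10) * Real.log N) := mul_le_mul_of_nonneg_left hu.le he0.le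
      have h5 : 0 ≤ Real.log N * (1 / 2 + e / 2 + e ^ 2 / 10) := by positivity
      nlinarith
    have h6 : 0 ≤ N ^ (-(3 / 2) + e) * Real.exp (-(e * |u|)) := by positivity
    calc 2 * (KQ + 1) * Real.exp (-(N / 400 * (1 / Real.cosh u) ^ 2)) ≤ 2 * (KQ + 1) * (C * N ^ (-(2 : ℝ))) :=
          mul_le_mul_of_nonneg_left h2 hK2
      _ ≤ 2 * (KQ + 1) * (C * (N ^ (-(3 / 2) + e) * Real.exp (-(e * |u|)))) :=
          mul_le_mul_of_nonneg_left (mul_le_mul_of_nonneg_left h3 hC.le) hK2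
      _ = 2 * (KQ + 1) * C * (N ^ (-(3 / 2) + e) * Real.exp (-(e * |u|))) := by ring
      _ ≤ (2 * (KQ + 1) * C + KF) * (N ^ (-(3 / 2) + e) * Real.exp (-(e * |u|))) :=
          mul_le_mul_of_nonneg_right (by linarith) h6
      _ = _ := by ring

end IST43

end
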