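import Pool.Agent.IST43.Wgt8

/-!
# Weights of the dual expansion: the reciprocal of the zero carrying weight

`be0 = 1 / b0`, `ibW = 1 / bW`, `iOm = 1 / Om`, `iOmW = Lid * ibW` (continued over the zeros `Im = ± π / 6`).
-/

set_option autoImplicit false

noncomputable section

open Real

namespace IST43

/-- `1 / b0` -/
def be0 (z : ℂ) : ℂ := (20 * Complex.cosh z ^ 2 + 1) / (20 * Complex.cosh z ^ 2 - 15)

/-- `1 / bW` -/
def ibW (m : ℕ) (y : ℝ) (z : ℂ) : ℂ := be0 z ^ m * (be0 (z + y) * be0 (z - y))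

theorem be0_inv (z : ℂ) : be0 z = (b0 z)⁻¹ := by
  unfold be0 b0
  rw [inv_div]

theorem ibW_inv (m : ℕ) (y : ℝ) (z : ℂ) : ibW m y z = (bW m y z)⁻¹ := by
  unfold ibW bW
  rw [be0_inv, be0_inv, be0_inv, mul_inv, mul_inv, inv_pow]

theorem cosh_sq_two (z : ℂ) : 20 * Complex.cosh z ^ 2 = 10 * Complex.cosh (2 * z) + 10 := by
  rw [Complex.cosh_two_mul]
  have := Complex.cosh_sq z
  linear_combination (10 : ℂ) * this

theorem two_mul_line (u φ : ℝ) : 2 * ((u : ℂ) + (φ : ℂ) * Complex.I) =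
    ((2 * u : ℝ) : ℂ) + ((2 * φ : ℝ) : ℂ) * Complex.I := by
  push_cast
  ring

/-- **the zero carrying factor is large in the middle**: `|b0| ≥ 1` -/
theorem be0_le_one {u φ : ℝ} (h : Real.cos (2 * φ) ≤ -(3 / 10)) :
    ‖be0 ((u : ℂ) + (φ : ℂ) * Complex.I)‖ ≤ 1 := by
  have hC : 1 ≤ Real.cosh (2 * u) := Real.one_le_cosh _
  unfold be0
  rw [cosh_sq_two, two_mul_line, cosh_parts]
  set A := Real.cosh (2 * u) * Real.cos (2 * φ) with hA
  set B := Real.sinh (2 * u) * Real.sin (2 * φ) with hB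
  have hA1 : A ≤ -(3 / 10) := by
    rw [hA]
    nlinarith
  have e1 : (10 : ℂ) * (((A : ℝ) : ℂ) + ((B : ℝ) : ℂ) * Complex.I) + 10 + 1 =
      ((10 * A + 11 : ℝ) : ℂ) + ((10 * B : ℝ) : ℂ) * Complex.I := by
    push_cast
    ring
  have e2 : (10 : ℂ) * (((A : ℝ) : ℂ) + ((B : ℝ) : ℂ) * Complex.I) + 10 - 15 =
      ((10 * A - 5 : ℝ) : ℂ) + ((10 * B : ℝ) : ℂ) * Complex.I := by
    push_cast
    ring
  rw [e1, e2, norm_div]
  refine div_le_one_of_le₀ ?_ (norm_nonneg _)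
  refine le_of_sq_le_sq ?_ (norm_nonneg _)
  rw [← Complex.normSq_eq_norm_sq, ← Complex.normSq_eq_norm_sq, Complex.normSq_add_mul_I,
    Complex.normSq_add_mul_I]
  nlinarith

theorem cos108 : Real.cos (3 * π / 5) ≤ -(3 / 10) := by
  have h1 := Real.cos_pi_div_five
  have h2 : Real.cos (2 * (π / 5)) = 2 * Real.cos (π / 5) ^ 2 - 1 := Real.cos_two_mul _
  have h3 : Real.cos (3 * π / 5) = -Real.cos (2 * (π / 5)) := by
    rw [← Real.cos_pi_sub]
    congr 1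
    ring
  have h5 : √5 ^ 2 = 5 := Real.sq_sqrt (by norm_num)
  have h6 : 22 / 10 ≤ √5 := Real.le_sqrt_of_sq_le (by norm_num)
  rw [h3, h2, h1]
  nlinarith

/-- the two lines and everything between them: `.9 l ≤ |Im| ≤ 2.1 l` -/
theorem cos2_mid {φ : ℝ} (h1 : 3 * π / 10 ≤ |φ|) (h2 : |φ| ≤ 7 * π / 10) : Real.cos (2 * φ) ≤ -(3 / 10) := by
  have hpi := Real.pi_pos
  refine le_trans ?_ cos108
  have e : Real.cos (2 * φ) = Real.cos (2 * |φ|) := by
    rcases abs_choice φ with h | h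
    · rw [h]
    · rw [h, mul_neg, Real.cos_neg]
  rw [e]
  rcases le_total (2 * |φ|) π with h | h
  · exact Real.cos_le_cos_of_nonneg_of_le_pi (by positivity) h (by linarith)
  · rw [← Real.cos_two_pi_sub (2 * |φ|)]
    exact Real.cos_le_cos_of_nonneg_of_le_pi (by positivity) (by linarith) (by linarith)

/-- **D3** -/
theorem ibW_le_one {m : ℕ} {y u φ : ℝ} (h1 : 3 * π / 10 ≤ |φ|) (h2 : |φ| ≤ 7 * π / 10) :
    ‖ibW m y ((u : ℂ) + (φ : ℂ) * Complex.I)‖ ≤ 1 := by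
  have hc := cos2_mid h1 h2
  have hw : ∀ w : ℝ, ‖be0 ((u : ℂ) + (φ : ℂ) * Complex.I + w)‖ ≤ 1 := by
    intro w
    have e1 : (u : ℂ) + (φ : ℂ) * Complex.I + w = ((u + w : ℝ) : ℂ) + (φ : ℂ) * Complex.I := by
      push_cast
      ring
    rw [e1]
    exact be0_le_one hc
  have h3 := hw y
  have h4 := hw (-y)
  rw [Complex.ofReal_neg, ← sub_eq_add_neg] at h4
  unfold ibW
  rw [norm_mul, norm_pow, norm_mul]
  exact mul_le_one₀ (pow_le_one₀ (norm_nonneg _) (be0_le_one hc)) (by positivity)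
    (mul_le_one₀ h3 (norm_nonneg _) h4)

/-! ## off the zeros -/

/-- the denominator of `be0` -/
theorem be_den {u φ : ℝ} :
    20 / 3 * |Real.cos (2 * φ) - 1 / 2| * Real.cosh (2 * u) ≤
      ‖20 * Complex.cosh ((u : ℂ) + (φ : ℂ) * Complex.I) ^ 2 - 15‖ := by
  rw [cosh_sq_two, two_mul_line, cosh_parts]
  set c := Real.cos (2 * φ) with hc
  set H := Real.cosh (2 * u) with hH
  have hH1 : 1 ≤ H := Real.one_le_cosh _
  have hc1 : c ≤ 1 := Real.cos_le_one _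
  have hc2 : -1 ≤ c := Real.neg_one_le_cos _
  have hS : Real.sinh (2 * u) ^ 2 = H ^ 2 - 1 := by
    have := Real.cosh_sq (2 * u)
    rw [← hH] at this
    linarith
  have hs : Real.sin (2 * φ) ^ 2 = 1 - c ^ 2 := by
    have := Real.sin_sq_add_cos_sq (2 * φ)
    rw [← hc] at this
    linarith
  have e1 : (10 : ℂ) * (((H * c : ℝ) : ℂ) + ((Real.sinh (2 * u) * Real.sin (2 * φ) : ℝ) : ℂ) * Complex.I) +
      10 - 15 = ((10 * (H * c) - 5 : ℝ) : ℂ) +
        ((10 * (Real.sinh (2 * u) * Real.sin (2 * φ)) : ℝ) : ℂ) * Complex.I := by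
    push_cast
    ring
  rw [e1]
  refine le_of_sq_le_sq ?_ (norm_nonneg _)
  rw [← Complex.normSq_eq_norm_sq, Complex.normSq_add_mul_I]
  have e2 : (10 * (H * c) - 5) ^ 2 + (10 * (Real.sinh (2 * u) * Real.sin (2 * φ))) ^ 2 =
      100 * (H ^ 2 - H * c + c ^ 2 - 3 / 4) := by
    have : (10 * (Real.sinh (2 * u) * Real.sin (2 * φ))) ^ 2 =
        100 * (Real.sinh (2 * u) ^ 2 * Real.sin (2 * φ) ^ 2) := by ring
    rw [this, hS, hs]
    ring
  have e3 : (20 / 3 * |c - 1 / 2| * H) ^ 2 = 100 * (4 / 9 * (c - 1 / 2) ^ 2 * H ^ 2) := by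
    rw [mul_pow, mul_pow, sq_abs]
    ring
  rw [e2, e3]
  have key : 0 ≤ H ^ 2 - H * c + c ^ 2 - 3 / 4 - 4 / 9 * (c - 1 / 2) ^ 2 * H ^ 2 := by
    set a := 1 - 4 / 9 * (c - 1 / 2) ^ 2 with ha
    have ha0 : 0 ≤ a := by
      rw [ha]
      nlinarith
    have hD : 0 ≤ a * (H + 1) - c := by
      have h1 : a * 2 ≤ a * (H + 1) := mul_le_mul_of_nonneg_left (by linarith) ha0
      have h2 : c ≤ a * 2 := by
        rw [ha]
        nlinarith
      linarith
    have e : H ^ 2 - H * c + c ^ 2 - 3 / 4 - 4 / 9 * (c - 1 / 2) ^ 2 * H ^ 2 =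
        5 / 9 * (c - 1 / 2) ^ 2 + (H - 1) * (a * (H + 1) - c) := by
      rw [ha]
      ring
    rw [e]
    have := mul_nonneg (sub_nonneg.2 hH1) hD
    positivity
  linarith

theorem cosh_two_ge (u : ℝ) : Real.cosh u ≤ Real.cosh (2 * u) := by
  refine Real.cosh_le_cosh.2 ?_
  rw [abs_mul, abs_two]
  have := abs_nonneg u
  linarith

theorem be_den_ne {u φ : ℝ} (h : Real.cos (2 * φ) ≠ 1 / 2) :
    20 * Complex.cosh ((u : ℂ) + (φ : ℂ) * Complex.I) ^ 2 - 15 ≠ 0 := by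
  intro h0
  have h1 := be_den (u := u) (φ := φ)
  rw [h0, norm_zero] at h1
  have h2 : 0 < |Real.cos (2 * φ) - 1 / 2| := abs_pos.2 (sub_ne_zero.2 h)
  have h3 := Real.cosh_pos (2 * u)
  have : 0 < 20 / 3 * |Real.cos (2 * φ) - 1 / 2| * Real.cosh (2 * u) := by positivity
  linarith

theorem be0_sub_one {δ : ℝ} (hδ : 0 < δ) {u φ : ℝ} (h : δ ≤ |Real.cos (2 * φ) - 1 / 2|) :
    ‖be0 ((u : ℂ) + (φ : ℂ) * Complex.I) - 1‖ ≤ 3 / δ * (1 / Real.cosh u) := by
  have hne : Real.cos (2 * φ) ≠ 1 / 2 := by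
    intro h0
    rw [h0, sub_self, abs_zero] at h
    linarith
  have h1 := be_den (u := u) (φ := φ)
  have h2 := be_den_ne (u := u) hne
  have h3 := cosh_two_ge u
  have hC := Real.cosh_pos u
  have e : be0 ((u : ℂ) + (φ : ℂ) * Complex.I) - 1 =
      16 / (20 * Complex.cosh ((u : ℂ) + (φ : ℂ) * Complex.I) ^ 2 - 15) := by
    unfold be0
    rw [div_sub_one h2]
    congr 1
    ring
  rw [e, norm_div]
  simp only [Complex.norm_ofNat]
  have h4 : 20 / 3 * δ * Real.cosh u ≤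
      ‖20 * Complex.cosh ((u : ℂ) + (φ : ℂ) * Complex.I) ^ 2 - 15‖ := by
    refine le_trans ?_ h1
    exact mul_le_mul (mul_le_mul_of_nonneg_left h (by norm_num)) h3 hC.le (by positivity)
  calc 16 / ‖20 * Complex.cosh ((u : ℂ) + (φ : ℂ) * Complex.I) ^ 2 - 15‖ ≤ 20 / (20 / 3 * δ * Real.cosh u) :=
        div_le_div₀ (by norm_num) (by norm_num) (by positivity) h4
    _ = _ := by
        field_simp

theorem diff_be0 {z : ℂ} (h : 20 * Complex.cosh z ^ 2 - 15 ≠ 0) : DifferentiableAt ℂ be0 z := by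
  unfold be0
  have hc := Complex.differentiable_cosh z
  exact (((hc.pow 2).const_mul 20).add_const _).div (((hc.pow 2).const_mul 20).sub_const _) h

theorem diff_ibW {m : ℕ} {y : ℝ} {z : ℂ} (h : Real.cos (2 * z.im) ≠ 1 / 2) :
    DifferentiableAt ℂ (ibW m y) z := by
  have hz : z = (z.re : ℂ) + (z.im : ℂ) * Complex.I := (Complex.re_add_im z).symm
  have hO : ∀ w : ℝ, DifferentiableAt ℂ (fun z => be0 (z + w)) z := by
    intro w
    have e1 : z + w = ((z.re + w : ℝ) : ℂ) + (z.im : ℂ) * Complex.I := by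
      conv_lhs => rw [hz]
      push_cast
      ring
    have := diff_be0 (z := z + w) (by rw [e1]; exact be_den_ne h)
    exact DifferentiableAt.comp z (g := be0) (f := fun z => z + (w : ℂ)) this
      (differentiableAt_id.add_const _)
  unfold ibW
  refine DifferentiableAt.mul ?_ (DifferentiableAt.mul (hO y) ?_)
  · have := hO 0
    simp only [Complex.ofReal_zero, add_zero] at this
    exact this.pow m
  · have := hO (-y)
    simp only [Complex.ofReal_neg, ← sub_eq_add_neg] at this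
    exact this

/-- `be0` in a strip without zeros -/
theorem near_be0 {δ : ℝ} (hδ : 0 < δ) {u φ w : ℝ} (h : δ ≤ |Real.cos (2 * φ) - 1 / 2|) (hw : |w| ≤ 1) :
    Near (1 + 18 / δ) (Real.exp (-|u|)) 1 (be0 ((u : ℂ) + (φ : ℂ) * Complex.I + w)) := by
  have e1 : (u : ℂ) + (φ : ℂ) * Complex.I + w = ((u + w : ℝ) : ℂ) + (φ : ℂ) * Complex.I := by
    push_cast
    ring
  rw [e1]
  unfold Near
  rw [pow_one]
  have h1 := inv_cosh_le (u := u) hw
  refine (be0_sub_one hδ h).trans ?_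
  calc 3 / δ * (1 / Real.cosh (u + w)) ≤ 3 / δ * (6 * Real.exp (-|u|)) :=
        mul_le_mul_of_nonneg_left h1 (by positivity)
    _ = _ := by ring

theorem near_ibW {δ : ℝ} (hδ : 0 < δ) {m : ℕ} {y u φ : ℝ} (h : δ ≤ |Real.cos (2 * φ) - 1 / 2|) (hy : |y| ≤ 1) :
    Near (1 + 18 / δ) (Real.exp (-|u|)) (m + (1 + 1)) (ibW m y ((u : ℂ) + (φ : ℂ) * Complex.I)) := by
  have hB : 1 ≤ 1 + 18 / δ := by
    have : 0 ≤ 18 / δ := by positivity
    linarith
  have hx0 := (Real.exp_pos (-|u|)).le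
  have hx1 : Real.exp (-|u|) ≤ 1 := Real.exp_le_one_iff.2 (neg_nonpos.2 (abs_nonneg u))
  unfold ibW
  refine Near.mul hB hx0 hx1 ?_ (Near.mul hB hx0 hx1 (near_be0 hδ h hy) ?_)
  · refine Near.pow hB hx0 hx1 ?_ m
    have := near_be0 (u := u) (w := 0) hδ h (by norm_num)
    simpa using this
  · have := near_be0 (u := u) (w := -y) hδ h (by rw [abs_neg]; exact hy)
    rw [sub_eq_add_neg]
    simpa using this

/-- a compact interval of places without zeros -/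
theorem gap_exists {a b : ℝ} (h : ∀ φ, a ≤ φ → φ ≤ b → Real.cos (2 * φ) ≠ 1 / 2) :
    ∃ δ : ℝ, 0 < δ ∧ ∀ φ, a ≤ φ → φ ≤ b → δ ≤ |Real.cos (2 * φ) - 1 / 2| := by
  rcases lt_or_ge b a with hab | hab
  · exact ⟨1, one_pos, fun φ h1 h2 => absurd (h1.trans h2) (not_le.2 hab)⟩
  have hc : ContinuousOn (fun φ : ℝ => |Real.cos (2 * φ) - 1 / 2|) (Set.Icc a b) := by fun_prop
  obtain ⟨x, hx, hmin⟩ := isCompact_Icc.exists_isMinOn (Set.nonempty_Icc.2 hab) hc
  refine ⟨|Real.cos (2 * x) - 1 / 2|, abs_pos.2 (sub_ne_zero.2 (h x hx.1 hx.2)), fun φ h1 h2 => ?_⟩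
  exact hmin ⟨h1, h2⟩

/-- **D4**: holomorphic and `≤ B^(m + 2)` in every closed strip without zeros, `1 + O(e^{-|Re z|})` -/
theorem ibW_data {a b : ℝ} (h : ∀ φ, a ≤ φ → φ ≤ b → Real.cos (2 * φ) ≠ 1 / 2) :
    ∃ B : ℝ, 1 ≤ B ∧ ∀ (m : ℕ) (y : ℝ), |y| ≤ 1 → ∀ z : ℂ, a ≤ z.im → z.im ≤ b →
      DifferentiableAt ℂ (ibW m y) z ∧ ‖ibW m y z - 1‖ ≤ B ^ (m + 2) * Real.exp (-|z.re|) ∧
        ‖ibW m y z‖ ≤ B ^ (m + 2) := by
  obtain ⟨δ, hδ, hg⟩ := gap_exists h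
  have hB : 1 ≤ 1 + 18 / δ := by
    have : 0 ≤ 18 / δ := by positivity
    linarith
  refine ⟨1 + 18 / δ, hB, fun m y hy z h1 h2 => ⟨diff_ibW (h _ h1 h2), ?_⟩⟩
  have hn := near_ibW hδ (m := m) (u := z.re) (hg _ h1 h2) hy
  rw [Complex.re_add_im] at hn
  unfold Near at hn
  have hx0 := Real.exp_pos (-|z.re|)
  have hx1 : Real.exp (-|z.re|) ≤ 1 := Real.exp_le_one_iff.2 (neg_nonpos.2 (abs_nonneg _))
  have hp : 1 ≤ (1 + 18 / δ) ^ (m + (1 + 1)) := one_le_pow₀ hB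
  have hp' : (1 + 18 / δ) ^ (m + (1 + 1)) = (1 + 18 / δ) ^ (m + 2) := rfl
  rw [hp'] at hn hp
  constructor
  · refine hn.trans (mul_le_mul_of_nonneg_right (by linarith) hx0.le)
  · have h3 : ‖ibW m y z‖ ≤ ‖ibW m y z - 1‖ + 1 := by
      have := norm_add_le (ibW m y z - 1) 1
      simpa using this
    have h4 : ((1 + 18 / δ) ^ (m + 2) - 1) * Real.exp (-|z.re|) ≤ ((1 + 18 / δ) ^ (m + 2) - 1) * 1 :=
      mul_le_mul_of_nonneg_left hx1 (by linarith)
    linarith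

/-- the zeros: `|Im| ≠ π / 6` for `|Im| < 5 π / 6` -/
theorem cos2_ne {φ : ℝ} (h : |φ| ≠ π / 6) (h1 : |φ| < 5 * π / 6) : Real.cos (2 * φ) ≠ 1 / 2 := by
  have hpi := Real.pi_pos
  have e : Real.cos (2 * φ) = Real.cos (2 * |φ|) := by
    rcases abs_choice φ with h | h
    · rw [h]
    · rw [h, mul_neg, Real.cos_neg]
  rw [e, ← Real.cos_pi_div_three]
  intro h0
  have h2 := abs_nonneg φ
  rcases le_total (2 * |φ|) π with h3 | h3
  · have := Real.injOn_cos ⟨by positivity, h3⟩ ⟨by positivity, by linarith⟩ h0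
    exact h (by linarith)
  · rw [← Real.cos_two_pi_sub (2 * |φ|)] at h0
    have := Real.injOn_cos (x₁ := 2 * π - 2 * |φ|) ⟨by linarith, by linarith⟩
      (x₂ := π / 3) ⟨by positivity, by linarith⟩ h0
    linarith

/-! ## the continued product -/

/-- `1 / Om` -/
def iOm (z : ℂ) : ℂ := (20 * Complex.cosh z ^ 2 + 1) / (5 * (2 * Complex.cosh z + (√3 : ℝ)) ^ 2)

/-- the continuation of `Lid * ibW` -/
def iOmW (m : ℕ) (y : ℝ) (z : ℂ) : ℂ := iOm z ^ m * (iOm (z + y) * iOm (z - y))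

theorem tau_be0 {z : ℂ} (h : 2 * Complex.cosh z + ((√3 : ℝ) : ℂ) ≠ 0) (h1 : 20 * Complex.cosh z ^ 2 - 15 ≠ 0) :
    tau z * be0 z = iOm z := by
  have e : 20 * Complex.cosh z ^ 2 - 15 =
      5 * ((2 * Complex.cosh z - ((√3 : ℝ) : ℂ)) * (2 * Complex.cosh z + ((√3 : ℝ) : ℂ))) := by
    linear_combination 5 * s3c
  have h2 : 2 * Complex.cosh z - ((√3 : ℝ) : ℂ) ≠ 0 := by
    intro h0
    rw [e, h0] at h1
    exact h1 (by ring)
  unfold tau be0 iOm
  rw [e, div_mul_div_comm]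
  rw [div_eq_div_iff (mul_ne_zero h (mul_ne_zero (by norm_num) (mul_ne_zero h2 h)))
    (mul_ne_zero (by norm_num) (pow_ne_zero 2 h))]
  ring

/-- **D5**: off the zeros -/
theorem Lid_ibW {m : ℕ} {y u φ : ℝ} (h : |φ| ≤ 47 * π / 60) (h1 : Real.cos (2 * φ) ≠ 1 / 2) :
    Lid m y ((u : ℂ) + (φ : ℂ) * Complex.I) * ibW m y ((u : ℂ) + (φ : ℂ) * Complex.I) =
      iOmW m y ((u : ℂ) + (φ : ℂ) * Complex.I) := by
  have hw : ∀ w : ℝ, tau ((u : ℂ) + (φ : ℂ) * Complex.I + w) * be0 ((u : ℂ) + (φ : ℂ) * Complex.I + w) =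
      iOm ((u : ℂ) + (φ : ℂ) * Complex.I + w) := by
    intro w
    have e1 : (u : ℂ) + (φ : ℂ) * Complex.I + w = ((u + w : ℝ) : ℂ) + (φ : ℂ) * Complex.I := by
      push_cast
      ring
    rw [e1]
    exact tau_be0 (tau_den_ne' h) (be_den_ne h1)
  have h0 := hw 0
  have h1 := hw y
  have h2 := hw (-y)
  simp only [Complex.ofReal_zero, add_zero] at h0
  simp only [Complex.ofReal_neg, ← sub_eq_add_neg] at h2
  unfold Lid ibW iOmW
  rw [← h0, ← h1, ← h2, mul_pow]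
  ring

theorem iOm_sub_one {u φ : ℝ} (h : |φ| ≤ 47 * π / 60) :
    ‖iOm ((u : ℂ) + (φ : ℂ) * Complex.I) - 1‖ ≤ 3 / kapW ^ 2 * (1 / Real.cosh u) := by
  have h1 := tau_den (u := u) h
  have h2 := tau_den_ne' (u := u) h
  obtain ⟨k1, k2⟩ := kapW_pos
  have hC := Real.one_le_cosh u
  have hs := s3_lt
  set Z := Complex.cosh ((u : ℂ) + (φ : ℂ) * Complex.I) with hZ
  have h5 : (5 : ℂ) * (2 * Z + ((√3 : ℝ) : ℂ)) ^ 2 ≠ 0 := mul_ne_zero (by norm_num) (pow_ne_zero 2 h2)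
  have e : iOm ((u : ℂ) + (φ : ℂ) * Complex.I) - 1 =
      -(20 * ((√3 : ℝ) : ℂ) * Z + 14) / (5 * (2 * Z + ((√3 : ℝ) : ℂ)) ^ 2) := by
    unfold iOm
    rw [div_sub_one h5]
    congr 1
    linear_combination (-5 : ℂ) * s3c
  have h3 : ‖20 * ((√3 : ℝ) : ℂ) * Z + 14‖ ≤ 60 * Real.cosh u := by
    refine (norm_add_le _ _).trans ?_
    rw [norm_mul, norm_mul, Complex.norm_real, Real.norm_of_nonneg (by positivity)]
    simp only [Complex.norm_ofNat]
    have h4 := norm_cosh_le u φ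
    have h5 : 20 * √3 * ‖Z‖ ≤ 20 * 1.8 * Real.cosh u :=
      mul_le_mul (by linarith) h4 (norm_nonneg _) (by norm_num)
    linarith
  have h6 : 5 * (2 * kapW * Real.cosh u) ^ 2 ≤ ‖(5 : ℂ) * (2 * Z + ((√3 : ℝ) : ℂ)) ^ 2‖ := by
    rw [norm_mul, norm_pow]
    simp only [Complex.norm_ofNat]
    exact mul_le_mul_of_nonneg_left (pow_le_pow_left₀ (by positivity) h1 2) (by norm_num)
  rw [e, norm_div, norm_neg]
  calc ‖20 * ((√3 : ℝ) : ℂ) * Z + 14‖ / ‖(5 : ℂ) * (2 * Z + ((√3 : ℝ) : ℂ)) ^ 2‖ ≤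
        (60 * Real.cosh u) / (5 * (2 * kapW * Real.cosh u) ^ 2) :=
        div_le_div₀ (by positivity) h3 (by positivity) h6
    _ = _ := by
        field_simp
        norm_num

/-- the constant of `iOmW` -/
def AI : ℝ := 1 + 18 / kapW ^ 2

theorem AI_ge : 1 ≤ AI := by
  have h1 := kapW_pos.1
  unfold AI
  have : 0 ≤ 18 / kapW ^ 2 := by positivity
  linarith

theorem near_iOm {u φ w : ℝ} (h : |φ| ≤ 47 * π / 60) (hw : |w| ≤ 1) :
    Near AI (Real.exp (-|u|)) 1 (iOm ((u : ℂ) + (φ : ℂ) * Complex.I + w)) := by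
  have e1 : (u : ℂ) + (φ : ℂ) * Complex.I + w = ((u + w : ℝ) : ℂ) + (φ : ℂ) * Complex.I := by
    push_cast
    ring
  have hk := kapW_pos.1
  rw [e1]
  unfold Near
  rw [pow_one]
  have h1 := inv_cosh_le (u := u) hw
  refine (iOm_sub_one h).trans ?_
  calc 3 / kapW ^ 2 * (1 / Real.cosh (u + w)) ≤ 3 / kapW ^ 2 * (6 * Real.exp (-|u|)) :=
        mul_le_mul_of_nonneg_left h1 (by positivity)
    _ = _ := by
        unfold AI
        ring

theorem near_iOmW {m : ℕ} {y u φ : ℝ} (h : |φ| ≤ 47 * π / 60) (hy : |y| ≤ 1) :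
    Near AI (Real.exp (-|u|)) (m + (1 + 1)) (iOmW m y ((u : ℂ) + (φ : ℂ) * Complex.I)) := by
  have hB := AI_ge
  have hx0 := (Real.exp_pos (-|u|)).le
  have hx1 : Real.exp (-|u|) ≤ 1 := Real.exp_le_one_iff.2 (neg_nonpos.2 (abs_nonneg u))
  unfold iOmW
  refine Near.mul hB hx0 hx1 ?_ (Near.mul hB hx0 hx1 (near_iOm h hy) ?_)
  · refine Near.pow hB hx0 hx1 ?_ m
    have := near_iOm (u := u) (w := 0) h (by norm_num)
    simpa using this
  · have := near_iOm (u := u) (w := -y) h (by rw [abs_neg]; exact hy)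
    rw [sub_eq_add_neg]
    simpa using this

theorem diff_iOm {z : ℂ} (h : 2 * Complex.cosh z + ((√3 : ℝ) : ℂ) ≠ 0) : DifferentiableAt ℂ iOm z := by
  unfold iOm
  have hc := Complex.differentiable_cosh z
  exact (((hc.pow 2).const_mul 20).add_const _).div ((((hc.const_mul 2).add_const _).pow 2).const_mul 5)
    (mul_ne_zero (by norm_num) (pow_ne_zero 2 h))

theorem diff_iOmW {m : ℕ} {y : ℝ} {z : ℂ} (h : |z.im| ≤ 47 * π / 60) : DifferentiableAt ℂ (iOmW m y) z := by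
  have hz : z = (z.re : ℂ) + (z.im : ℂ) * Complex.I := (Complex.re_add_im z).symm
  have hO : ∀ w : ℝ, DifferentiableAt ℂ (fun z => iOm (z + w)) z := by
    intro w
    have e1 : z + w = ((z.re + w : ℝ) : ℂ) + (z.im : ℂ) * Complex.I := by
      conv_lhs => rw [hz]
      push_cast
      ring
    have := diff_iOm (z := z + w) (by rw [e1]; exact tau_den_ne' h)
    exact DifferentiableAt.comp z (g := iOm) (f := fun z => z + (w : ℂ)) this
      (differentiableAt_id.add_const _)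
  unfold iOmW
  refine DifferentiableAt.mul ?_ (DifferentiableAt.mul (hO y) ?_)
  · have := hO 0
    simp only [Complex.ofReal_zero, add_zero] at this
    exact this.pow m
  · have := hO (-y)
    simp only [Complex.ofReal_neg, ← sub_eq_add_neg] at this
    exact this

/-- **D5**: the continued product -/
theorem iOmW_bound {m : ℕ} {y : ℝ} (hy : |y| ≤ 1) {z : ℂ} (h : |z.im| ≤ 47 * π / 60) :
    ‖iOmW m y z - 1‖ ≤ AI ^ (m + 2) * Real.exp (-|z.re|) ∧ ‖iOmW m y z‖ ≤ AI ^ (m + 2) := by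
  have hn := near_iOmW (m := m) (u := z.re) h hy
  rw [Complex.re_add_im] at hn
  unfold Near at hn
  have hx0 := Real.exp_pos (-|z.re|)
  have hx1 : Real.exp (-|z.re|) ≤ 1 := Real.exp_le_one_iff.2 (neg_nonpos.2 (abs_nonneg _))
  have hp : 1 ≤ AI ^ (m + (1 + 1)) := one_le_pow₀ AI_ge
  have hp' : AI ^ (m + (1 + 1)) = AI ^ (m + 2) := rfl
  rw [hp'] at hn hp
  constructor
  · exact hn.trans (mul_le_mul_of_nonneg_right (by linarith) hx0.le)
  · have h3 : ‖iOmW m y z‖ ≤ ‖iOmW m y z - 1‖ + 1 := by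
      have := norm_add_le (iOmW m y z - 1) 1
      simpa using this
    have h4 : (AI ^ (m + 2) - 1) * Real.exp (-|z.re|) ≤ (AI ^ (m + 2) - 1) * 1 :=
      mul_le_mul_of_nonneg_left hx1 (by linarith)
    linarith

/-- the ideal is the group up to the weight: off the zeros `Lam = Lid (1 + eta be)` -/
theorem Lam_eq {ι : Type*} (s : Finset ι) (x : ι → ℂ) {m : ℕ} {y u φ : ℝ} (h : |φ| ≤ 11 * π / 30)
    (h1 : Real.cos (2 * φ) ≠ 1 / 2) :
    Lam s x ((u : ℂ) + (φ : ℂ) * Complex.I) = Lid m y ((u : ℂ) + (φ : ℂ) * Complex.I) *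
      (1 + etaW s x m y ((u : ℂ) + (φ : ℂ) * Complex.I) * ibW m y ((u : ℂ) + (φ : ℂ) * Complex.I)) := by
  have hb : bW m y ((u : ℂ) + (φ : ℂ) * Complex.I) ≠ 0 := by
    have hw : ∀ w : ℝ, b0 ((u : ℂ) + (φ : ℂ) * Complex.I + w) ≠ 0 := by
      intro w
      have e1 : (u : ℂ) + (φ : ℂ) * Complex.I + w = ((u + w : ℝ) : ℂ) + (φ : ℂ) * Complex.I := by
        push_cast
        ring
      rw [e1]
      exact div_ne_zero (be_den_ne h1) (wide_den_ne h)
    have h0 := hw 0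
    have h2 := hw (-y)
    simp only [Complex.ofReal_zero, add_zero] at h0
    simp only [Complex.ofReal_neg, ← sub_eq_add_neg] at h2
    exact mul_ne_zero (pow_ne_zero m h0) (mul_ne_zero (hw y) h2)
  have hL := Lid_Om (m := m) (y := y) (u := u) h
  unfold etaW QW
  rw [ibW_inv]
  set z := (u : ℂ) + (φ : ℂ) * Complex.I
  set P := Om z ^ m * (Om (z + y) * Om (z - y)) with hP
  have e : 1 + (Lam s x z * P - bW m y z) * (bW m y z)⁻¹ = Lam s x z * P * (bW m y z)⁻¹ := by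
    field_simp
    ring
  rw [e]
  have : Lid m y z * (Lam s x z * P * (bW m y z)⁻¹) = Lam s x z * ((Lid m y z * P) * (bW m y z)⁻¹) := by ring
  rw [this, hL, mul_inv_cancel₀ hb, mul_one]

end IST43

end
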